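import Pool.Agent.H.MP_bb4c62_an.JM.Defs

/-!
# Module JM/BasicA

`prp_symm`: `S T + e T S = e • (T S + e S T)` because `e * e = 1`; `qn_smul`.
`prp_add`: for `e = -1` scalars cancel, otherwise `s = 0`. `qn_eig`, `qn_eig'`: `qn_iff` (helper6/Perturb): `1 - s • K` is
a unit for `s = m⁻¹`, but it kills `y` (resp. `g ∘ (1 - s • K) = 0`). `qn_of_two`: the cube is `0` (Cayley-Hamilton for the
2x2 matrix with trace and determinant `0`: its square is `0`), and nilpotent operators are quasinilpotent (see
helper6/NLine2, line 19).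
-/

namespace Pool.Agent.H.MP_bb4c62_an.JM

open Pool.Agent.H.MP_bb4c62_an.helper6.NL
open Pool.Agent.H.MP_bb4c62_an.helper6.Perturb
open Pool.Agent.H.MP_bb4c62_an.helper6.Gadgets

variable {X : Type*} [NormedAddCommGroup X] [NormedSpace ℂ X]

theorem prp_symm [CompleteSpace X] {e : ℂ} (he : Sg e) {T S : X →L[ℂ] X} :
    Prp e T S ↔ Prp e S T := by
  have he2 : e * e = 1 := by
    rcases he with rfl | rfl <;> norm_num
  have he0 : e ≠ 0 := by
    rintro rfl
    norm_num at he2
  have h1 : T * S + e • (S * T) = e • (S * T + e • (T * S)) := by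
    rw [smul_add, smul_smul, he2, one_smul, add_comm]
  unfold Prp QN
  rw [h1]
  exact qn_smul_iff he0

theorem prp_smul [CompleteSpace X] {e : ℂ} {T S : X →L[ℂ] X} (h : Prp e T S) (c : ℂ) :
    Prp e (c • T) S := by
  have h1 : (c • T) * S + e • (S * (c • T)) = c • (T * S + e • (S * T)) := by
    rw [smul_mul_assoc, mul_smul_comm, smul_add, smul_comm e c]
  unfold Prp QN
  rw [h1]
  exact qn_smul h c

theorem prp_add [CompleteSpace X] {e s : ℂ} (hs : Sc e s) {T S : X →L[ℂ] X} :
    Prp e (T + s • (1 : X →L[ℂ] X)) S ↔ Prp e T S := by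
  have h1 : (T + s • (1 : X →L[ℂ] X)) * S + e • (S * (T + s • (1 : X →L[ℂ] X))) =
      T * S + e • (S * T) := by
    rcases hs with rfl | rfl
    · rw [add_mul, mul_add, smul_mul_assoc, mul_smul_comm, one_mul, mul_one, smul_add,
        neg_one_smul, neg_one_smul]
      abel
    · rw [zero_smul, add_zero]
  unfold Prp QN
  rw [h1]

/-- a quasinilpotent operator has no eigenvalue except `0` -/
theorem qn_eig [CompleteSpace X] {K : X →L[ℂ] X} (hK : QN K) {m : ℂ} {y : X} (hy : y ≠ 0)
    (h : K y = m • y) : m = 0 := by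
  by_contra hm
  exact not_qn_of_eigen hy hm h hK

/-- a quasinilpotent operator has no dual eigenvalue except `0` -/
theorem qn_eig' [CompleteSpace X] {K : X →L[ℂ] X} (hK : QN K) {m : ℂ} {g : X →L[ℂ] ℂ}
    (hg : g ≠ 0) (h : ∀ y, g (K y) = m * g y) : m = 0 := by
  by_contra hm
  have hq := (qn_iff K).mp hK
  obtain ⟨u, hu⟩ := hq m⁻¹
  have h1 : ∀ y, g ((u : X →L[ℂ] X) y) = 0 := by
    intro y
    rw [hu]
    show g (y - m⁻¹ • K y) = 0
    rw [map_sub, map_smul, smul_eq_mul, h y, ← mul_assoc, inv_mul_cancel₀ hm, one_mul, sub_self]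
  apply hg
  ext y
  have h2 : ((↑u : X →L[ℂ] X) * (↑u⁻¹ : X →L[ℂ] X)) y = y := by
    rw [Units.mul_inv]
    rfl
  rw [← h2]
  exact h1 _

/-- a nilpotent operator of rank at most two (trace and determinant `0`) is quasinilpotent:
its cube is `0` -/
theorem qn_of_two [CompleteSpace X] {u v : X} {g g' : X →L[ℂ] ℂ} (h1 : g u + g' v = 0)
    (h2 : g u * g' v - g v * g' u = 0) : QN (ten u g + ten v g') := by
  have hK : ∀ x, (ten u g + ten v g') x = g x • u + g' x • v := fun x => rfl
  set K := ten u g + ten v g' with hKdef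
  have e1 : g' v = - g u := by linear_combination h1
  have e2 : g u * g u + g v * g' u = 0 := by
    rw [e1] at h2
    linear_combination -h2
  have hKu : K (K u) = 0 := by
    rw [hK u, map_add, map_smul, map_smul, hK u, hK v, e1]
    have e3 : g u • (g u • u + g' u • v) + g' u • (g v • u + (-g u) • v) =
        (g u * g u + g v * g' u) • u := by module
    rw [e3, e2, zero_smul]
  have hKv : K (K v) = 0 := by
    rw [hK v, map_add, map_smul, map_smul, hK u, hK v, e1]
    have e3 : g v • (g u • u + g' u • v) + (-g u) • (g v • u + (-g u) • v) =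
        (g u * g u + g v * g' u) • v := by module
    rw [e3, e2, zero_smul]
  have h3 : K ^ 3 = 0 := by
    ext x
    show K (K (K x)) = 0
    rw [hK x, map_add, map_add, map_smul, map_smul, map_smul, map_smul, hKu, hKv, smul_zero,
      smul_zero, add_zero]
  refine (qn_iff K).mpr fun z => ?_
  have h4 : IsNilpotent (z • K) := ⟨3, by rw [smul_pow, h3, smul_zero]⟩
  exact h4.isUnit_one_sub

end Pool.Agent.H.MP_bb4c62_an.JM
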