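import Pool.Agent.H.MP_bb4c62_an.JM.CaseA1

/-!
# Module JM/CaseA2

Let `y, A y, B y` be independent, `Z = span {y, A y, B y}`, `z ∉ Z`. `za_step`: for every `κ` there is a member
`W` with `W y = a y + b (B y - (κ + μ) A y)` and `W z - μ W y ∈ span {y, z}`. `za_lam`: there is one `μ` such that
`U z - μ U y ∈ span {y, z}` for all members `U`. Three members `U1, U2, U3`, no two of them parallel, with constants
`μ1, μ2, μ3` come from `za_step`. At the point `z - μ1 y` (`hl_span` for `U1, U2`) one gets `μ3 = μ1`, and then the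
same point and `U1, U3` give the claim.
-/

namespace Pool.Agent.H.MP_bb4c62_an.JM

open Pool.Agent.H.MP_bb4c62_an.helper6.NL
open Pool.Agent.H.MP_bb4c62_an.helper6.Perturb
open Pool.Agent.H.MP_bb4c62_an.helper6.Gadgets

variable {X : Type*} [NormedAddCommGroup X] [NormedSpace ℂ X]

theorem CaseA2_li {y u v w : X} (h : LinearIndependent ℂ ![y, u, v]) {a b k : ℂ} (hb : b ≠ 0)
    (hw : w = a • y + b • (v - k • u)) : LinearIndependent ℂ ![y, u, w] := by
  rw [Fintype.linearIndependent_iff] at h ⊢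
  intro g hg
  rw [Fin.sum_univ_three] at hg
  have hg' : g 0 • y + g 1 • u + g 2 • w = 0 := hg
  rw [hw] at hg'
  have h1 := h ![g 0 + g 2 * a, g 1 - g 2 * b * k, g 2 * b] (by
    rw [Fin.sum_univ_three]
    show (g 0 + g 2 * a) • y + (g 1 - g 2 * b * k) • u + (g 2 * b) • v = 0
    rw [← hg']
    module)
  have e0 : g 0 + g 2 * a = 0 := h1 0
  have e1 : g 1 - g 2 * b * k = 0 := h1 1
  have e2 : g 2 * b = 0 := h1 2
  have e3 : g 2 = 0 := (mul_eq_zero.1 e2).resolve_right hb
  intro i
  fin_cases i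
  · show g 0 = 0
    rw [e3] at e0
    linear_combination e0
  · show g 1 = 0
    rw [e3] at e1
    linear_combination e1
  · exact e3

theorem CaseA2_swap {y u v : X} (h : LinearIndependent ℂ ![y, u, v]) :
    LinearIndependent ℂ ![y, v, u] := by
  rw [Fintype.linearIndependent_iff] at h ⊢
  intro g hg
  rw [Fin.sum_univ_three] at hg
  have hg' : g 0 • y + g 1 • v + g 2 • u = 0 := hg
  have h1 := h ![g 0, g 2, g 1] (by
    rw [Fin.sum_univ_three]
    show g 0 • y + g 2 • u + g 1 • v = 0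
    rw [← hg']
    module)
  intro i
  fin_cases i
  · exact h1 0
  · exact h1 2
  · exact h1 1

section Fix

variable [CompleteSpace X] {e : ℂ} (he : Sg e) {ℓ : Set (X →L[ℂ] X)} (hℓ : HLine e ℓ)

include he hℓ

/-- two members with the same constant -/
theorem za_pair {U V W : X →L[ℂ] X} (hU : U ∈ ℓ) (hV : V ∈ ℓ) (hUV : ¬ Par e U V) (hW : W ∈ ℓ)
    {y z : X} {μ : ℂ} (h1 : U z - μ • U y ∈ Submodule.span ℂ {y, z})
    (h2 : V z - μ • V y ∈ Submodule.span ℂ {y, z}) :
    W z - μ • W y ∈ Submodule.span ℂ {y, z} := by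
  have h := hl_span he hℓ hU hV hUV hW (z - μ • y)
  rw [map_sub, map_sub, map_sub, map_smul, map_smul, map_smul] at h
  refine (Submodule.span_le.2 ?_) h
  rintro x (rfl | rfl | rfl)
  · exact Submodule.sub_mem _ (Submodule.subset_span (by simp))
      (Submodule.smul_mem _ _ (Submodule.subset_span (by simp)))
  · exact h1
  · exact h2

variable {A B : X →L[ℂ] X} (hA : A ∈ ℓ) (hB : B ∈ ℓ) {y : X}
  (hy : LinearIndependent ℂ ![y, A y, B y])

include hA hB hy

theorem za_i {U : X →L[ℂ] X} (hU : U ∈ ℓ) {z : X}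
    (hz : z ∉ Submodule.span ℂ {y, A y, B y}) {c : ℂ}
    (h : c • U y ∈ Submodule.span ℂ {y, z}) : c = 0 := by
  by_contra hc
  have hAB : ¬ Par e A B := not_par_of_li hy
  obtain ⟨a, b, hab⟩ := Submodule.mem_span_pair.1 h
  by_cases hb : b = 0
  · rw [hb, zero_smul, add_zero] at hab
    have hli := hl_li1 he hℓ hA hB hy hU
    rw [LinearIndependent.pair_iff] at hli
    exact hc (hli (-a) c (by rw [← hab, neg_smul, neg_add_cancel])).2
  · refine hz ?_
    have e1 : z = b⁻¹ • (c • U y - a • y) := by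
      rw [← hab, add_sub_cancel_left, smul_smul, inv_mul_cancel₀ hb, one_smul]
    rw [e1]
    exact Submodule.smul_mem _ _ (Submodule.sub_mem _
      (Submodule.smul_mem _ _ (hl_span he hℓ hA hB hAB hU y))
      (Submodule.smul_mem _ _ (Submodule.subset_span (by simp))))

theorem za_ii {U V : X →L[ℂ] X} (hU : U ∈ ℓ) (hV : V ∈ ℓ) (hUV : ¬ Par e U V) {z : X}
    (hz : z ∉ Submodule.span ℂ {y, A y, B y}) {c : ℂ}
    (h : c • V y ∈ Submodule.span ℂ {y, z, U y}) : c = 0 := by
  by_contra hc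
  have hAB : ¬ Par e A B := not_par_of_li hy
  obtain ⟨a, b, d, hab⟩ := Submodule.mem_span_triple.1 h
  by_cases hb : b = 0
  · rw [hb, zero_smul, add_zero] at hab
    have hli := hl_li he hℓ hA hB hy hU hV hUV
    rw [Fintype.linearIndependent_iff] at hli
    have h1 := hli ![-a, -d, c] (by
      rw [Fin.sum_univ_three]
      show -a • y + -d • U y + c • V y = 0
      rw [← hab]
      module) 2
    exact hc h1
  · refine hz ?_
    have e1 : z = b⁻¹ • (c • V y - a • y - d • U y) := by
      have e2 : c • V y - a • y - d • U y = b • z := by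
        rw [← hab]
        module
      rw [e2, smul_smul, inv_mul_cancel₀ hb, one_smul]
    rw [e1]
    exact Submodule.smul_mem _ _ (Submodule.sub_mem _ (Submodule.sub_mem _
      (Submodule.smul_mem _ _ (hl_span he hℓ hA hB hAB hV y))
      (Submodule.smul_mem _ _ (Submodule.subset_span (by simp))))
      (Submodule.smul_mem _ _ (hl_span he hℓ hA hB hAB hU y)))

theorem za_step {z : X} (hz : z ∉ Submodule.span ℂ {y, A y, B y}) (κ : ℂ) :
    ∃ W ∈ ℓ, ∃ μ a b : ℂ, b ≠ 0 ∧ W y = a • y + b • (B y - (κ + μ) • A y) ∧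
      W z - μ • W y ∈ Submodule.span ℂ {y, z} := by
  have hAB : ¬ Par e A B := not_par_of_li hy
  have hBA : ¬ Par e B A := not_par_of_li (CaseA2_swap hy)
  have hy0 : y ≠ 0 := hy.ne_zero 0
  have hyZ : y ∈ Submodule.span ℂ ({y, A y, B y} : Set X) := Submodule.subset_span (by simp)
  have hyz : LinearIndependent ℂ ![y, z] := by
    rw [LinearIndependent.pair_iff]
    intro a b hab
    have hb : b = 0 := by
      by_contra hb
      refine hz ?_
      have e1 : z = b⁻¹ • (-(a • y)) := by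
        have e2 : -(a • y) = b • z := by
          rw [neg_eq_iff_add_eq_zero]
          exact hab
        rw [e2, smul_smul, inv_mul_cancel₀ hb, one_smul]
      rw [e1]
      exact Submodule.smul_mem _ _ (Submodule.neg_mem _ (Submodule.smul_mem _ _ hyZ))
    refine ⟨?_, hb⟩
    rw [hb, zero_smul, add_zero] at hab
    exact (smul_eq_zero.1 hab).resolve_right hy0
  obtain ⟨p, hp, hpA⟩ := exists_sep_sub (Submodule.fg_span (Set.toFinite {y, z, B y}))
    (v := A y) (fun h => one_ne_zero (za_ii he hℓ hA hB hy hB hA hBA hz (c := 1)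
      (by rwa [one_smul])))
  obtain ⟨q, hq, hqB⟩ := exists_sep_sub (Submodule.fg_span (Set.toFinite {y, z, A y}))
    (v := B y) (fun h => one_ne_zero (za_ii he hℓ hA hB hy hA hB hAB hz (c := 1)
      (by rwa [one_smul])))
  have hpy : p y = 0 := hp _ (Submodule.subset_span (by simp))
  have hpz : p z = 0 := hp _ (Submodule.subset_span (by simp))
  have hpB : p (B y) = 0 := hp _ (Submodule.subset_span (by simp))
  have hqy : q y = 0 := hq _ (Submodule.subset_span (by simp))
  have hqz : q z = 0 := hq _ (Submodule.subset_span (by simp))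
  have hqA : q (A y) = 0 := hq _ (Submodule.subset_span (by simp))
  obtain ⟨W, hW, h1, h2⟩ := hl_meet2 he hℓ hyz (g := p + κ • q) (g' := q)
    (by show p y + κ * q y = 0; rw [hpy, hqy, mul_zero, add_zero])
    (by show p z + κ * q z = 0; rw [hpz, hqz, mul_zero, add_zero]) hqy hqz
  obtain ⟨a, a1, a2, ha⟩ := Submodule.mem_span_triple.1 (hl_span he hℓ hA hB hAB hW y)
  obtain ⟨c, hc⟩ := ca_out he hℓ hA hB hy hW hz
  obtain ⟨b, b1, b2, hb⟩ := Submodule.mem_span_triple.1 hc
  have hWz : W z = c • z + b • y + b1 • A y + b2 • B y := by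
    have h3 : W z = c • z + (W z - c • z) := by abel
    rw [h3, ← hb]
    abel
  have p1 : p (W y) = a1 := by
    rw [← ha, map_add, map_add, map_smul, map_smul, map_smul, hpy, hpA, hpB]
    simp
  have q1 : q (W y) = a2 := by
    rw [← ha, map_add, map_add, map_smul, map_smul, map_smul, hqy, hqA, hqB]
    simp
  have p2 : p (W z) = b1 := by
    rw [hWz, map_add, map_add, map_add, map_smul, map_smul, map_smul, map_smul, hpy, hpA, hpB, hpz]
    simp
  have q2 : q (W z) = b2 := by
    rw [hWz, map_add, map_add, map_add, map_smul, map_smul, map_smul, map_smul, hqy, hqA, hqB, hqz]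
    simp
  have h1' : p (W y) + κ * q (W y) + q (W z) = 0 := h1
  have h2' : (p (W y) + κ * q (W y)) * q (W z) - (p (W z) + κ * q (W z)) * q (W y) = 0 := h2
  rw [p1, q1, q2] at h1'
  rw [p1, q1, q2, p2] at h2'
  have ha2 : a2 ≠ 0 := by
    intro h0
    rw [h0] at h1' h2'
    have h3 : b2 = -a1 := by linear_combination h1'
    rw [h3] at h2'
    have h4 : a1 * a1 = 0 := by linear_combination -h2'
    have h5 : a1 = 0 := by
      rcases mul_eq_zero.1 h4 with h | h <;> exact h
    have hli := hl_li1 he hℓ hA hB hy hW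
    rw [LinearIndependent.pair_iff] at hli
    have h6 := (hli (-a) 1 (by rw [← ha, h0, h5]; module)).2
    exact one_ne_zero h6
  have hμ : b2 / a2 * a2 = b2 := div_mul_cancel₀ _ ha2
  refine ⟨W, hW, b2 / a2, a, a2, ha2, ?_, ?_⟩
  · rw [← ha]
    have h3 : a1 = -(a2 * (κ + b2 / a2)) := by linear_combination h1' + hμ
    rw [h3]
    module
  · have h3 : b1 = b2 / a2 * a1 := by
      rw [div_mul_eq_mul_div, eq_div_iff ha2]
      linear_combination -h2'
    have h4 : W z - (b2 / a2) • W y = (b - b2 / a2 * a) • y + c • z := by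
      rw [hWz, ← ha]
      have h5 : b2 • B y = (b2 / a2 * a2) • B y := by rw [hμ]
      rw [h5, h3]
      module
    rw [h4]
    exact Submodule.mem_span_pair.2 ⟨_, _, rfl⟩

theorem za_out {U V : X →L[ℂ] X} (hU : U ∈ ℓ) (hV : V ∈ ℓ) {z : X}
    (hz : z ∉ Submodule.span ℂ {y, A y, B y}) : z ∉ Submodule.span ℂ {y, U y, V y} := by
  have hAB : ¬ Par e A B := not_par_of_li hy
  intro h
  refine hz ((Submodule.span_le.2 ?_) h)
  rintro x (rfl | rfl | rfl)
  · exact Submodule.subset_span (by simp)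
  · exact hl_span he hℓ hA hB hAB hU y
  · exact hl_span he hℓ hA hB hAB hV y

theorem za_lam {z : X} (hz : z ∉ Submodule.span ℂ {y, A y, B y}) :
    ∃ μ : ℂ, ∀ U ∈ ℓ, U z - μ • U y ∈ Submodule.span ℂ {y, z} := by
  have hAB : ¬ Par e A B := not_par_of_li hy
  have hyS : y ∈ Submodule.span ℂ ({y, z} : Set X) := Submodule.subset_span (by simp)
  have hzS : z ∈ Submodule.span ℂ ({y, z} : Set X) := Submodule.subset_span (by simp)
  obtain ⟨U1, hU1, μ1, -, -, -, -, h1⟩ := za_step he hℓ hA hB hy hz 0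
  obtain ⟨V, hV, hUV⟩ : ∃ V ∈ ℓ, ¬ Par e U1 V := by
    by_contra hcon
    push Not at hcon
    exact hAB (par_trans (par_symm (hl_nt hℓ hA) (hcon A hA)) (hcon B hB))
  have hli1 := hl_li he hℓ hA hB hy hU1 hV hUV
  obtain ⟨U2, hU2, μ2, a, b, hb, hW2, h2⟩ := za_step he hℓ hU1 hV hli1
    (za_out he hℓ hA hB hy hU1 hV hz) 0
  have hli2 : LinearIndependent ℂ ![y, U1 y, U2 y] := CaseA2_li hli1 hb hW2
  have h12 : ¬ Par e U1 U2 := not_par_of_li hli2
  obtain ⟨U3, hU3, μ3, a', b', hb', hW3, h3⟩ := za_step he hℓ hU1 hU2 hli2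
    (za_out he hℓ hA hB hy hU1 hU2 hz) (1 - μ2)
  have h13 : ¬ Par e U1 U3 := not_par_of_li (CaseA2_li hli2 hb' hW3)
  have h23 : ¬ Par e U2 U3 := by
    intro hp
    have hp' := hp
    obtain ⟨c, s, -, hcs⟩ := hp'
    have e1 : ∀ x, U3 x = c • U2 x + s • x := fun x => by rw [hcs]; rfl
    have e2 : U3 z - μ2 • U3 y ∈ Submodule.span ℂ ({y, z} : Set X) := by
      have e3 : U3 z - μ2 • U3 y = c • (U2 z - μ2 • U2 y) + s • z - (μ2 * s) • y := by
        rw [e1, e1]
        module
      rw [e3]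
      exact Submodule.sub_mem _ (Submodule.add_mem _ (Submodule.smul_mem _ _ h2)
        (Submodule.smul_mem _ _ hzS)) (Submodule.smul_mem _ _ hyS)
    have e4 : (μ2 - μ3) • U3 y ∈ Submodule.span ℂ ({y, z} : Set X) := by
      have e5 := Submodule.sub_mem _ h3 e2
      have e6 : U3 z - μ3 • U3 y - (U3 z - μ2 • U3 y) = (μ2 - μ3) • U3 y := by module
      rwa [e6] at e5
    have e7 := za_i he hℓ hA hB hy hU3 hz e4
    have e8 : 1 - μ2 + μ3 = 1 := by linear_combination -e7
    rw [e8] at hW3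
    refine not_par_of_li (CaseA2_li (CaseA2_swap hli2) (a := a') (b := -b') (k := 1)
      (neg_ne_zero.2 hb') (w := U3 y) ?_) hp
    rw [hW3]
    module
  have hS3 : Submodule.span ℂ ({y, z} : Set X) ≤ Submodule.span ℂ {y, z, U2 y} := by
    refine Submodule.span_mono ?_
    intro x hx
    rcases hx with h | h
    · exact Or.inl h
    · exact Or.inr (Or.inl h)
  have h31 : μ3 = μ1 := by
    have k1 := hl_span he hℓ hU1 hU2 h12 hU3 (z - μ1 • y)
    rw [map_sub, map_sub, map_sub, map_smul, map_smul, map_smul] at k1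
    have k2 : U3 z - μ1 • U3 y ∈ Submodule.span ℂ {y, z, U2 y} := by
      refine (Submodule.span_le.2 ?_) k1
      rintro x (rfl | rfl | rfl)
      · exact Submodule.sub_mem _ (hS3 hzS) (Submodule.smul_mem _ _ (hS3 hyS))
      · exact hS3 h1
      · have k3 : U2 z - μ1 • U2 y = (U2 z - μ2 • U2 y) + (μ2 - μ1) • U2 y := by module
        rw [k3]
        exact Submodule.add_mem _ (hS3 h2) (Submodule.smul_mem _ _
          (Submodule.subset_span (by simp)))
    have k4 := Submodule.sub_mem _ k2 (hS3 h3)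
    have k5 : U3 z - μ1 • U3 y - (U3 z - μ3 • U3 y) = (μ3 - μ1) • U3 y := by module
    rw [k5] at k4
    exact sub_eq_zero.1 (za_ii he hℓ hA hB hy hU2 hU3 h23 hz k4)
  rw [h31] at h3
  exact ⟨μ1, fun U hU => za_pair he hℓ hU1 hU3 h13 hU h1 h3⟩

end Fix

end Pool.Agent.H.MP_bb4c62_an.JM
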