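import Pool.Agent.H.MP_bb4c62_an.JM.CaseA2

/-!
# Module JM/CaseA3

Let `y, A y, B y` be independent. `ca_two`: for every member `U` there is `c` such that `U - c` maps into
`span {y, U y}` (`za_lam`, `scalar_mod`). `ca_three`: an operator `U` for which `U - c_i` maps into a subspace of
dimension at most two for three different `c_i` is a scalar, in dimension at least four. `ca_form`: `U - c` has rank
one. Take three points `y, y', y''` (`ca_near`) with `y' ∉ span {y, U y}`, `y'' ∉ span {y, U y}`,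
`y'' ∉ span {y', U y'}`. By `ca_three` two of the constants agree, and `CaseA3_one` applies.
-/

namespace Pool.Agent.H.MP_bb4c62_an.JM

open Pool.Agent.H.MP_bb4c62_an.helper6.NL
open Pool.Agent.H.MP_bb4c62_an.helper6.Perturb
open Pool.Agent.H.MP_bb4c62_an.helper6.Gadgets

variable {X : Type*} [NormedAddCommGroup X] [NormedSpace ℂ X]

/-- three constants are too many -/
theorem ca_three {E : Type*} [AddCommGroup E] [Module ℂ E] (h4 : Dim4 E) (U : E →ₗ[ℂ] E)
    {P P' P'' : Submodule ℂ E} [FiniteDimensional ℂ P] [FiniteDimensional ℂ P']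
    [FiniteDimensional ℂ P''] (hP : Module.finrank ℂ P ≤ 2) (hP' : Module.finrank ℂ P' ≤ 2)
    (hP'' : Module.finrank ℂ P'' ≤ 2) {c c' c'' : ℂ} (h : ∀ z, U z - c • z ∈ P)
    (h' : ∀ z, U z - c' • z ∈ P') (h'' : ∀ z, U z - c'' • z ∈ P'') (h1 : c ≠ c') (h2 : c ≠ c'')
    (h3 : c' ≠ c'') (z : E) : U z = c • z := by
  obtain ⟨v, hv⟩ := h4
  -- two subspaces meet in zero
  have key : ∀ (Q Q' : Submodule ℂ E) [FiniteDimensional ℂ Q] [FiniteDimensional ℂ Q'],
      Module.finrank ℂ Q ≤ 2 → Module.finrank ℂ Q' ≤ 2 → ∀ d d' : ℂ,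
      (∀ z, U z - d • z ∈ Q) → (∀ z, U z - d' • z ∈ Q') → d ≠ d' →
      ∀ z, U (U z - d' • z) - d • (U z - d' • z) = 0 := by
    intro Q Q' _ _ hQ hQ' d d' hd hd' hne z
    have htop : Q ⊔ Q' = ⊤ := by
      rw [eq_top_iff]
      intro x _
      have hne' : d' - d ≠ 0 := sub_ne_zero.2 (Ne.symm hne)
      have e1 : (d' - d) • x ∈ Q ⊔ Q' := by
        have e2 : (d' - d) • x = (U x - d • x) - (U x - d' • x) := by module
        rw [e2]
        exact Submodule.sub_mem _ (Submodule.mem_sup_left (hd x))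
          (Submodule.mem_sup_right (hd' x))
      exact (Submodule.smul_mem_iff _ hne').1 e1
    have hfd : FiniteDimensional ℂ E := by
      have : FiniteDimensional ℂ (⊤ : Submodule ℂ E) := by
        rw [← htop]
        infer_instance
      exact Module.finite_def.2 (Submodule.fg_top _ |>.1 (Module.finite_def.1 this))
    have hE : 4 ≤ Module.finrank ℂ E := by
      have := hv.fintype_card_le_finrank
      rwa [Fintype.card_fin] at this
    have hsum := Submodule.finrank_sup_add_finrank_inf_eq Q Q'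
    rw [htop, finrank_top] at hsum
    have hinf : Module.finrank ℂ (Q ⊓ Q' : Submodule ℂ E) = 0 := by omega
    have hbot : Q ⊓ Q' = ⊥ := Submodule.finrank_eq_zero.1 hinf
    have hmem : U (U z - d' • z) - d • (U z - d' • z) ∈ Q ⊓ Q' := by
      refine ⟨hd _, ?_⟩
      have e3 : U (U z - d' • z) - d • (U z - d' • z) =
          U (U z - d • z) - d' • (U z - d • z) := by
        rw [map_sub, map_sub, map_smul, map_smul]
        module
      rw [e3]
      exact hd' _
    rw [hbot] at hmem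
    exact (Submodule.mem_bot ℂ).1 hmem
  have k1 := key P P' hP hP' c c' h h' h1 z
  have k2 := key P P'' hP hP'' c c'' h h'' h2 z
  have hne : c'' - c' ≠ 0 := sub_ne_zero.2 (Ne.symm h3)
  have k3 : (c'' - c') • (U z - c • z) = 0 := by
    have k4 : (c'' - c') • (U z - c • z) =
        (U (U z - c' • z) - c • (U z - c' • z)) - (U (U z - c'' • z) - c • (U z - c'' • z)) := by
      rw [map_sub, map_sub, map_smul, map_smul]
      module
    rw [k4, k1, k2, sub_zero]
  exact sub_eq_zero.1 ((smul_eq_zero.1 k3).resolve_left hne)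

/-- a good point outside of one subspace and near to a point outside of another one -/
theorem ca_near (A B : X →L[ℂ] X) {y : X} (hy : LinearIndependent ℂ ![y, A y, B y])
    (P : Submodule ℂ X) (hP : IsClosed (P : Set X)) (hyP : y ∉ P) (v : X) : ∃ t : ℂ, t ≠ 0 ∧
      LinearIndependent ℂ ![y + t • v, A (y + t • v), B (y + t • v)] ∧ y + t • v ∉ P := by
  have h1 := hy.eventually
  have h2 : Filter.Tendsto (fun t : ℂ => ![y + t • v, A (y + t • v), B (y + t • v)]) (nhds 0)
      (nhds ![y, A y, B y]) := by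
    have hc : Continuous (fun t : ℂ => ![y + t • v, A (y + t • v), B (y + t • v)]) := by
      refine continuous_pi fun i => ?_
      fin_cases i
      · show Continuous fun t : ℂ => y + t • v
        fun_prop
      · show Continuous fun t : ℂ => A (y + t • v)
        fun_prop
      · show Continuous fun t : ℂ => B (y + t • v)
        fun_prop
    have h3 := hc.tendsto 0
    rw [zero_smul, add_zero] at h3
    exact h3
  have h4 : Filter.Tendsto (fun t : ℂ => y + t • v) (nhds 0) (nhds y) := by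
    have hc : Continuous (fun t : ℂ => y + t • v) := by fun_prop
    have h3 := hc.tendsto 0
    rw [zero_smul, add_zero] at h3
    exact h3
  have h5 : ∀ᶠ x in nhds y, x ∉ P := hP.isOpen_compl.mem_nhds hyP
  have h3 := ((h2.eventually h1).and (h4.eventually h5)).filter_mono
    (nhdsWithin_le_nhds (s := {(0 : ℂ)}ᶜ))
  obtain ⟨t, ht1, ht2⟩ := (h3.and self_mem_nhdsWithin).exists
  exact ⟨t, ht2, ht1.1, ht1.2⟩

/-- two points with the same constant -/
theorem CaseA3_one {U : X →L[ℂ] X} {y y' : X} {c : ℂ}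
    (h : ∀ z, U z - c • z ∈ Submodule.span ℂ {y, U y})
    (h' : ∀ z, U z - c • z ∈ Submodule.span ℂ {y', U y'})
    (hy' : y' ∉ Submodule.span ℂ {y, U y}) (hli : LinearIndependent ℂ ![y', U y']) :
    ∃ (c : ℂ) (n : X) (f : X →L[ℂ] ℂ), U = c • (1 : X →L[ℂ] X) + ten n f := by
  obtain ⟨n, hn⟩ : ∃ n, n = U y' - c • y' := ⟨_, rfl⟩
  have hn0 : n ≠ 0 := by
    intro h0
    rw [LinearIndependent.pair_iff] at hli
    have h1 := (hli (-c) 1 (by rw [one_smul, neg_smul, neg_add_eq_sub, ← hn, h0])).2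
    exact one_ne_zero h1
  have hnP : n ∈ Submodule.span ℂ {y, U y} := by
    rw [hn]
    exact h y'
  obtain ⟨η, hη⟩ := SeparatingDual.exists_eq_one (R := ℂ) hn0
  refine ⟨c, n, η.comp (U - c • (1 : X →L[ℂ] X)), ?_⟩
  ext z
  show U z = c • z + η (U z - c • z) • n
  obtain ⟨a, b, hab⟩ := Submodule.mem_span_pair.1 (h' z)
  have e1 : (a + b * c) • y' = (U z - c • z) - b • n := by
    rw [← hab, hn]
    module
  have e2 : (a + b * c) • y' ∈ Submodule.span ℂ {y, U y} := by
    rw [e1]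
    exact Submodule.sub_mem _ (h z) (Submodule.smul_mem _ _ hnP)
  have e3 : a + b * c = 0 := by
    by_contra hne
    exact hy' ((Submodule.smul_mem_iff _ hne).1 e2)
  rw [e3, zero_smul] at e1
  have e4 : U z - c • z = b • n := (sub_eq_zero.1 e1.symm)
  rw [e4, map_smul, hη, smul_eq_mul, mul_one, ← e4]
  abel

theorem CaseA3_fd (p q : X) : FiniteDimensional ℂ (Submodule.span ℂ ({p, q} : Set X)) ∧
    Module.finrank ℂ (Submodule.span ℂ ({p, q} : Set X)) ≤ 2 := by
  obtain ⟨h1, h2⟩ := LldB_fd ![p, q]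
  rw [LldB_two] at h1 h2
  exact ⟨h1, h2⟩

section Fix

variable [CompleteSpace X] {e : ℂ} (he : Sg e) {ℓ : Set (X →L[ℂ] X)} (hℓ : HLine e ℓ)
  {A B : X →L[ℂ] X} (hA : A ∈ ℓ) (hB : B ∈ ℓ) (h4 : Dim4 X)

include he hℓ hA hB h4

theorem ca_two {y : X} (hy : LinearIndependent ℂ ![y, A y, B y]) {U : X →L[ℂ] X} (hU : U ∈ ℓ) :
    ∃ c : ℂ, ∀ z, U z - c • z ∈ Submodule.span ℂ {y, U y} := by
  have hK : Submodule.span ℂ ({y, A y, B y} : Set X) ≠ ⊤ := by
    intro h
    obtain ⟨u, hu⟩ := exists_notMem3 h4 y (A y) (B y)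
    apply hu
    rw [h]
    exact Submodule.mem_top
  obtain ⟨c, hc⟩ := scalar_mod (Submodule.span ℂ {y, U y}) (Submodule.span ℂ {y, A y, B y}) hK
    (exists_two_mod h4 y (U y)) (U : X →ₗ[ℂ] X) (by
      intro z _ hz
      obtain ⟨μ, hμ⟩ := za_lam he hℓ hA hB hy hz
      obtain ⟨a, b, hab⟩ := Submodule.mem_span_pair.1 (hμ U hU)
      refine ⟨b, ?_⟩
      show U z - b • z ∈ Submodule.span ℂ {y, U y}
      have e1 : U z - b • z = a • y + μ • U y := by
        have e2 : U z = a • y + b • z + μ • U y := by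
          rw [hab]
          abel
        rw [e2]
        abel
      rw [e1]
      exact Submodule.mem_span_pair.2 ⟨_, _, rfl⟩)
  exact ⟨c, hc⟩

theorem ca_form {y : X} (hy : LinearIndependent ℂ ![y, A y, B y]) {U : X →L[ℂ] X} (hU : U ∈ ℓ) :
    ∃ (c : ℂ) (n : X) (f : X →L[ℂ] ℂ), U = c • (1 : X →L[ℂ] X) + ten n f := by
  obtain ⟨fd, fr⟩ := CaseA3_fd y (U y)
  obtain ⟨c, hc⟩ := ca_two he hℓ hA hB h4 hy hU
  have hyP : y ∈ Submodule.span ℂ ({y, U y} : Set X) := Submodule.subset_span (by simp)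
  -- the second point
  obtain ⟨y', hy', hy'P⟩ : ∃ y', LinearIndependent ℂ ![y', A y', B y'] ∧
      y' ∉ Submodule.span ℂ {y, U y} := by
    obtain ⟨v, hv⟩ := exists_notMem3 h4 y (U y) (U y)
    obtain ⟨t, ht, h1, -⟩ := ca_near A B hy (⊥ : Submodule ℂ X)
      (Submodule.closed_of_finiteDimensional _)
      (fun h => hy.ne_zero 0 ((Submodule.mem_bot ℂ).1 h)) v
    refine ⟨y + t • v, h1, fun h => hv ?_⟩
    have h2 := Submodule.sub_mem _ h hyP
    rw [add_sub_cancel_left] at h2
    have h3 := (Submodule.smul_mem_iff _ ht).1 h2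
    refine Submodule.span_mono ?_ h3
    intro x hx
    rcases hx with h | h
    · exact Or.inl h
    · exact Or.inr (Or.inl h)
  obtain ⟨fd', fr'⟩ := CaseA3_fd y' (U y')
  obtain ⟨c', hc'⟩ := ca_two he hℓ hA hB h4 hy' hU
  have hyP' : y' ∈ Submodule.span ℂ ({y', U y'} : Set X) := Submodule.subset_span (by simp)
  -- the third point
  obtain ⟨y'', hy'', hy''P, hy''P'⟩ : ∃ y'', LinearIndependent ℂ ![y'', A y'', B y''] ∧
      y'' ∉ Submodule.span ℂ {y, U y} ∧ y'' ∉ Submodule.span ℂ {y', U y'} := by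
    obtain ⟨v, hv⟩ := exists_notMem3 h4 y' (U y') (U y')
    obtain ⟨t, ht, h1, h1'⟩ := ca_near A B hy' _ (Submodule.closed_of_finiteDimensional _) hy'P v
    refine ⟨y' + t • v, h1, h1', fun h => hv ?_⟩
    have h2 := Submodule.sub_mem _ h hyP'
    rw [add_sub_cancel_left] at h2
    have h3 := (Submodule.smul_mem_iff _ ht).1 h2
    refine Submodule.span_mono ?_ h3
    intro x hx
    rcases hx with h | h
    · exact Or.inl h
    · exact Or.inr (Or.inl h)
  obtain ⟨fd'', fr''⟩ := CaseA3_fd y'' (U y'')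
  obtain ⟨c'', hc''⟩ := ca_two he hℓ hA hB h4 hy'' hU
  by_cases h1 : c = c'
  · rw [← h1] at hc'
    exact CaseA3_one hc hc' hy'P (hl_li1 he hℓ hA hB hy' hU)
  by_cases h2 : c = c''
  · rw [← h2] at hc''
    exact CaseA3_one hc hc'' hy''P (hl_li1 he hℓ hA hB hy'' hU)
  by_cases h3 : c' = c''
  · rw [← h3] at hc''
    exact CaseA3_one hc' hc'' hy''P' (hl_li1 he hℓ hA hB hy'' hU)
  exfalso
  have h5 := ca_three h4 (U : X →ₗ[ℂ] X) fr fr' fr'' hc hc' hc'' h1 h2 h3 y
  have hli := hl_li1 he hℓ hA hB hy hU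
  rw [LinearIndependent.pair_iff] at hli
  have h6 := (hli (-c) 1 (by
    have h7 : U y = c • y := h5
    rw [h7, one_smul, neg_smul, neg_add_cancel])).2
  exact one_ne_zero h6

end Fix

end Pool.Agent.H.MP_bb4c62_an.JM
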