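import Pool.Agent.H.MP_bb4c62_an.JM.CaseA3

/-!
# Module JM/CaseA4

Let `y, A y, B y` be independent, `Z = span {y, A y, B y}`. A member `U` has the form `c + ten n f` (`ca_form`) with
`f y ≠ 0` (`hl_li1`), without loss of generality `f y = 1`. For `z ∉ Z` the value `f z` is the constant of `za_lam`,
so it does not depend on `U`. The complement of `Z` determines a functional.
-/

namespace Pool.Agent.H.MP_bb4c62_an.JM

open Pool.Agent.H.MP_bb4c62_an.helper6.NL
open Pool.Agent.H.MP_bb4c62_an.helper6.Perturb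
open Pool.Agent.H.MP_bb4c62_an.helper6.Gadgets

variable {X : Type*} [NormedAddCommGroup X] [NormedSpace ℂ X]

theorem caseA [CompleteSpace X] {e : ℂ} (he : Sg e) (h5 : Dim4 X)
    {ℓ : Set (X →L[ℂ] X)} (hℓ : HLine e ℓ) {A B : X →L[ℂ] X} (hA : A ∈ ℓ) (hB : B ∈ ℓ) {y : X}
    (hy : LinearIndependent ℂ ![y, A y, B y]) : ColFam ℓ := by
  have hnorm : ∀ U ∈ ℓ, ∃ (c : ℂ) (n : X) (f : X →L[ℂ] ℂ), f y = 1 ∧
      U = c • (1 : X →L[ℂ] X) + ten n f := by
    intro U hU
    obtain ⟨c, n, f, h⟩ := ca_form he hℓ hA hB h5 hy hU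
    have hf : f y ≠ 0 := by
      intro h0
      have hli := hl_li1 he hℓ hA hB hy hU
      rw [LinearIndependent.pair_iff] at hli
      have h6 := (hli (-c) 1 (by
        have h7 : U y = c • y := by
          rw [h]
          show c • y + f y • n = c • y
          rw [h0, zero_smul, add_zero]
        rw [h7, one_smul, neg_smul, neg_add_cancel])).2
      exact one_ne_zero h6
    refine ⟨c, f y • n, (f y)⁻¹ • f, ?_, ?_⟩
    · show (f y)⁻¹ * f y = 1
      exact inv_mul_cancel₀ hf
    · rw [h]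
      congr 1
      ext z
      show f z • n = ((f y)⁻¹ * f z) • f y • n
      rw [smul_smul, mul_comm (f y)⁻¹, mul_assoc, inv_mul_cancel₀ hf, mul_one]
  have hval : ∀ U ∈ ℓ, ∀ (c : ℂ) (n : X) (f : X →L[ℂ] ℂ), f y = 1 →
      U = c • (1 : X →L[ℂ] X) + ten n f → ∀ z, z ∉ Submodule.span ℂ {y, A y, B y} →
      ∀ μ : ℂ, U z - μ • U y ∈ Submodule.span ℂ {y, z} → f z = μ := by
    intro U hU c n f hf h z hz μ hμ
    have e1 : (f z - μ) • U y ∈ Submodule.span ℂ ({y, z} : Set X) := by
      have happ : ∀ x, U x = c • x + f x • n := fun x => by rw [h]; rfl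
      have e2 : (f z - μ) • U y = (U z - μ • U y) + (f z * c) • y - c • z := by
        rw [happ z, happ y, hf]
        module
      rw [e2]
      exact Submodule.sub_mem _ (Submodule.add_mem _ hμ
        (Submodule.smul_mem _ _ (Submodule.subset_span (by simp))))
        (Submodule.smul_mem _ _ (Submodule.subset_span (by simp)))
    exact sub_eq_zero.1 (za_i he hℓ hA hB hy hU hz e1)
  obtain ⟨cA, nA, f, hf, hAf⟩ := hnorm A hA
  have hf0 : f ≠ 0 := by
    rintro rfl
    exact zero_ne_one hf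
  refine ⟨f, hf0, fun U hU => ?_⟩
  obtain ⟨c, n, g, hg, hUg⟩ := hnorm U hU
  have key : ∀ z, z ∉ Submodule.span ℂ {y, A y, B y} → g z = f z := by
    intro z hz
    obtain ⟨μ, hμ⟩ := za_lam he hℓ hA hB hy hz
    rw [hval U hU c n g hg hUg z hz μ (hμ U hU), hval A hA cA nA f hf hAf z hz μ (hμ A hA)]
  obtain ⟨z0, hz0⟩ := exists_notMem3 h5 y (A y) (B y)
  have hall : ∀ z, g z = f z := by
    intro z
    by_cases hz : z ∈ Submodule.span ℂ {y, A y, B y}
    · have hz1 : z + z0 ∉ Submodule.span ℂ {y, A y, B y} := by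
        intro h
        apply hz0
        have h1 := Submodule.sub_mem _ h hz
        rwa [add_sub_cancel_left] at h1
      have h1 := key _ hz1
      rw [map_add, map_add, key _ hz0] at h1
      exact add_right_cancel h1
    · exact key z hz
  have hgf : g = f := ContinuousLinearMap.ext hall
  rw [hgf] at hUg
  exact ⟨c, n, hUg⟩

end Pool.Agent.H.MP_bb4c62_an.JM
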