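import Pool.Agent.H.MP_bb4c62_an.JM.FamA
import Pool.Agent.H.MP_bb4c62_an.JM.Lld
import Pool.Agent.H.MP_bb4c62_an.helper6.NLine1

/-!
# Module JM/Fam: first facts on H-lines

`hl_fun`: `gen` and `prp_one`. `hl_span`: `hl_fun` and Hahn-Banach (`exists_sep_sub` in helper6/NLine1, finitely
generated submodules). `hl_meet1`, `hl_meet2`: `meet`, `prp_one`, `prp_two`.
`hl_li`: if `y, A y, B y` are independent for members `A, B`, then `y, U y, V y` are independent for all members with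
`¬ Par e U V`: the span of `y, U y, V y` contains the three independent vectors `y, A y, B y` (`hl_span`).
`hl_li1`: `¬ Par e A U` or `¬ Par e B U` (otherwise `Par e A B` or `U` is trivial), then `hl_li`.
`par_symm`: if `Par e A B`, `B` not trivial then `Par e B A`.
-/

namespace Pool.Agent.H.MP_bb4c62_an.JM

open Pool.Agent.H.MP_bb4c62_an.helper6.NL
open Pool.Agent.H.MP_bb4c62_an.helper6.Perturb
open Pool.Agent.H.MP_bb4c62_an.helper6.Gadgets

variable {X : Type*} [NormedAddCommGroup X] [NormedSpace ℂ X]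

section Fix

variable [CompleteSpace X] {e : ℂ} (he : Sg e) {ℓ : Set (X →L[ℂ] X)} (hℓ : HLine e ℓ)

include he hℓ

theorem hl_fun {A B C : X →L[ℂ] X} (hA : A ∈ ℓ) (hB : B ∈ ℓ) (hAB : ¬ Par e A B)
    (hC : C ∈ ℓ) {y : X} {g : X →L[ℂ] ℂ} (h0 : g y = 0) (h1 : g (A y) = 0) (h2 : g (B y) = 0) :
    g (C y) = 0 := by
  have hd : Dep e A B C := ((hℓ.gen A hA B hB hAB C).1 hC).2
  exact (prp_one he h0).1 (hd _ ((prp_one he h0).2 h1) ((prp_one he h0).2 h2))

theorem hl_span {A B C : X →L[ℂ] X} (hA : A ∈ ℓ) (hB : B ∈ ℓ) (hAB : ¬ Par e A B)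
    (hC : C ∈ ℓ) (y : X) : C y ∈ Submodule.span ℂ {y, A y, B y} := by
  by_contra hcon
  have hfg : (Submodule.span ℂ ({y, A y, B y} : Set X)).FG :=
    Submodule.fg_span (by
      exact (Set.finite_singleton (B y)).insert (A y) |>.insert y)
  obtain ⟨k, hk0, hk1⟩ := exists_sep_sub hfg hcon
  have h := hl_fun he hℓ hA hB hAB hC (g := k) (hk0 y (Submodule.subset_span (by simp)))
    (hk0 (A y) (Submodule.subset_span (by simp))) (hk0 (B y) (Submodule.subset_span (by simp)))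
  rw [h] at hk1
  exact zero_ne_one hk1

theorem hl_meet1 {y : X} {g : X →L[ℂ] ℂ} (h0 : g y = 0) : ∃ U ∈ ℓ, g (U y) = 0 := by
  obtain ⟨U, hU, h⟩ := hℓ.meet (ten y g)
  exact ⟨U, hU, (prp_one he h0).1 h⟩

theorem hl_meet2 {y z : X} {g g' : X →L[ℂ] ℂ} (hyz : LinearIndependent ℂ ![y, z])
    (h1 : g y = 0) (h2 : g z = 0) (h3 : g' y = 0) (h4 : g' z = 0) :
    ∃ U ∈ ℓ, g (U y) + g' (U z) = 0 ∧ g (U y) * g' (U z) - g (U z) * g' (U y) = 0 := by
  obtain ⟨U, hU, h⟩ := hℓ.meet (ten y g + ten z g')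
  exact ⟨U, hU, (prp_two he hyz h1 h2 h3 h4).1 h⟩

theorem hl_li {A B : X →L[ℂ] X} (hA : A ∈ ℓ) (hB : B ∈ ℓ) {y : X}
    (hy : LinearIndependent ℂ ![y, A y, B y]) {U V : X →L[ℂ] X} (hU : U ∈ ℓ) (hV : V ∈ ℓ)
    (hUV : ¬ Par e U V) : LinearIndependent ℂ ![y, U y, V y] := by
  rw [linearIndependent_iff_card_le_finrank_span]
  have hr : Set.range ![y, U y, V y] = {y, U y, V y} := by
    rw [Matrix.range_cons, Matrix.range_cons, Matrix.range_cons, Matrix.range_empty,
      Set.union_empty]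
    rfl
  have hle : Submodule.span ℂ (Set.range ![y, A y, B y]) ≤
      Submodule.span ℂ (Set.range ![y, U y, V y]) := by
    rw [Submodule.span_le]
    rintro _ ⟨i, rfl⟩
    rw [hr]
    fin_cases i
    · exact Submodule.subset_span (by simp)
    · exact hl_span he hℓ hU hV hUV hA y
    · exact hl_span he hℓ hU hV hUV hB y
  have hfd : FiniteDimensional ℂ (Submodule.span ℂ (Set.range ![y, U y, V y])) :=
    FiniteDimensional.span_of_finite ℂ (Set.finite_range _)
  have h3 := linearIndependent_iff_card_le_finrank_span.1 hy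
  exact h3.trans (Submodule.finrank_mono hle)

theorem hl_li1 {A B : X →L[ℂ] X} (hA : A ∈ ℓ) (hB : B ∈ ℓ) {y : X}
    (hy : LinearIndependent ℂ ![y, A y, B y]) {U : X →L[ℂ] X} (hU : U ∈ ℓ) :
    LinearIndependent ℂ ![y, U y] := by
  have key : ∀ C : X →L[ℂ] X, C ∈ ℓ → ¬ Par e C U → LinearIndependent ℂ ![y, U y] := by
    intro C hC hCU
    have h := hl_li he hℓ hA hB hy hC hU hCU
    have h2 := h.comp ![0, 2] (by
      intro i j hij
      fin_cases i <;> fin_cases j <;> simp_all)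
    have h3 : (![y, C y, U y] ∘ ![0, 2] : Fin 2 → X) = ![y, U y] := by
      funext i
      fin_cases i <;> rfl
    rw [h3] at h2
    exact h2
  by_cases h1 : Par e A U
  · by_cases h2 : Par e B U
    · exact absurd (par_trans h1 (par_symm (hl_nt hℓ hU) h2)) (not_par_of_li hy)
    · exact key B hB h2
  · exact key A hA h1

end Fix

end Pool.Agent.H.MP_bb4c62_an.JM
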