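import Pool.Agent.H.MP_bb4c62_an.JM.JTest
import Pool.Agent.H.MP_bb4c62_an.JM.Fam
import Pool.Agent.H.MP_bb4c62_an.QP.HLine

/-!
# Module JM/Char: proportionality in terms of the relation

`triv_char`: (⟸) `prp_one`: `g y = 0` implies `g (T y) = 0`, so `T` is locally a scalar, a scalar `s`; for `e = 1` use `S = 1`:
`2 s` quasinilpotent, `s = 0` (`qn_eig`). `par_char`: (⟸) `par_dep` in JM/Fam. (⟹) `prp_one`: `g y = g (T y) = 0` imply
`g (S y) = 0`, so `S y ∈ span {y, T y}` (`HLine_mem`), `lld`: `S = c T + s`. For `e = 1`: if `T` is not a scalar,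
`jordan_test`. If `T = t`: `S = s'` is a scalar; `t ≠ 0`: `S = (s' / t) T`; `t = 0`: take `R = 1`: `s' = 0`.
-/

namespace Pool.Agent.H.MP_bb4c62_an.JM

open Pool.Agent.H.MP_bb4c62_an.helper6.NL
open Pool.Agent.H.MP_bb4c62_an.helper6.Perturb
open Pool.Agent.H.MP_bb4c62_an.helper6.Gadgets

variable {X : Type*} [NormedAddCommGroup X] [NormedSpace ℂ X]

theorem Char_ne (h5 : Dim4 X) : ∃ y : X, y ≠ 0 := by
  obtain ⟨v, hv⟩ := h5
  exact ⟨v 0, hv.ne_zero 0⟩

/-- a scalar with quasinilpotent Jordan product with `1` is `0` -/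
theorem Char_two [CompleteSpace X] (h5 : Dim4 X) {c : ℂ}
    (h : Prp 1 (c • (1 : X →L[ℂ] X)) 1) : c = 0 := by
  obtain ⟨y, hy⟩ := Char_ne h5
  have h1 : (c • (1 : X →L[ℂ] X) * 1 + (1 : ℂ) • (1 * c • (1 : X →L[ℂ] X))) y = (2 * c) • y := by
    show c • y + (1 : ℂ) • (c • y) = (2 * c) • y
    module
  have h2 := qn_eig h hy h1
  have h3 : (2 : ℂ) ≠ 0 := two_ne_zero
  exact (mul_eq_zero.mp h2).resolve_left h3

theorem Char_scalar [CompleteSpace X] {e s : ℂ} (hs : Sc e s) (R : X →L[ℂ] X) :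
    Prp e (s • (1 : X →L[ℂ] X)) R := by
  have h0 : s • (1 : X →L[ℂ] X) * R + e • (R * s • (1 : X →L[ℂ] X)) = 0 := by
    rw [smul_mul_assoc, mul_smul_comm, one_mul, mul_one]
    rcases hs with rfl | rfl
    · rw [neg_one_smul, add_neg_cancel]
    · rw [zero_smul, smul_zero, add_zero]
  unfold Prp
  rw [h0]
  refine (qn_iff 0).mpr fun z => ?_
  rw [smul_zero, sub_zero]
  exact isUnit_one

theorem Char_ext {T S : X →L[ℂ] X} {c s : ℂ} (h : ∀ y, S y = c • T y + s • y) :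
    S = c • T + s • (1 : X →L[ℂ] X) := by
  ext y
  exact h y

theorem triv_char [CompleteSpace X] {e : ℂ} (he : Sg e) (h5 : Dim4 X) (T : X →L[ℂ] X) :
    (∀ R, Prp e T R) ↔ Triv e T := by
  constructor
  · intro h
    have h1 : ∀ y, ∃ c : ℂ, (T : X →ₗ[ℂ] X) y = c • (LinearMap.id : X →ₗ[ℂ] X) y := by
      intro y
      have h2 : T y ∈ Submodule.span ℂ {y, (0 : X)} := QP.HLine_mem fun g hg _ =>
        (prp_one he hg).1 (h (ten y g))
      obtain ⟨a, b, hab⟩ := Submodule.mem_span_pair.mp h2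
      refine ⟨a, ?_⟩
      rw [smul_zero, add_zero] at hab
      exact hab.symm
    obtain ⟨c, hc⟩ := QP.mul_of_local _ _ h1
    have hT : T = c • (1 : X →L[ℂ] X) := by
      ext y
      exact hc y
    rcases he with rfl | rfl
    · have h3 := h 1
      rw [hT] at h3
      have h4 := Char_two h5 h3
      exact ⟨c, Or.inr h4, hT⟩
    · exact ⟨c, Or.inl rfl, hT⟩
  · rintro ⟨s, hs, rfl⟩ R
    exact Char_scalar hs R

theorem par_char [CompleteSpace X] {e : ℂ} (he : Sg e) (h5 : Dim4 X) (T S : X →L[ℂ] X) :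
    (∀ R, Prp e T R → Prp e S R) ↔ Par e T S := by
  constructor
  · intro h
    have h1 : ∀ y, ∃ a b : ℂ, (S : X →ₗ[ℂ] X) y = a • y + b • (T : X →ₗ[ℂ] X) y := by
      intro y
      have h2 : S y ∈ Submodule.span ℂ {y, T y} := QP.HLine_mem fun g hg hg' =>
        (prp_one he hg).1 (h (ten y g) ((prp_one he hg).2 hg'))
      obtain ⟨a, b, hab⟩ := Submodule.mem_span_pair.mp h2
      exact ⟨a, b, hab.symm⟩
    obtain ⟨c, s, hcs⟩ := lld h5 _ _ h1
    have hS : S = c • T + s • (1 : X →L[ℂ] X) := Char_ext hcs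
    rcases he with rfl | rfl
    · by_cases hT : ∃ t : ℂ, T = t • (1 : X →L[ℂ] X)
      · obtain ⟨t, rfl⟩ := hT
        have hS' : S = (c * t + s) • (1 : X →L[ℂ] X) := by
          rw [hS, smul_smul, ← add_smul]
        by_cases ht : t = 0
        · subst ht
          have h3 : Prp 1 S 1 := h 1 (Char_scalar (Or.inr rfl) 1)
          rw [hS'] at h3
          have h4 := Char_two h5 h3
          refine ⟨0, 0, Or.inr rfl, ?_⟩
          rw [hS', h4, zero_smul, zero_smul, add_zero]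
        · refine ⟨(c * t + s) / t, 0, Or.inr rfl, ?_⟩
          rw [hS', zero_smul, add_zero, smul_smul, div_mul_cancel₀ _ ht]
      · obtain ⟨R, hR1, -, -, hR2⟩ := jordan_test h5 (exists_li_of_not_scalar hT)
        have h3 : Prp 1 S R := h R hR1
        rw [hS] at h3
        exact ⟨c, s, Or.inr (hR2 c s h3), hS⟩
    · exact ⟨c, s, Or.inl rfl, hS⟩
  · intro h R hR
    exact par_dep h hR

end Pool.Agent.H.MP_bb4c62_an.JM
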