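import Pool.Agent.H.MP_bb4c62_an.JM.Basic

/-!
# Module JM/Conv: the converse (compare `pres_of_form` in QP/Main)

`Sc e (d T)`: by `prp_add` and `prp_symm` one may drop the scalars, by `prp_smul` the factors. First type: the operator
`φ T φ R + e φ R φ T` (without scalars) is the conjugate of `T R + e R T` under `S` (with `τ` applied to the
coefficient `e`, and `τ e = e` because `e = 1` or `e = -1`): `conj_qn_semi` in helper10/NSemi as in `pres_of_form`. Second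
type: conjugate of the adjoint of `T R + e R T` up to the factor `e`.
-/

namespace Pool.Agent.H.MP_bb4c62_an.JM

open Pool.Agent.H.MP_bb4c62_an.helper6.NL
open Pool.Agent.H.MP_bb4c62_an.helper6.Perturb
open Pool.Agent.H.MP_bb4c62_an.helper6.Gadgets

variable {X : Type*} [NormedAddCommGroup X] [NormedSpace ℂ X]
variable {Y : Type*} [NormedAddCommGroup Y] [NormedSpace ℂ Y]

theorem Conv_map {e : ℂ} (he : Sg e) (τ : ℂ ≃+* ℂ) : τ e = e := by
  rcases he with rfl | rfl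
  · exact map_one τ
  · rw [map_neg, map_one]

/-- first type -/
theorem conj_one [CompleteSpace X] [CompleteSpace Y] {e : ℂ} (he : Sg e) {τ : ℂ ≃+* ℂ}
    {S : X ≃+ Y} (hS : Adm τ S) {T R : X →L[ℂ] X} {T' R' : Y →L[ℂ] Y}
    (hT : ∀ x, T' (S x) = S (T x)) (hR : ∀ x, R' (S x) = S (R x)) :
    Prp e T' R' ↔ Prp e T R := by
  unfold Prp
  refine qn_of_adm hS one_ne_zero fun x => ?_
  show T' (R' (S x)) + e • R' (T' (S x)) = (1 : ℂ) • S (T (R x) + e • R (T x))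
  rw [hR, hT, hT, hR, one_smul, map_add, hS.1, Conv_map he]

/-- second type -/
theorem conj_two [CompleteSpace X] [CompleteSpace Y] {e : ℂ} (he : Sg e) {τ : ℂ ≃+* ℂ}
    {S : (X →L[ℂ] ℂ) ≃+ Y} (hS : Adm τ S) {T R : X →L[ℂ] X} {T' R' : Y →L[ℂ] Y}
    (hT : ∀ f : X →L[ℂ] ℂ, T' (S f) = S (f.comp T))
    (hR : ∀ f : X →L[ℂ] ℂ, R' (S f) = S (f.comp R)) : Prp e T' R' ↔ Prp e T R := by
  rw [prp_symm he (T := T) (S := R)]
  unfold Prp
  refine Iff.trans ?_ (qn_adj_iff (T := R * T + e • (T * R)))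
  refine qn_of_adm hS one_ne_zero fun f => ?_
  show T' (R' (S f)) + e • R' (T' (S f)) = (1 : ℂ) • S (f.comp (R * T + e • (T * R)))
  have h1 : f.comp (R * T + e • (T * R)) = (f.comp R).comp T + e • (f.comp T).comp R := by
    ext x
    show f (R (T x) + e • T (R x)) = f (R (T x)) + e • f (T (R x))
    rw [map_add, map_smul]
  rw [hR, hT, hT, hR, one_smul, h1, map_add, hS.1, Conv_map he]

theorem Conv_red [CompleteSpace Y] {e c d : ℂ} (hc : c ≠ 0) (hd : Sc e d) {T S : Y →L[ℂ] Y} :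
    Prp e (c • T + d • (1 : Y →L[ℂ] Y)) S ↔ Prp e T S := by
  rw [prp_add hd]
  constructor
  · intro h
    have h1 := prp_smul h c⁻¹
    rwa [smul_smul, inv_mul_cancel₀ hc, one_smul] at h1
  · exact fun h => prp_smul h c

/-- removing the scalars -/
theorem Conv_norm {c d : ℂ} (hc : c ≠ 0) (T : Y →L[ℂ] Y) :
    T = c • (c⁻¹ • (T - d • (1 : Y →L[ℂ] Y))) + d • (1 : Y →L[ℂ] Y) := by
  rw [smul_smul, mul_inv_cancel₀ hc, one_smul, sub_add_cancel]

theorem pres_of_form [CompleteSpace X] [CompleteSpace Y] {e : ℂ} (he : Sg e)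
    {φ : (X →L[ℂ] X) → (Y →L[ℂ] Y)} (h : Form e φ) (T R : X →L[ℂ] X) :
    Prp e (φ T) (φ R) ↔ Prp e T R := by
  obtain ⟨c, d, hc, hd, h⟩ := h
  have key : Prp e (φ T) (φ R) ↔ Prp e ((c T)⁻¹ • (φ T - d T • (1 : Y →L[ℂ] Y)))
      ((c R)⁻¹ • (φ R - d R • (1 : Y →L[ℂ] Y))) := by
    have h1 : Prp e (φ T) (φ R) ↔
        Prp e ((c T)⁻¹ • (φ T - d T • (1 : Y →L[ℂ] Y))) (φ R) := by
      have h2 := Conv_red (T := (c T)⁻¹ • (φ T - d T • (1 : Y →L[ℂ] Y))) (S := φ R) (hc T) (hd T)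
      rwa [← Conv_norm (hc T)] at h2
    have h3 : Prp e (φ R) ((c T)⁻¹ • (φ T - d T • (1 : Y →L[ℂ] Y))) ↔
        Prp e ((c R)⁻¹ • (φ R - d R • (1 : Y →L[ℂ] Y)))
          ((c T)⁻¹ • (φ T - d T • (1 : Y →L[ℂ] Y))) := by
      have h2 := Conv_red (T := (c R)⁻¹ • (φ R - d R • (1 : Y →L[ℂ] Y)))
        (S := (c T)⁻¹ • (φ T - d T • (1 : Y →L[ℂ] Y))) (hc R) (hd R)
      rwa [← Conv_norm (hc R)] at h2
    rw [h1, prp_symm he, h3, prp_symm he]
  rw [key]
  rcases h with ⟨τ, S, hS, h4⟩ | ⟨τ, S, hS, h4⟩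
  · have h5 : ∀ (A : X →L[ℂ] X) (x : X),
        ((c A)⁻¹ • (φ A - d A • (1 : Y →L[ℂ] Y))) (S x) = S (A x) := by
      intro A x
      show (c A)⁻¹ • (φ A (S x) - d A • S x) = S (A x)
      rw [h4, add_sub_cancel_right, smul_smul, inv_mul_cancel₀ (hc A), one_smul]
    exact conj_one he hS (h5 T) (h5 R)
  · have h5 : ∀ (A : X →L[ℂ] X) (f : X →L[ℂ] ℂ),
        ((c A)⁻¹ • (φ A - d A • (1 : Y →L[ℂ] Y))) (S f) = S (f.comp A) := by
      intro A f
      show (c A)⁻¹ • (φ A (S f) - d A • S f) = S (f.comp A)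
      rw [h4, add_sub_cancel_right, smul_smul, inv_mul_cancel₀ (hc A), one_smul]
    exact conj_two he hS (h5 T) (h5 R)

end Pool.Agent.H.MP_bb4c62_an.JM
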