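import Pool.Agent.H.MP_bb4c62_an.JM.Trans
import Pool.Agent.H.MP_bb4c62_an.QP.Main

/-!
# Module JM/Flags: the two types (compare QP/Types)

For `x ≠ 0`, `f ≠ 0`, `f x = 0`: `φ (ten x f) = s + ten y g` with `Sc e s`, `g y = 0`, `y ≠ 0`, `g ≠ 0` (`Pres.nadj` with a partner).
Rows (`x` fixed, `f` in the annihilator of `x`) have a common range or a common kernel (`rank_one_family`), columns too;
for every flag `(x, f)` the row of `x` and the column of `f` have opposite types (otherwise `(x, f')`, `(x', f)` would be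
adjacent); two vectors are annihilated by a common functional, so all rows have the same type.
-/

namespace Pool.Agent.H.MP_bb4c62_an.JM

open Pool.Agent.H.MP_bb4c62_an.helper6.NL
open Pool.Agent.H.MP_bb4c62_an.helper6.Perturb
open Pool.Agent.H.MP_bb4c62_an.helper6.Gadgets
open Pool.Agent.H.MP_bb4c62_an.QP (Adj)

variable {X : Type*} [NormedAddCommGroup X] [NormedSpace ℂ X]
variable {Y : Type*} [NormedAddCommGroup Y] [NormedSpace ℂ Y]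

/-- three linear functionals have a common non-zero kernel vector -/
theorem Flags_ker3 {E : Type*} [AddCommGroup E] [Module ℂ E] (h : Dim4 E)
    (L : Fin 3 → E →ₗ[ℂ] ℂ) : ∃ z, z ≠ 0 ∧ ∀ i, L i z = 0 := by
  obtain ⟨v, hv⟩ := h
  have hlt : Module.finrank ℂ (Fin 3 → ℂ) < Module.finrank ℂ (Fin 4 → ℂ) := by
    rw [Module.finrank_fin_fun, Module.finrank_fin_fun]
    norm_num
  have h1 := LinearMap.ker_ne_bot_of_finrank_lt
    (f := LinearMap.pi (fun i => (L i) ∘ₗ (Fintype.linearCombination ℂ v))) hlt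
  obtain ⟨t, ht, ht0⟩ := (Submodule.ne_bot_iff _).mp h1
  refine ⟨Fintype.linearCombination ℂ v t, ?_, fun i => ?_⟩
  · intro h2
    apply ht0
    rw [Fintype.linearCombination_apply] at h2
    funext i
    exact Fintype.linearIndependent_iff.mp hv t h2 i
  · exact congrFun (LinearMap.mem_ker.mp ht) i

theorem Flags_dual [CompleteSpace X] (h : Dim4 X) : Dim4 (X →L[ℂ] ℂ) := by
  obtain ⟨v, hv⟩ := h
  exact QP.Main_dual hv

/-- a vector in the kernels of `f`, `g`, not a multiple of `x` -/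
theorem Flags_vec (h : Dim4 X) (f g : X →L[ℂ] ℂ) (x : X) :
    ∃ z, z ≠ 0 ∧ f z = 0 ∧ g z = 0 ∧ ¬ ∃ c : ℂ, z = c • x := by
  obtain ⟨η, hη⟩ : ∃ η : X →L[ℂ] ℂ, x ≠ 0 → η x = 1 := by
    by_cases hx : x = 0
    · exact ⟨0, fun h => (h hx).elim⟩
    · obtain ⟨η, hη⟩ := SeparatingDual.exists_eq_one (R := ℂ) hx
      exact ⟨η, fun _ => hη⟩
  obtain ⟨z, hz, h1⟩ := Flags_ker3 h ![(f : X →ₗ[ℂ] ℂ), (g : X →ₗ[ℂ] ℂ), (η : X →ₗ[ℂ] ℂ)]
  have h2 : η z = 0 := h1 2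
  refine ⟨z, hz, h1 0, h1 1, ?_⟩
  rintro ⟨c, hc⟩
  by_cases hx : x = 0
  · rw [hx, smul_zero] at hc
    exact hz hc
  · rw [hc, map_smul, hη hx, smul_eq_mul, mul_one] at h2
    rw [h2, zero_smul] at hc
    exact hz hc

/-- a functional which vanishes in `x`, `y`, not a multiple of `f` -/
theorem Flags_fun [CompleteSpace X] (h : Dim4 X) (x y : X) (f : X →L[ℂ] ℂ) :
    ∃ g : X →L[ℂ] ℂ, g ≠ 0 ∧ g x = 0 ∧ g y = 0 ∧ ¬ ∃ c : ℂ, g = c • f := by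
  obtain ⟨w, hw⟩ : ∃ w : X, f ≠ 0 → f w = 1 := by
    by_cases hf : f = 0
    · exact ⟨0, fun h => (h hf).elim⟩
    · obtain ⟨w, hw⟩ := exists_ap hf
      exact ⟨w, fun _ => hw⟩
  obtain ⟨g, hg, h1⟩ := Flags_ker3 (Flags_dual h) ![QP.ev X x, QP.ev X y, QP.ev X w]
  have h2 : g w = 0 := h1 2
  refine ⟨g, hg, h1 0, h1 1, ?_⟩
  rintro ⟨c, hc⟩
  by_cases hf : f = 0
  · apply hg
    rw [hc, hf]
    ext v
    exact mul_zero c
  · have h3 : c * f w = 0 := by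
      rw [hc] at h2
      exact h2
    rw [hw hf, mul_one] at h3
    apply hg
    rw [hc, h3]
    ext v
    exact zero_mul _

/-- scalar plus rank one: the two parts are unique -/
theorem Flags_uniq (hY : Dim4 Y) {a b : ℂ} {y y' : Y} {g g' : Y →L[ℂ] ℂ}
    (h : a • (1 : Y →L[ℂ] Y) + ten y g = b • (1 : Y →L[ℂ] Y) + ten y' g') :
    a = b ∧ ten y g = ten y' g' := by
  obtain ⟨z, hz, h1, h2, -⟩ := Flags_vec hY g g' 0
  have h3 : a • z + g z • y = b • z + g' z • y' := by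
    have h4 := congrArg (fun V : Y →L[ℂ] Y => V z) h
    exact h4
  rw [h1, h2, zero_smul, zero_smul, add_zero, add_zero] at h3
  have hab : a = b := smul_left_injective ℂ hz h3
  refine ⟨hab, ?_⟩
  rw [hab] at h
  exact add_left_cancel h

theorem Flags_sub {A B : Y →L[ℂ] Y} (h : Adj A B) :
    ∃ (y : Y) (g : Y →L[ℂ] ℂ), A - B = ten y g := by
  rcases h with ⟨w, f, g, hA, hB⟩ | ⟨w, z, f, hA, hB⟩
  · refine ⟨w, f - g, ?_⟩
    rw [hA, hB]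
    ext v
    show f v • w - g v • w = (f v - g v) • w
    rw [sub_smul]
  · refine ⟨w - z, f, ?_⟩
    rw [hA, hB]
    ext v
    show f v • w - f v • z = f v • (w - z)
    rw [smul_sub]

/-- two presentations of one operator of rank one -/
theorem Flags_two {y y' : Y} {g g' : Y →L[ℂ] ℂ} (h : ten y g = ten y' g')
    (h0 : ten y g ≠ 0) : (∃ c : ℂ, c ≠ 0 ∧ y' = c • y) ∧ (∃ c : ℂ, c ≠ 0 ∧ g' = c • g) := by
  have hy : y ≠ 0 := by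
    rintro rfl
    exact h0 (ten_eq_zero_iff.mpr (Or.inl rfl))
  have hg : g ≠ 0 := by
    rintro rfl
    exact h0 (ten_eq_zero_iff.mpr (Or.inr rfl))
  have h0' : ten y' g' ≠ 0 := by rw [← h]; exact h0
  have hy' : y' ≠ 0 := by
    rintro rfl
    exact h0' (ten_eq_zero_iff.mpr (Or.inl rfl))
  have hg' : g' ≠ 0 := by
    rintro rfl
    exact h0' (ten_eq_zero_iff.mpr (Or.inr rfl))
  have hv : ∀ v, g v • y = g' v • y' := by
    intro v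
    have h1 : ten y g v = ten y' g' v := by rw [h]
    exact h1
  obtain ⟨v, hv'⟩ : ∃ v, g' v ≠ 0 := by
    by_contra hcon
    push Not at hcon
    exact hg' (by ext v; exact hcon v)
  have h1 : y' = ((g' v)⁻¹ * g v) • y := by
    rw [mul_smul, hv v, smul_smul, inv_mul_cancel₀ hv', one_smul]
  set a : ℂ := (g' v)⁻¹ * g v with ha
  have ha0 : a ≠ 0 := by
    intro h2
    rw [h2, zero_smul] at h1
    exact hy' h1
  refine ⟨⟨a, ha0, h1⟩, a⁻¹, inv_ne_zero ha0, ?_⟩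
  ext w
  have h2 := hv w
  rw [h1, smul_smul] at h2
  have h3 : g w = g' w * a := smul_left_injective ℂ hy h2
  show g' w = a⁻¹ * g w
  rw [h3, mul_comm (g' w) a, ← mul_assoc, inv_mul_cancel₀ ha0, one_mul]

/-- one row: common range or common kernel -/
theorem Flags_row {E : Type*} [AddCommGroup E] [Module ℂ E] [Nontrivial Y] (P : E → Prop)
    (F : E → (Y →L[ℂ] Y))
    (hadj : ∀ f f', P f → P f' → f ≠ 0 → f' ≠ 0 → (¬ ∃ c : ℂ, f' = c • f) → Adj (F f) (F f'))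
    (hpar : ∀ f (c : ℂ), P f → f ≠ 0 → c ≠ 0 → ∃ d : ℂ, F (c • f) = d • F f)
    (hex : ∀ f : E, P f → f ≠ 0 → ∃ f', P f' ∧ f' ≠ 0 ∧ ¬ ∃ c : ℂ, f' = c • f) :
    (∃ y : Y, y ≠ 0 ∧ ∀ f, P f → f ≠ 0 → ∃ g : Y →L[ℂ] ℂ, F f = ten y g) ∨
    (∃ g : Y →L[ℂ] ℂ, g ≠ 0 ∧ ∀ f, P f → f ≠ 0 → ∃ y : Y, F f = ten y g) := by
  have hten : ∀ f, P f → f ≠ 0 → ∃ (y : Y) (g : Y →L[ℂ] ℂ), F f = ten y g := by
    intro f hP hf
    obtain ⟨f', hP', hf', hff'⟩ := hex f hP hf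
    rcases hadj f f' hP hP' hf hf' hff' with ⟨w, a, b, hA, hB⟩ | ⟨w, z, a, hA, hB⟩
    · exact ⟨w, a, hA⟩
    · exact ⟨w, a, hA⟩
  have key := rank_one_family (I := {f : E // P f ∧ f ≠ 0}) (fun f => F f.1)
    (fun f => hten f.1 f.2.1 f.2.2) (by
      rintro ⟨f, hP, hf⟩ ⟨f', hP', hf'⟩
      show ∃ (y : Y) (g : Y →L[ℂ] ℂ), F f - F f' = ten y g
      by_cases hc : ∃ c : ℂ, f' = c • f
      · obtain ⟨c, hc⟩ := hc
        have hc0 : c ≠ 0 := by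
          rintro rfl
          rw [zero_smul] at hc
          exact hf' hc
        obtain ⟨d, hd⟩ := hpar f c hP hf hc0
        obtain ⟨y, g, hg⟩ := hten f hP hf
        refine ⟨(1 - d) • y, g, ?_⟩
        rw [hc, hd, ten_smul_left, ← hg, sub_smul, one_smul]
      · exact Flags_sub (hadj f f' hP hP' hf hf' hc))
  rcases key with ⟨y, hy, h⟩ | ⟨g, hg, h⟩
  · exact Or.inl ⟨y, hy, fun f hP hf => h ⟨f, hP, hf⟩⟩
  · exact Or.inr ⟨g, hg, fun f hP hf => h ⟨f, hP, hf⟩⟩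

/-- the abstract form of the statement -/
theorem Flags_abs {E E' : Type*} [AddCommGroup E] [Module ℂ E] [AddCommGroup E']
    [Module ℂ E'] [Nontrivial Y] (I : E → E' → Prop) (F : E → E' → (Y →L[ℂ] Y))
    (hne : ∀ x f, x ≠ 0 → f ≠ 0 → I x f → F x f ≠ 0)
    (hadj : ∀ x f f', x ≠ 0 → f ≠ 0 → f' ≠ 0 → I x f → I x f' → (¬ ∃ c : ℂ, f' = c • f) →
      Adj (F x f) (F x f'))
    (hadj' : ∀ x x' f, x ≠ 0 → x' ≠ 0 → f ≠ 0 → I x f → I x' f → (¬ ∃ c : ℂ, x' = c • x) →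
      Adj (F x f) (F x' f))
    (hnadj : ∀ x x' f f', x ≠ 0 → x' ≠ 0 → f ≠ 0 → f' ≠ 0 → I x f' → I x' f →
      (¬ ∃ c : ℂ, x' = c • x) → (¬ ∃ c : ℂ, f' = c • f) → ¬ Adj (F x f') (F x' f))
    (hpar : ∀ x f (c : ℂ), x ≠ 0 → f ≠ 0 → c ≠ 0 → I x f → ∃ d : ℂ, F x (c • f) = d • F x f)
    (hpar' : ∀ x f (c : ℂ), x ≠ 0 → f ≠ 0 → c ≠ 0 → I x f → ∃ d : ℂ, F (c • x) f = d • F x f)
    (hex : ∀ (x : E) (f : E'), ∃ x', x' ≠ 0 ∧ I x' f ∧ ¬ ∃ c : ℂ, x' = c • x)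
    (hex' : ∀ (x : E) (f : E'), ∃ f', f' ≠ 0 ∧ I x f' ∧ ¬ ∃ c : ℂ, f' = c • f)
    (hcom : ∀ x x' : E, ∃ f, f ≠ 0 ∧ I x f ∧ I x' f) :
    (∃ (p : E → Y) (q : E' → (Y →L[ℂ] ℂ)), (∀ x, x ≠ 0 → p x ≠ 0) ∧
      (∀ f, f ≠ 0 → q f ≠ 0) ∧ ∀ x f, x ≠ 0 → f ≠ 0 → I x f →
        ∃ d : ℂ, d ≠ 0 ∧ F x f = d • ten (p x) (q f)) ∨
    (∃ (p : E' → Y) (q : E → (Y →L[ℂ] ℂ)), (∀ f, f ≠ 0 → p f ≠ 0) ∧
      (∀ x, x ≠ 0 → q x ≠ 0) ∧ ∀ x f, x ≠ 0 → f ≠ 0 → I x f →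
        ∃ d : ℂ, d ≠ 0 ∧ F x f = d • ten (p f) (q x)) := by
  have hrow : ∀ x, x ≠ 0 →
      ((∃ y : Y, y ≠ 0 ∧ ∀ f, I x f → f ≠ 0 → ∃ g : Y →L[ℂ] ℂ, F x f = ten y g) ∨
      (∃ g : Y →L[ℂ] ℂ, g ≠ 0 ∧ ∀ f, I x f → f ≠ 0 → ∃ y : Y, F x f = ten y g)) := fun x hx =>
    Flags_row (fun f => I x f) (fun f => F x f)
      (fun f f' hP hP' hf hf' hc => hadj x f f' hx hf hf' hP hP' hc)
      (fun f c hP hf hc => hpar x f c hx hf hc hP) (fun f _ _ => by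
        obtain ⟨f', h1, h2, h3⟩ := hex' x f
        exact ⟨f', h2, h1, h3⟩)
  have hcol : ∀ f, f ≠ 0 →
      ((∃ y : Y, y ≠ 0 ∧ ∀ x, I x f → x ≠ 0 → ∃ g : Y →L[ℂ] ℂ, F x f = ten y g) ∨
      (∃ g : Y →L[ℂ] ℂ, g ≠ 0 ∧ ∀ x, I x f → x ≠ 0 → ∃ y : Y, F x f = ten y g)) := fun f hf =>
    Flags_row (fun x => I x f) (fun x => F x f)
      (fun x x' hP hP' hx hx' hc => hadj' x x' f hx hx' hf hP hP' hc)
      (fun x c hP hx hc => hpar' x f c hx hf hc hP) (fun x _ _ => by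
        obtain ⟨x', h1, h2, h3⟩ := hex x f
        exact ⟨x', h2, h1, h3⟩)
  -- a row and a column with common ranges
  have hA : ∀ x f, x ≠ 0 → f ≠ 0 → I x f →
      (∃ y : Y, y ≠ 0 ∧ ∀ f, I x f → f ≠ 0 → ∃ g : Y →L[ℂ] ℂ, F x f = ten y g) →
      (∃ y : Y, y ≠ 0 ∧ ∀ x, I x f → x ≠ 0 → ∃ g : Y →L[ℂ] ℂ, F x f = ten y g) → False := by
    rintro x f hx hf hxf ⟨y, hy, h1⟩ ⟨y', hy', h2⟩
    obtain ⟨x', hx', hI1, hxx'⟩ := hex x f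
    obtain ⟨f', hf', hI2, hff'⟩ := hex' x f
    obtain ⟨g, hg⟩ := h1 f hxf hf
    obtain ⟨g', hg'⟩ := h2 x hxf hx
    obtain ⟨⟨c, hc0, hc⟩, -⟩ := Flags_two (hg.symm.trans hg')
      (by rw [← hg]; exact hne x f hx hf hxf)
    obtain ⟨a, ha⟩ := h1 f' hI2 hf'
    obtain ⟨b, hb⟩ := h2 x' hI1 hx'
    refine hnadj x x' f f' hx hx' hf hf' hI2 hI1 hxx' hff' (Or.inl ⟨y, a, c • b, ha, ?_⟩)
    rw [hb, hc, ten_smul_left, ten_smul_right]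
  -- a row and a column with common kernels
  have hB : ∀ x f, x ≠ 0 → f ≠ 0 → I x f →
      (∃ g : Y →L[ℂ] ℂ, g ≠ 0 ∧ ∀ f, I x f → f ≠ 0 → ∃ y : Y, F x f = ten y g) →
      (∃ g : Y →L[ℂ] ℂ, g ≠ 0 ∧ ∀ x, I x f → x ≠ 0 → ∃ y : Y, F x f = ten y g) → False := by
    rintro x f hx hf hxf ⟨g, hg, h1⟩ ⟨g', hg', h2⟩
    obtain ⟨x', hx', hI1, hxx'⟩ := hex x f
    obtain ⟨f', hf', hI2, hff'⟩ := hex' x f
    obtain ⟨y, hy⟩ := h1 f hxf hf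
    obtain ⟨y', hy'⟩ := h2 x hxf hx
    obtain ⟨-, ⟨c, hc0, hc⟩⟩ := Flags_two (hy.symm.trans hy')
      (by rw [← hy]; exact hne x f hx hf hxf)
    obtain ⟨a, ha⟩ := h1 f' hI2 hf'
    obtain ⟨b, hb⟩ := h2 x' hI1 hx'
    refine hnadj x x' f f' hx hx' hf hf' hI2 hI1 hxx' hff' (Or.inr ⟨a, c • b, g, ha, ?_⟩)
    rw [hb, hc, ten_smul_left, ten_smul_right]
  by_cases hcase : ∃ x, x ≠ 0 ∧
      (∃ y : Y, y ≠ 0 ∧ ∀ f, I x f → f ≠ 0 → ∃ g : Y →L[ℂ] ℂ, F x f = ten y g)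
  · left
    obtain ⟨x0, hx0, hR0⟩ := hcase
    have hR : ∀ x, x ≠ 0 →
        ∃ y : Y, y ≠ 0 ∧ ∀ f, I x f → f ≠ 0 → ∃ g : Y →L[ℂ] ℂ, F x f = ten y g := by
      intro x hx
      obtain ⟨f, hf, h1, h2⟩ := hcom x0 x
      rcases hrow x hx with h | h
      · exact h
      · rcases hcol f hf with h3 | h3
        · exact (hA x0 f hx0 hf h1 hR0 h3).elim
        · exact (hB x f hx hf h2 h h3).elim
    have hK : ∀ f, f ≠ 0 →
        ∃ g : Y →L[ℂ] ℂ, g ≠ 0 ∧ ∀ x, I x f → x ≠ 0 → ∃ y : Y, F x f = ten y g := by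
      intro f hf
      obtain ⟨x, hx, h1, -⟩ := hex 0 f
      rcases hcol f hf with h | h
      · exact (hA x f hx hf h1 (hR x hx) h).elim
      · exact h
    choose! p hp using hR
    choose! q hq using hK
    refine ⟨p, q, fun x hx => (hp x hx).1, fun f hf => (hq f hf).1, fun x f hx hf hxf => ?_⟩
    obtain ⟨g, hg⟩ := (hp x hx).2 f hxf hf
    obtain ⟨y, hy⟩ := (hq f hf).2 x hxf hx
    have h0 : ten y (q f) ≠ 0 := by rw [← hy]; exact hne x f hx hf hxf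
    obtain ⟨-, ⟨c, hc0, hc⟩⟩ := Flags_two (hy.symm.trans hg) h0
    refine ⟨c, hc0, ?_⟩
    rw [hg, hc, ten_smul_right]
  · right
    have hK : ∀ x, x ≠ 0 →
        ∃ g : Y →L[ℂ] ℂ, g ≠ 0 ∧ ∀ f, I x f → f ≠ 0 → ∃ y : Y, F x f = ten y g := by
      intro x hx
      rcases hrow x hx with h | h
      · exact (hcase ⟨x, hx, h⟩).elim
      · exact h
    have hR : ∀ f, f ≠ 0 →
        ∃ y : Y, y ≠ 0 ∧ ∀ x, I x f → x ≠ 0 → ∃ g : Y →L[ℂ] ℂ, F x f = ten y g := by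
      intro f hf
      obtain ⟨x, hx, h1, -⟩ := hex 0 f
      rcases hcol f hf with h | h
      · exact h
      · exact (hB x f hx hf h1 (hK x hx) h).elim
    choose! q hq using hK
    choose! p hp using hR
    refine ⟨p, q, fun f hf => (hp f hf).1, fun x hx => (hq x hx).1, fun x f hx hf hxf => ?_⟩
    obtain ⟨g, hg⟩ := (hp f hf).2 x hxf hx
    obtain ⟨y, hy⟩ := (hq x hx).2 f hxf hf
    have h0 : ten y (q x) ≠ 0 := by rw [← hy]; exact hne x f hx hf hxf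
    obtain ⟨-, ⟨c, hc0, hc⟩⟩ := Flags_two (hy.symm.trans hg) h0
    refine ⟨c, hc0, ?_⟩
    rw [hg, hc, ten_smul_right]

/-- `ten x f` is not an admissible scalar -/
theorem Flags_triv (hX : Dim4 X) {e : ℂ} {x : X} {f : X →L[ℂ] ℂ} (hx : x ≠ 0) (hf : f ≠ 0) :
    ¬ Triv e (ten x f) := by
  rintro ⟨s, -, h⟩
  have h1 : (0 : ℂ) • (1 : X →L[ℂ] X) + ten x f = s • (1 : X →L[ℂ] X) + ten (0 : X) f := by
    rw [zero_smul, zero_add, h, ten_eq_zero_iff.mpr (Or.inl rfl), add_zero]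
  have h2 := (Flags_uniq hX h1).2
  rw [ten_eq_zero_iff.mpr (Or.inl rfl), ten_eq_zero_iff] at h2
  exact h2.elim hx hf

theorem Flags_par (hX : Dim4 X) {e : ℂ} {x x' : X} {f f' : X →L[ℂ] ℂ} (hx' : x' ≠ 0)
    (hf' : f' ≠ 0) (h : Par e (ten x f) (ten x' f')) :
    (∃ c : ℂ, x' = c • x) ∧ ∃ c : ℂ, f' = c • f := by
  obtain ⟨c, s, -, h⟩ := h
  have h1 : (0 : ℂ) • (1 : X →L[ℂ] X) + ten x' f' = s • (1 : X →L[ℂ] X) + ten (c • x) f := by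
    rw [zero_smul, zero_add, h, ten_smul_left, add_comm]
  have h2 := (Flags_uniq hX h1).2
  have h0 : ten x' f' ≠ 0 := by
    rw [Ne, ten_eq_zero_iff, not_or]
    exact ⟨hx', hf'⟩
  obtain ⟨⟨a, ha, ha'⟩, ⟨b, hb, hb'⟩⟩ := Flags_two h2 h0
  refine ⟨⟨a⁻¹ * c, ?_⟩, ⟨b⁻¹, ?_⟩⟩
  · rw [mul_smul, ha', smul_smul, inv_mul_cancel₀ ha, one_smul]
  · rw [hb', smul_smul, inv_mul_cancel₀ hb, one_smul]

theorem Flags_sc (e : ℂ) : Sc e 0 := Or.inr rfl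

theorem Flags_row_adj {e : ℂ} {x : X} {f f' : X →L[ℂ] ℂ} (h : f x = 0) (h' : f' x = 0) :
    NAdj e (ten x f) (ten x f') :=
  Or.inl ⟨0, 0, x, f, f', Flags_sc e, Flags_sc e, h, h', by rw [zero_smul, zero_add],
    by rw [zero_smul, zero_add]⟩

theorem Flags_col_adj {e : ℂ} {x x' : X} {f : X →L[ℂ] ℂ} (h : f x = 0) (h' : f x' = 0) :
    NAdj e (ten x f) (ten x' f) :=
  Or.inr ⟨0, 0, x, x', f, Flags_sc e, Flags_sc e, h, h', by rw [zero_smul, zero_add],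
    by rw [zero_smul, zero_add]⟩

/-- the nilpotent of rank one in the image -/
theorem Flags_image [CompleteSpace X] [CompleteSpace Y] {e : ℂ} (he : Sg e) (hX : Dim4 X)
    (hY : Dim4 Y) {φ : (X →L[ℂ] X) → (Y →L[ℂ] Y)} (h : Pres e φ) {x : X} {f : X →L[ℂ] ℂ}
    (hx : x ≠ 0) (hf : f ≠ 0) (hxf : f x = 0) : ∃ (s : ℂ) (y : Y) (g : Y →L[ℂ] ℂ), Sc e s ∧
      g y = 0 ∧ y ≠ 0 ∧ g ≠ 0 ∧ φ (ten x f) = s • (1 : Y →L[ℂ] Y) + ten y g := by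
  obtain ⟨f', hf', h1, -, h2⟩ := Flags_fun hX x 0 f
  have h3 := (h.nadj he hX hY (Flags_triv hX hx hf) (Flags_triv hX hx hf')
    (fun h4 => h2 (Flags_par hX hx hf' h4).2)).mpr (Flags_row_adj hxf h1)
  have key : ∀ (a : ℂ) (w : Y) (g : Y →L[ℂ] ℂ), Sc e a → g w = 0 →
      φ (ten x f) = a • (1 : Y →L[ℂ] Y) + ten w g → ∃ (s : ℂ) (y : Y) (g : Y →L[ℂ] ℂ), Sc e s ∧
      g y = 0 ∧ y ≠ 0 ∧ g ≠ 0 ∧ φ (ten x f) = s • (1 : Y →L[ℂ] Y) + ten y g := by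
    intro a w g ha hw h4
    have h5 : ten w g ≠ 0 := by
      intro h6
      apply Flags_triv (e := e) hX hx hf
      rw [← h.triv_iff he hX hY]
      exact ⟨a, ha, by rw [h4, h6, add_zero]⟩
    rw [Ne, ten_eq_zero_iff, not_or] at h5
    exact ⟨a, w, g, ha, hw, h5.1, h5.2, h4⟩
  rcases h3 with ⟨a, b, w, g, g', ha, hb, hg, hg', h4, h5⟩ | ⟨a, b, w, z, g, ha, hb, hg, hg', h4, h5⟩
  · exact key a w g ha hg h4
  · exact key a w g ha hg h4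

theorem Flags_nil {y w : Y} {g a : Y →L[ℂ] ℂ} (h : ten y g = ten w a) (h0 : ten y g ≠ 0)
    (hg : g y = 0) : a w = 0 := by
  obtain ⟨⟨c, -, hc⟩, ⟨d, -, hd⟩⟩ := Flags_two h h0
  rw [hc, hd]
  show d * g (c • y) = 0
  rw [map_smul, hg, smul_zero, mul_zero]

theorem flags [CompleteSpace X] [CompleteSpace Y] {e : ℂ} (he : Sg e) (hX : Dim4 X)
    (hY : Dim4 Y) {φ : (X →L[ℂ] X) → (Y →L[ℂ] Y)} (h : Pres e φ) :
    (∃ (p : X → Y) (q : (X →L[ℂ] ℂ) → (Y →L[ℂ] ℂ)), (∀ x, x ≠ 0 → p x ≠ 0) ∧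
      (∀ f, f ≠ 0 → q f ≠ 0) ∧ ∀ x f, x ≠ 0 → f ≠ 0 → f x = 0 → q f (p x) = 0 ∧
        ∃ d s : ℂ, d ≠ 0 ∧ Sc e s ∧
          φ (ten x f) = s • (1 : Y →L[ℂ] Y) + d • ten (p x) (q f)) ∨
    (∃ (p : (X →L[ℂ] ℂ) → Y) (q : X → (Y →L[ℂ] ℂ)), (∀ f, f ≠ 0 → p f ≠ 0) ∧
      (∀ x, x ≠ 0 → q x ≠ 0) ∧ ∀ x f, x ≠ 0 → f ≠ 0 → f x = 0 → q x (p f) = 0 ∧
        ∃ d s : ℂ, d ≠ 0 ∧ Sc e s ∧
          φ (ten x f) = s • (1 : Y →L[ℂ] Y) + d • ten (p f) (q x)) := by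
  have hnt : Nontrivial Y := by
    obtain ⟨v, hv⟩ := hY
    exact ⟨⟨v 0, 0, hv.ne_zero 0⟩⟩
  have h1 : ∀ (x : X) (f : X →L[ℂ] ℂ), ∃ G : Y →L[ℂ] Y, x ≠ 0 → f ≠ 0 → f x = 0 →
      ∃ (s : ℂ) (y : Y) (g : Y →L[ℂ] ℂ), Sc e s ∧ g y = 0 ∧ y ≠ 0 ∧ g ≠ 0 ∧ G = ten y g ∧
        φ (ten x f) = s • (1 : Y →L[ℂ] Y) + G := by
    intro x f
    by_cases hc : x ≠ 0 ∧ f ≠ 0 ∧ f x = 0
    · obtain ⟨s, y, g, h2, h3, h4, h5, h6⟩ := Flags_image he hX hY h hc.1 hc.2.1 hc.2.2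
      exact ⟨ten y g, fun _ _ _ => ⟨s, y, g, h2, h3, h4, h5, rfl, h6⟩⟩
    · exact ⟨0, fun ha hb hd => (hc ⟨ha, hb, hd⟩).elim⟩
  choose F hF using h1
  -- the part of rank one in another presentation
  have huniq : ∀ (x : X) (f : X →L[ℂ] ℂ), x ≠ 0 → f ≠ 0 → f x = 0 → ∀ (a : ℂ) (w : Y)
      (g : Y →L[ℂ] ℂ), φ (ten x f) = a • (1 : Y →L[ℂ] Y) + ten w g → F x f = ten w g := by
    intro x f hx hf hxf a w g h2
    obtain ⟨s, y, g', -, -, -, -, h3, h4⟩ := hF x f hx hf hxf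
    rw [h4, h3] at h2
    rw [h3]
    exact (Flags_uniq hY h2).2
  have hne : ∀ (x : X) (f : X →L[ℂ] ℂ), x ≠ 0 → f ≠ 0 → f x = 0 → F x f ≠ 0 := by
    intro x f hx hf hxf
    obtain ⟨s, y, g', -, -, h3, h4, h5, -⟩ := hF x f hx hf hxf
    rw [h5, Ne, ten_eq_zero_iff, not_or]
    exact ⟨h3, h4⟩
  have hadj2 : ∀ (x x' : X) (f f' : X →L[ℂ] ℂ), x ≠ 0 → x' ≠ 0 → f ≠ 0 → f' ≠ 0 → f x = 0 →
      f' x' = 0 → NAdj e (φ (ten x f)) (φ (ten x' f')) → Adj (F x f) (F x' f') := by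
    intro x x' f f' hx hx' hf hf' h2 h3 h4
    rcases h4 with ⟨a, b, w, g, g', ha, hb, hg, hg', h5, h6⟩ |
      ⟨a, b, w, z, g, ha, hb, hg, hg', h5, h6⟩
    · exact Or.inl ⟨w, g, g', huniq x f hx hf h2 a w g h5, huniq x' f' hx' hf' h3 b w g' h6⟩
    · exact Or.inr ⟨w, z, g, huniq x f hx hf h2 a w g h5, huniq x' f' hx' hf' h3 b z g h6⟩
  have hpar2 : ∀ (x x' : X) (f f' : X →L[ℂ] ℂ), x ≠ 0 → x' ≠ 0 → f ≠ 0 → f' ≠ 0 → f x = 0 →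
      f' x' = 0 → (∃ c : ℂ, ten x' f' = c • ten x f) → ∃ d : ℂ, F x' f' = d • F x f := by
    intro x x' f f' hx hx' hf hf' h2 h3 hc
    obtain ⟨c, hc⟩ := hc
    have h4 : Par e (φ (ten x f)) (φ (ten x' f')) :=
      (h.par_iff he hX hY _ _).mpr ⟨c, 0, Flags_sc e, by rw [hc, zero_smul, add_zero]⟩
    obtain ⟨d, t, -, h5⟩ := h4
    obtain ⟨s, y, g, -, -, -, -, h6, h7⟩ := hF x f hx hf h2
    refine ⟨d, ?_⟩
    rw [h6, ← ten_smul_left]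
    apply huniq x' f' hx' hf' h3 (d * s + t)
    rw [h5, h7, h6, ten_smul_left, smul_add, smul_smul, add_smul]
    abel
  have hmain := Flags_abs (fun (x : X) (f : X →L[ℂ] ℂ) => f x = 0) F
    hne
    (fun x f f' hx hf hf' hI hI' hc => hadj2 x x f f' hx hx hf hf' hI hI'
      ((h.nadj he hX hY (Flags_triv hX hx hf) (Flags_triv hX hx hf')
        (fun h4 => hc (Flags_par hX hx hf' h4).2)).mpr (Flags_row_adj hI hI')))
    (fun x x' f hx hx' hf hI hI' hc => hadj2 x x' f f hx hx' hf hf hI hI'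
      ((h.nadj he hX hY (Flags_triv hX hx hf) (Flags_triv hX hx' hf)
        (fun h4 => hc (Flags_par hX hx' hf h4).1)).mpr (Flags_col_adj hI hI')))
    (by
      intro x x' f f' hx hx' hf hf' hI hI' hcx hcf hadj
      obtain ⟨s, y, g, hs, hgy, hy, hg, h5, h6⟩ := hF x f' hx hf' hI
      obtain ⟨s', y', g', hs', hgy', hy', hg', h5', h6'⟩ := hF x' f hx' hf hI'
      have h7 : NAdj e (φ (ten x f')) (φ (ten x' f)) := by
        rcases hadj with ⟨w, a, b, h8, h9⟩ | ⟨w, z, a, h8, h9⟩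
        · refine Or.inl ⟨s, s', w, a, b, hs, hs', ?_, ?_, by rw [h6, h8], by rw [h6', h9]⟩
          · exact Flags_nil (h5.symm.trans h8) (by rw [← h5]; exact hne x f' hx hf' hI) hgy
          · exact Flags_nil (h5'.symm.trans h9) (by rw [← h5']; exact hne x' f hx' hf hI') hgy'
        · refine Or.inr ⟨s, s', w, z, a, hs, hs', ?_, ?_, by rw [h6, h8], by rw [h6', h9]⟩
          · exact Flags_nil (h5.symm.trans h8) (by rw [← h5]; exact hne x f' hx hf' hI) hgy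
          · exact Flags_nil (h5'.symm.trans h9) (by rw [← h5']; exact hne x' f hx' hf hI') hgy'
      have h8 := (h.nadj he hX hY (Flags_triv hX hx hf') (Flags_triv hX hx' hf)
        (fun h4 => hcx (Flags_par hX hx' hf h4).1)).mp h7
      have hu : ∀ (u : X) (k : X →L[ℂ] ℂ) (a : ℂ) (w : X) (l : X →L[ℂ] ℂ), u ≠ 0 → k ≠ 0 →
          ten u k = a • (1 : X →L[ℂ] X) + ten w l →
          (∃ c : ℂ, c ≠ 0 ∧ w = c • u) ∧ ∃ c : ℂ, c ≠ 0 ∧ l = c • k := by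
        intro u k a w l hu hk h9
        have h10 : (0 : ℂ) • (1 : X →L[ℂ] X) + ten u k = a • (1 : X →L[ℂ] X) + ten w l := by
          rw [zero_smul, zero_add, h9]
        exact Flags_two (Flags_uniq hX h10).2 (by
          rw [Ne, ten_eq_zero_iff, not_or]; exact ⟨hu, hk⟩)
      rcases h8 with ⟨a, b, w, l, l', -, -, -, -, h9, h10⟩ | ⟨a, b, w, z, l, -, -, -, -, h9, h10⟩
      · obtain ⟨⟨c, hc, hc'⟩, -⟩ := hu _ _ _ _ _ hx hf' h9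
        obtain ⟨⟨d, hd, hd'⟩, -⟩ := hu _ _ _ _ _ hx' hf h10
        apply hcx
        refine ⟨d⁻¹ * c, ?_⟩
        rw [mul_smul, ← hc', hd', smul_smul, inv_mul_cancel₀ hd, one_smul]
      · obtain ⟨-, ⟨c, hc, hc'⟩⟩ := hu _ _ _ _ _ hx hf' h9
        obtain ⟨-, ⟨d, hd, hd'⟩⟩ := hu _ _ _ _ _ hx' hf h10
        apply hcf
        refine ⟨c⁻¹ * d, ?_⟩
        rw [mul_smul, ← hd', hc', smul_smul, inv_mul_cancel₀ hc, one_smul])
    (fun x f c hx hf hc hI => hpar2 x x f (c • f) hx hx hf (smul_ne_zero hc hf) hI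
      (by show c * f x = 0; rw [hI, mul_zero]) ⟨c, ten_smul_right c x f⟩)
    (fun x f c hx hf hc hI => hpar2 x (c • x) f f hx (smul_ne_zero hc hx) hf hf hI
      (by rw [map_smul, hI, smul_zero]) ⟨c, ten_smul_left c x f⟩)
    (fun x f => by
      obtain ⟨z, hz, h2, -, h3⟩ := Flags_vec hX f f x
      exact ⟨z, hz, h2, h3⟩)
    (fun x f => by
      obtain ⟨g, hg, h2, -, h3⟩ := Flags_fun hX x x f
      exact ⟨g, hg, h2, h3⟩)
    (fun x x' => by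
      obtain ⟨g, hg, h2, h3, -⟩ := Flags_fun hX x x' 0
      exact ⟨g, hg, h2, h3⟩)
  rcases hmain with ⟨p, q, hp, hq, hpq⟩ | ⟨p, q, hp, hq, hpq⟩
  · refine Or.inl ⟨p, q, hp, hq, fun x f hx hf hxf => ?_⟩
    obtain ⟨d, hd, h2⟩ := hpq x f hx hf hxf
    obtain ⟨s, y, g, hs, hgy, hy, hg, h5, h6⟩ := hF x f hx hf hxf
    refine ⟨?_, d, s, hd, hs, by rw [h6, h2]⟩
    have h7 : ten y g = ten (d • p x) (q f) := by rw [ten_smul_left, ← h2, h5]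
    have h8 := Flags_nil h7 (by rw [← h5]; exact hne x f hx hf hxf) hgy
    rw [map_smul, smul_eq_mul] at h8
    exact (mul_eq_zero.mp h8).resolve_left hd
  · refine Or.inr ⟨p, q, hp, hq, fun x f hx hf hxf => ?_⟩
    obtain ⟨d, hd, h2⟩ := hpq x f hx hf hxf
    obtain ⟨s, y, g, hs, hgy, hy, hg, h5, h6⟩ := hF x f hx hf hxf
    refine ⟨?_, d, s, hd, hs, by rw [h6, h2]⟩
    have h7 : ten y g = ten (d • p f) (q x) := by rw [ten_smul_left, ← h2, h5]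
    have h8 := Flags_nil h7 (by rw [← h5]; exact hne x f hx hf hxf) hgy
    rw [map_smul, smul_eq_mul] at h8
    exact (mul_eq_zero.mp h8).resolve_left hd

end Pool.Agent.H.MP_bb4c62_an.JM
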