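import Pool.Agent.H.MP_bb4c62_an.JM.Row1

/-!
# Module JM/Row2

By `row_scal` all members are `a + ten w f` with `Sc e a`. `A = a + ten w f1`, `B = b + ten w f2`; `f1, f2` are not
proportional. `F = span {f1, f2}`.
(0) For every member `a + ten w f`: `f ∈ F`: if `f1 y = f2 y = 0`, `y ∉ ℂ w`, choose `g` with `g y = 0`, `g w = 1`, `hl_fun`:
`f y = 0`; if `f1 w = f2 w = 0` then `f w = f (w + y) - f y = 0` for such a `y`. `mem_span_dual` (helper6/NInst).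
(1) For every `k ∈ F`, `k ≠ 0`, some `a + ten w k` with `Sc e a` is in `ℓ`: choose `y ∉ ℂ w` with `k y = 0` and
`f1 y ≠ 0` or `f2 y ≠ 0`, `g` with `g y = 0`, `g w = 1`. `hl_meet1`: a member `a + ten w f` with `f y = 0`, `f ∈ F`, so
`f = c k`, `c ≠ 0`, and `c⁻¹ U ∈ ℓ` by `gen` (`par_dep`).
(2) `k w = 0` for `k ∈ F`: otherwise there are `a, b ∈ F` with `a w = 1`, `b w = 0`, independent. Choose `v ≠ 0` with
`a v = b v = 0`, `u` with `a u = 0`, `b u = 1`; `w, v, u` are independent; functionals `p, q`: `p w = 1`, `p v = p u = 0`,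
`q v = 1`, `q w = q u = 0`. `S = ten v p + ten u q` (`w ↦ v ↦ u ↦ 0`).
`(ten w k) S + e S (ten w k) = ten w (k ∘ S) + e ten (S w) k`, `k ∘ S = k v • p + k u • q`, `S w = v`. For `k = a`:
`ten (e v) a`, nilpotent (`a v = 0`). For `k = b`: `ten w q + ten (e v) b`: `q w = 0`, `b v = 0`, `q v * b w = 0`:
`qn_of_two`. For `k = a + b`: `ten w q + ten (e v) (a + b)`: determinant `-e ≠ 0`: not quasinilpotent (`qn_two`). The
members for `a`, `b`, `a + b` ((1) and `prp_add`) contradict `gen`.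
(3) So `f1 w = f2 w = 0` and the first alternative of `NAdj`.
-/

namespace Pool.Agent.H.MP_bb4c62_an.JM

open Pool.Agent.H.MP_bb4c62_an.helper6.NL
open Pool.Agent.H.MP_bb4c62_an.helper6.Perturb
open Pool.Agent.H.MP_bb4c62_an.helper6.Gadgets

variable {X : Type*} [NormedAddCommGroup X] [NormedSpace ℂ X]

/-- a vector in the kernel of two functionals, outside of a line -/
theorem Row2_z0 (h5 : Dim4 X) (f1 f2 : X →L[ℂ] ℂ) {w : X} (hw : w ≠ 0) :
    ∃ z : X, f1 z = 0 ∧ f2 z = 0 ∧ ¬ ∃ c : ℂ, z = c • w := by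
  obtain ⟨v, hv⟩ := h5
  obtain ⟨η, hη⟩ : ∃ η : X →L[ℂ] ℂ, η w = 1 := by
    obtain ⟨η, hη⟩ := exists_dual (v := fun _ : Fin 1 => w)
      (LinearIndependent.of_subsingleton (0 : Fin 1) hw) (fun _ => (1 : ℂ))
    exact ⟨η, hη 0⟩
  let L : (Fin 4 → ℂ) →ₗ[ℂ] X := Fintype.linearCombination ℂ v
  let M : X →ₗ[ℂ] (Fin 3 → ℂ) := LinearMap.pi ![f1.toLinearMap, f2.toLinearMap, η.toLinearMap]
  have hker : LinearMap.ker (M.comp L) ≠ ⊥ := by
    apply LinearMap.ker_ne_bot_of_finrank_lt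
    simp
  obtain ⟨c, hc, hc0⟩ := (Submodule.ne_bot_iff _).mp hker
  have hMc : M (L c) = 0 := hc
  have h1 : f1 (L c) = 0 := congrFun hMc 0
  have h2 : f2 (L c) = 0 := congrFun hMc 1
  have h3 : η (L c) = 0 := congrFun hMc 2
  refine ⟨L c, h1, h2, ?_⟩
  rintro ⟨t, ht⟩
  have ht0 : t = 0 := by
    have := h3
    rw [ht, map_smul, hη, smul_eq_mul, mul_one] at this
    exact this
  rw [ht0, zero_smul] at ht
  have hLc : L c = ∑ i, c i • v i := by
    simp [L, Fintype.linearCombination_apply]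
  rw [hLc] at ht
  apply hc0
  funext i
  exact Fintype.linearIndependent_iff.mp hv c ht i

/-- the scalar and the functional are determined -/
theorem Row2_eq {w z : X} (hw : w ≠ 0) (hz : ¬ ∃ c : ℂ, z = c • w) {a b : ℂ}
    {f g : X →L[ℂ] ℂ} (h : a • (1 : X →L[ℂ] X) + ten w f = b • (1 : X →L[ℂ] X) + ten w g) :
    a = b ∧ f = g := by
  have hx : ∀ x, a • x + f x • w = b • x + g x • w := by
    intro x
    exact congrArg (fun T : X →L[ℂ] X => T x) h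
  have hab : a = b := by
    by_contra hne
    have hsub : a - b ≠ 0 := sub_ne_zero.mpr hne
    apply hz
    refine ⟨(a - b)⁻¹ * (g z - f z), ?_⟩
    have h1 : (a - b) • z = (g z - f z) • w := by
      rw [sub_smul, sub_smul, sub_eq_sub_iff_add_eq_add, hx z, add_comm]
    rw [mul_smul, ← h1, smul_smul, inv_mul_cancel₀ hsub, one_smul]
  refine ⟨hab, ?_⟩
  ext x
  have h2 := hx x
  rw [hab] at h2
  exact smul_left_injective ℂ hw (add_left_cancel h2)

/-- the test operator `w ↦ v ↦ u ↦ 0` on the members with a functional vanishing at `v` -/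
theorem Row2_key [CompleteSpace X] {e : ℂ} (he : Sg e) {w v u : X} {p q k : X →L[ℂ] ℂ}
    (hpw : p w = 1) (hqw : q w = 0) (hqv : q v = 1) (hkv : k v = 0) {a : ℂ} (ha : Sc e a) :
    Prp e (a • (1 : X →L[ℂ] X) + ten w k) (ten v p + ten u q) ↔ k u * k w = 0 := by
  have he0 : e ≠ 0 := by
    rcases he with h | h <;> rw [h] <;> norm_num
  rw [add_comm, prp_add ha]
  have hcomp : k.comp (ten v p + ten u q) = k u • q := by
    ext x
    show k (p x • v + q x • u) = k u * q x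
    rw [map_add, map_smul, map_smul, hkv, smul_eq_mul, smul_eq_mul]
    ring
  have hSw : (ten v p + ten u q) w = v := by
    show p w • v + q w • u = v
    rw [hpw, hqw, one_smul, zero_smul, add_zero]
  have hrw : ten w k * (ten v p + ten u q) + e • ((ten v p + ten u q) * ten w k) =
      ten w (k u • q) + ten (e • v) k := by
    rw [ten_mul, mul_ten, hcomp, hSw, ten_smul_left]
  unfold Prp
  rw [hrw]
  constructor
  · intro h
    have h2 := (Pool.Agent.H.MP_bb4c62_an.QP.qn_two h).2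
    have h3 : (k u • q) w = 0 := by
      show k u * q w = 0
      rw [hqw, mul_zero]
    have h4 : (k u • q) (e • v) = e * k u := by
      show k u * q (e • v) = e * k u
      rw [map_smul, hqv, smul_eq_mul]
      ring
    rw [h3, h4, zero_mul, zero_sub, neg_eq_zero, mul_assoc] at h2
    exact (mul_eq_zero.mp h2).resolve_left he0
  · intro h
    apply qn_of_two
    · show k u * q w + k (e • v) = 0
      rw [hqw, map_smul, hkv, smul_zero, mul_zero, add_zero]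
    · show k u * q w * k (e • v) - k u * q (e • v) * k w = 0
      rw [hqw, map_smul, map_smul, hkv, hqv, smul_zero, smul_eq_mul]
      linear_combination (-e) * h

/-- the functionals of the members are in the span of two of them -/
theorem Row2_mem [CompleteSpace X] {e : ℂ} (he : Sg e) {ℓ : Set (X →L[ℂ] X)}
    (hℓ : HLine e ℓ) {w z0 : X} (hw : w ≠ 0) {a0 b0 a : ℂ} {f1 f2 f : X →L[ℂ] ℂ}
    (hA : a0 • (1 : X →L[ℂ] X) + ten w f1 ∈ ℓ) (hB : b0 • (1 : X →L[ℂ] X) + ten w f2 ∈ ℓ)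
    (hAB : ¬ Par e (a0 • (1 : X →L[ℂ] X) + ten w f1) (b0 • (1 : X →L[ℂ] X) + ten w f2))
    (hz1 : f1 z0 = 0) (hz2 : f2 z0 = 0) (hz : ¬ ∃ c : ℂ, z0 = c • w)
    (hU : a • (1 : X →L[ℂ] X) + ten w f ∈ ℓ) :
    ∃ s t : ℂ, f = s • f1 + t • f2 := by
  have key : ∀ y : X, (¬ ∃ c : ℂ, y = c • w) → f1 y = 0 → f2 y = 0 → f y = 0 := by
    intro y hy h1 h2
    obtain ⟨g, hgw, hgy⟩ := (exists_sep' hw hy).2
    have h3 : ∀ (c : ℂ) (k : X →L[ℂ] ℂ), g ((c • (1 : X →L[ℂ] X) + ten w k) y) = k y := by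
      intro c k
      show g (c • y + k y • w) = k y
      rw [map_add, map_smul, map_smul, hgy, hgw, smul_eq_mul, smul_eq_mul]
      ring
    have h4 := hl_fun he hℓ hA hB hAB hU hgy (by rw [h3, h1]) (by rw [h3, h2])
    rw [h3] at h4
    exact h4
  apply mem_span_dual
  intro x h1 h2
  by_cases hx : ∃ c : ℂ, x = c • w
  · have hxz : ¬ ∃ c : ℂ, x + z0 = c • w := by
      rintro ⟨c, hc⟩
      obtain ⟨d, hd⟩ := hx
      apply hz
      refine ⟨c - d, ?_⟩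
      rw [sub_smul, ← hc, ← hd]
      abel
    have h5 := key (x + z0) hxz (by rw [map_add, h1, hz1, add_zero])
      (by rw [map_add, h2, hz2, add_zero])
    rw [map_add, key z0 hz hz1 hz2, add_zero] at h5
    exact h5
  · exact key x hx h1 h2

/-- every functional of the span belongs to a member -/
theorem Row2_ex [CompleteSpace X] {e : ℂ} (he : Sg e) (h5 : Dim4 X)
    {ℓ : Set (X →L[ℂ] X)} (hℓ : HLine e ℓ) {w z0 : X} (hw : w ≠ 0)
    (h : ∀ U ∈ ℓ, ∃ (a : ℂ) (f : X →L[ℂ] ℂ), U = a • (1 : X →L[ℂ] X) + ten w f)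
    {a0 b0 : ℂ} {f1 f2 : X →L[ℂ] ℂ}
    (hA : a0 • (1 : X →L[ℂ] X) + ten w f1 ∈ ℓ) (hB : b0 • (1 : X →L[ℂ] X) + ten w f2 ∈ ℓ)
    (hAB : ¬ Par e (a0 • (1 : X →L[ℂ] X) + ten w f1) (b0 • (1 : X →L[ℂ] X) + ten w f2))
    (hf1 : f1 ≠ 0) (hf2 : ¬ ∃ c : ℂ, f2 = c • f1)
    (hz1 : f1 z0 = 0) (hz2 : f2 z0 = 0) (hz : ¬ ∃ c : ℂ, z0 = c • w)
    {c1 c2 : ℂ} (hc : ¬ (c1 = 0 ∧ c2 = 0)) :
    ∃ a : ℂ, Sc e a ∧ a • (1 : X →L[ℂ] X) + ten w (c1 • f1 + c2 • f2) ∈ ℓ := by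
  obtain ⟨⟨y2, hy21, hy22⟩, ⟨y1, hy11, hy12⟩⟩ := exists_sep hf1 hf2
  obtain ⟨y, hy1, hy2, hyw⟩ : ∃ y : X, f1 y = c2 ∧ f2 y = - c1 ∧ ¬ ∃ c : ℂ, y = c • w := by
    have e1 : f1 (c2 • y1 - c1 • y2) = c2 := by
      rw [map_sub, map_smul, map_smul, hy11, hy21, smul_eq_mul, smul_eq_mul]
      ring
    have e2 : f2 (c2 • y1 - c1 • y2) = - c1 := by
      rw [map_sub, map_smul, map_smul, hy12, hy22, smul_eq_mul, smul_eq_mul]
      ring
    by_cases hy : ∃ c : ℂ, c2 • y1 - c1 • y2 = c • w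
    · refine ⟨c2 • y1 - c1 • y2 + z0, by rw [map_add, e1, hz1, add_zero],
        by rw [map_add, e2, hz2, add_zero], ?_⟩
      rintro ⟨c, hc'⟩
      obtain ⟨d, hd⟩ := hy
      apply hz
      refine ⟨c - d, ?_⟩
      rw [sub_smul, ← hc', ← hd]
      abel
    · exact ⟨_, e1, e2, hy⟩
  obtain ⟨g, hgw, hgy⟩ := (exists_sep' hw hyw).2
  obtain ⟨U, hU, hgU⟩ := hl_meet1 he hℓ hgy
  obtain ⟨a, f, ha, rfl⟩ := row_scal he h5 hℓ hw h U hU
  have hfy : f y = 0 := by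
    have h3 : g ((a • (1 : X →L[ℂ] X) + ten w f) y) = f y := by
      show g (a • y + f y • w) = f y
      rw [map_add, map_smul, map_smul, hgy, hgw, smul_eq_mul, smul_eq_mul]
      ring
    rw [h3] at hgU
    exact hgU
  obtain ⟨s, t, hf⟩ := Row2_mem he hℓ hw hA hB hAB hz1 hz2 hz hU
  have hst : s * c2 - t * c1 = 0 := by
    have h4 : f y = s * c2 - t * c1 := by
      rw [hf]
      show s * f1 y + t * f2 y = s * c2 - t * c1
      rw [hy1, hy2]
      ring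
    rw [← h4, hfy]
  obtain ⟨d, hs, ht⟩ : ∃ d : ℂ, s = d * c1 ∧ t = d * c2 := by
    by_cases h1 : c1 = 0
    · have h2 : c2 ≠ 0 := fun h2 => hc ⟨h1, h2⟩
      rw [h1, mul_zero, sub_zero] at hst
      refine ⟨t / c2, ?_, ?_⟩
      · rw [h1, mul_zero]
        exact (mul_eq_zero.mp hst).resolve_right h2
      · field_simp
    · refine ⟨s / c1, ?_, ?_⟩
      · field_simp
      · field_simp
        linear_combination -hst
  have hd : d ≠ 0 := by
    intro hd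
    apply hl_nt hℓ hU
    refine ⟨a, ha, ?_⟩
    have : f = 0 := by
      rw [hf, hs, ht, hd, zero_mul, zero_mul]
      ext x
      show (0 : ℂ) * f1 x + (0 : ℂ) * f2 x = 0
      ring
    rw [this]
    ext x
    show a • x + (0 : ℂ) • w = a • x
    rw [zero_smul, add_zero]
  have heq : d⁻¹ • (a • (1 : X →L[ℂ] X) + ten w f) =
      (d⁻¹ * a) • (1 : X →L[ℂ] X) + ten w (c1 • f1 + c2 • f2) := by
    rw [hf, hs, ht]
    ext x
    show d⁻¹ • (a • x + (d * c1 * f1 x + d * c2 * f2 x) • w) =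
      (d⁻¹ * a) • x + (c1 * f1 x + c2 * f2 x) • w
    rw [smul_add, smul_smul, smul_smul]
    congr 2
    field_simp
  have hSc : Sc e (d⁻¹ * a) := by
    rcases ha with ha | ha
    · exact Or.inl ha
    · right
      rw [ha, mul_zero]
  refine ⟨d⁻¹ * a, hSc, ?_⟩
  rw [← heq]
  have hgen := (hℓ.gen _ hA _ hB hAB (a • (1 : X →L[ℂ] X) + ten w f)).mp hU
  refine (hℓ.gen _ hA _ hB hAB _).mpr ⟨?_, ?_⟩
  · rintro ⟨r, hr, hr'⟩
    apply hgen.1
    refine ⟨d * r, ?_, ?_⟩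
    · rcases hr with hr | hr
      · exact Or.inl hr
      · right
        rw [hr, mul_zero]
    · rw [mul_smul, ← hr', smul_smul, mul_inv_cancel₀ hd, one_smul]
  · intro S h1 h2
    exact prp_smul (hgen.2 S h1 h2) _

theorem rowfam_nadj [CompleteSpace X] {e : ℂ} (he : Sg e) (h5 : Dim4 X)
    {ℓ : Set (X →L[ℂ] X)} (hℓ : HLine e ℓ) (h : RowFam ℓ) {A B : X →L[ℂ] X} (hA : A ∈ ℓ)
    (hB : B ∈ ℓ) (hAB : ¬ Par e A B) : NAdj e A B := by
  obtain ⟨w, hw, hrow⟩ := h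
  obtain ⟨a0, f1, ha0, rfl⟩ := row_scal he h5 hℓ hw hrow A hA
  obtain ⟨b0, f2, hb0, rfl⟩ := row_scal he h5 hℓ hw hrow B hB
  obtain ⟨z0, hz1, hz2, hz⟩ := Row2_z0 h5 f1 f2 hw
  have hf1 : f1 ≠ 0 := by
    intro h0
    apply hl_nt hℓ hA
    refine ⟨a0, ha0, ?_⟩
    rw [h0]
    ext x
    show a0 • x + (0 : ℂ) • w = a0 • x
    rw [zero_smul, add_zero]
  have hf2 : ¬ ∃ c : ℂ, f2 = c • f1 := by
    rintro ⟨c, hc⟩
    apply hAB
    refine ⟨c, b0 - c * a0, ?_, ?_⟩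
    · rcases ha0 with h1 | h1
      · exact Or.inl h1
      · rcases hb0 with h2 | h2
        · exact Or.inl h2
        · right
          rw [h1, h2]
          ring
    · rw [hc]
      ext x
      show b0 • x + (c * f1 x) • w = c • (a0 • x + f1 x • w) + (b0 - c * a0) • x
      module
  by_cases hm : f1 w = 0 ∧ f2 w = 0
  · exact Or.inl ⟨a0, b0, w, f1, f2, ha0, hb0, hm.1, hm.2, rfl, rfl⟩
  exfalso
  obtain ⟨c1, c2, hc⟩ : ∃ c1 c2 : ℂ, c1 * f1 w + c2 * f2 w = 1 := by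
    by_cases h1 : f1 w = 0
    · have h2 : f2 w ≠ 0 := fun h2 => hm ⟨h1, h2⟩
      exact ⟨0, (f2 w)⁻¹, by rw [zero_mul, zero_add, inv_mul_cancel₀ h2]⟩
    · exact ⟨(f1 w)⁻¹, 0, by rw [zero_mul, add_zero, inv_mul_cancel₀ h1]⟩
  obtain ⟨α, hα⟩ : ∃ α : X →L[ℂ] ℂ, α = c1 • f1 + c2 • f2 := ⟨_, rfl⟩
  obtain ⟨β, hβ⟩ : ∃ β : X →L[ℂ] ℂ, β = f2 w • f1 + (- f1 w) • f2 := ⟨_, rfl⟩
  have hαw : α w = 1 := by
    rw [hα]
    exact hc
  have hβw : β w = 0 := by
    rw [hβ]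
    show f2 w * f1 w + (- f1 w) * f2 w = 0
    ring
  have hαz : α z0 = 0 := by
    rw [hα]
    show c1 * f1 z0 + c2 * f2 z0 = 0
    rw [hz1, hz2]
    ring
  have hβz : β z0 = 0 := by
    rw [hβ]
    show f2 w * f1 z0 + (- f1 w) * f2 z0 = 0
    rw [hz1, hz2]
    ring
  have hβ0 : β ≠ 0 := by
    intro h0
    obtain ⟨⟨y2, hy21, hy22⟩, ⟨y1, hy11, hy12⟩⟩ := exists_sep hf1 hf2
    have e1 : β y1 = f2 w := by
      rw [hβ]
      show f2 w * f1 y1 + (- f1 w) * f2 y1 = f2 w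
      rw [hy11, hy12]
      ring
    have e2 : β y2 = - f1 w := by
      rw [hβ]
      show f2 w * f1 y2 + (- f1 w) * f2 y2 = - f1 w
      rw [hy21, hy22]
      ring
    rw [h0] at e1 e2
    apply hm
    exact ⟨neg_eq_zero.mp e2.symm, e1.symm⟩
  have hα0 : α ≠ 0 := by
    intro h0
    rw [h0] at hαw
    exact zero_ne_one hαw
  have hαβ : ¬ ∃ c : ℂ, β = c • α := by
    rintro ⟨c, hc'⟩
    have h1 : c = 0 := by
      have h2 := hβw
      rw [hc'] at h2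
      change c * α w = 0 at h2
      rw [hαw, mul_one] at h2
      exact h2
    apply hβ0
    rw [hc', h1]
    ext x
    show (0 : ℂ) * α x = 0
    ring
  obtain ⟨u, hαu, hβu⟩ := (exists_sep hα0 hαβ).1
  obtain ⟨q, hqw, hqz⟩ := (exists_sep' hw hz).1
  obtain ⟨a1, ha1, hA1⟩ := Row2_ex he h5 hℓ hw hrow hA hB hAB hf1 hf2 hz1 hz2 hz
    (c1 := c1) (c2 := c2) (by
      rintro ⟨r1, r2⟩
      rw [r1, r2, zero_mul, zero_mul, add_zero] at hc
      exact zero_ne_one hc)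
  obtain ⟨b1, hb1, hB1⟩ := Row2_ex he h5 hℓ hw hrow hA hB hAB hf1 hf2 hz1 hz2 hz
    (c1 := f2 w) (c2 := - f1 w) (by
      rintro ⟨r1, r2⟩
      exact hm ⟨neg_eq_zero.mp r2, r1⟩)
  obtain ⟨d1, hd1, hD1⟩ := Row2_ex he h5 hℓ hw hrow hA hB hAB hf1 hf2 hz1 hz2 hz
    (c1 := c1 + f2 w) (c2 := c2 + - f1 w) (by
      rintro ⟨r1, r2⟩
      have h1 : (c1 + f2 w) * f1 w + (c2 + - f1 w) * f2 w = 1 := by
        linear_combination hc
      rw [r1, r2, zero_mul, zero_mul, add_zero] at h1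
      exact zero_ne_one h1)
  rw [← hα] at hA1
  rw [← hβ] at hB1
  have hsum : (c1 + f2 w) • f1 + (c2 + - f1 w) • f2 = α + β := by
    rw [hα, hβ]
    module
  rw [hsum] at hD1
  have hpar : ¬ Par e (a1 • (1 : X →L[ℂ] X) + ten w α) (b1 • (1 : X →L[ℂ] X) + ten w β) := by
    rintro ⟨c, s, -, hcs⟩
    have h1 : b1 • (1 : X →L[ℂ] X) + ten w β =
        (c * a1 + s) • (1 : X →L[ℂ] X) + ten w (c • α) := by
      rw [hcs]
      ext x
      show c • (a1 • x + α x • w) + s • x = (c * a1 + s) • x + (c * α x) • w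
      module
    exact hαβ ⟨c, (Row2_eq hw hz h1).2⟩
  have hdep := ((hℓ.gen _ hA1 _ hB1 hpar _).mp hD1).2
  have h1 : Prp e (a1 • (1 : X →L[ℂ] X) + ten w α) (ten z0 α + ten u q) :=
    (Row2_key he hαw hqw hqz hαz ha1).mpr (by rw [hαu, zero_mul])
  have h2 : Prp e (b1 • (1 : X →L[ℂ] X) + ten w β) (ten z0 α + ten u q) :=
    (Row2_key he hαw hqw hqz hβz hb1).mpr (by rw [hβw, mul_zero])
  have h3 := hdep _ h1 h2
  have hsz : (α + β) z0 = 0 := by
    show α z0 + β z0 = 0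
    rw [hαz, hβz, add_zero]
  have h4 := (Row2_key he hαw hqw hqz hsz hd1).mp h3
  have h5' : (α + β) u * (α + β) w = 1 := by
    show (α u + β u) * (α w + β w) = 1
    rw [hαu, hβu, hαw, hβw]
    ring
  rw [h5'] at h4
  exact one_ne_zero h4

end Pool.Agent.H.MP_bb4c62_an.JM
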