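import Pool.Agent.H.MP_bb4c62_an.JM.Basic
import Pool.Agent.H.MP_bb4c62_an.JM.Lld

/-!
# Module JM/JTest (Jordan product): test operators which detect scalars

`T` is not a scalar. Case 1: some `x ∉ span {T x, T (T x)}`. `f` with `f x = 1`, `f (T x) = f (T (T x)) = 0`, `R = ten x f`.
`T R + R T = ten (T x) f + ten x (f ∘ T)`, `qn_of_two`. For `c T + s`: `ten (c T x + 2 s x) f + ten (c x) (f ∘ T)` has
trace `2 s`: `qn_two`.
Case 2: `x ∈ span {T x, T (T x)}` for all `x`. Then `T (T x) ∈ span {x, T x}` for all `x` (if `x, T x` are independent the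
coefficient of `T (T x)` is not `0`; otherwise clear), so by `lld` `T ^ 2 = α T + β`; `β ≠ 0` (otherwise `T (T - α) = 0`
and `T` is injective, so `T = α`). Let `x, T x` be independent, `f1` with `f1 x = 1`, `f1 (T x) = 0`,
`f2 = β⁻¹ • (f1 ∘ T)`: `f2 x = 0`, `f2 (T x) = 1`, `f1 ∘ T = β f2`, `f2 ∘ T = f1 + α f2`.
Case 2a: `α = 0`: `R = ten x f1 - ten (T x) f2`: `T R + R T = 0`, and `(c T + s) R + R (c T + s) = 2 s R`, `R x = x`, so
`2 s = 0` (`qn_eig`).
Case 2b: `α ≠ 0`: `R = ten x (f1 + (β / α) • f2) + ten (T x) (-(1 / α) • f1)`. `T R + R T = 2 β • ten x f2`: nilpotent. For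
`c T + s`: add `2 s R`; the sum is `ten x (...) + ten (T x) (...)` with trace `2 s`: `qn_two`.
`R` is of rank at most two: `R z = 0` for some `z ≠ 0` (`exists_ker_line`); `R ≠ 0` so it is not a scalar.
-/

namespace Pool.Agent.H.MP_bb4c62_an.JM

open Pool.Agent.H.MP_bb4c62_an.helper6.NL
open Pool.Agent.H.MP_bb4c62_an.helper6.Perturb
open Pool.Agent.H.MP_bb4c62_an.helper6.Gadgets

variable {X : Type*} [NormedAddCommGroup X] [NormedSpace ℂ X]

private theorem JTest_li {T : X →L[ℂ] X} (hT : ¬ ∃ s : ℂ, T = s • (1 : X →L[ℂ] X)) :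
    ∃ y, LinearIndependent ℂ ![y, T y] := by
  by_contra hcon
  push Not at hcon
  apply hT
  obtain ⟨c, hc⟩ := QP.mul_of_local (LinearMap.id : X →ₗ[ℂ] X) (T : X →ₗ[ℂ] X) fun y => by
    by_cases hy : y = 0
    · refine ⟨0, ?_⟩
      show T y = (0 : ℂ) • y
      rw [hy, map_zero, smul_zero]
    · have h1 := hcon y
      rw [LinearIndependent.pair_iff' hy] at h1
      push Not at h1
      obtain ⟨c, hc⟩ := h1
      exact ⟨c, hc.symm⟩
  exact ⟨c, by ext y; exact hc y⟩

/-- the common part of the three cases -/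
private theorem JTest_fin (h5 : Dim4 X) {R : X →L[ℂ] X} {p q x : X}
    (hR : ∀ z, R z ∈ Submodule.span ℂ {p, q}) (hx : R x ≠ 0) :
    (∃ z, z ≠ 0 ∧ R z = 0) ∧ ∃ y, LinearIndependent ℂ ![y, R y] := by
  obtain ⟨w, hw, hw0⟩ := exists_ker_line h5 p q (R : X →ₗ[ℂ] X) hR 0
  have hw1 : w ≠ 0 := fun h => hw (by rw [h]; exact Submodule.zero_mem _)
  have hw2 : R w = 0 := hw0
  refine ⟨⟨w, hw1, hw2⟩, JTest_li ?_⟩
  rintro ⟨s, hs⟩
  have h1 : s • w = 0 := by
    rw [hs] at hw2
    exact hw2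
  have h2 : s = 0 := (smul_eq_zero.mp h1).resolve_right hw1
  rw [hs, h2, zero_smul] at hx
  exact hx rfl

private theorem JTest_one [CompleteSpace X] (h5 : Dim4 X) {T : X →L[ℂ] X} {x : X}
    (hx : x ∉ Submodule.span ℂ {T x, T (T x)}) :
    ∃ R : X →L[ℂ] X, Prp 1 T R ∧ (∃ z, z ≠ 0 ∧ R z = 0) ∧ (∃ y, LinearIndependent ℂ ![y, R y]) ∧
      ∀ c s : ℂ, Prp 1 (c • T + s • (1 : X →L[ℂ] X)) R → s = 0 := by
  have hfg : (Submodule.span ℂ {T x, T (T x)}).FG :=
    Submodule.fg_span (Set.toFinite _)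
  obtain ⟨f, hf, hfx⟩ := exists_sep_sub hfg hx
  have h1 : f (T x) = 0 := hf _ (Submodule.subset_span (Or.inl rfl))
  have h2 : f (T (T x)) = 0 := hf _ (Submodule.subset_span (Or.inr rfl))
  have hx0 : x ≠ 0 := fun h => hx (by rw [h]; exact Submodule.zero_mem _)
  have hR : ∀ z, ten x f z ∈ Submodule.span ℂ {x, x} := fun z =>
    Submodule.smul_mem _ _ (Submodule.subset_span (Or.inl rfl))
  have hRx : ten x f x ≠ 0 := by
    rw [ten_apply, hfx, one_smul]
    exact hx0
  obtain ⟨h3, h4⟩ := JTest_fin h5 hR hRx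
  refine ⟨ten x f, ?_, h3, h4, fun c s hcs => ?_⟩
  · have h6 : T * ten x f + (1 : ℂ) • (ten x f * T) = ten (T x) f + ten x (f.comp T) := by
      rw [mul_ten, ten_mul, one_smul]
    unfold Prp
    rw [h6]
    refine qn_of_two ?_ ?_
    · show f (T x) + f (T x) = 0
      rw [h1, add_zero]
    · show f (T x) * f (T x) - f x * f (T (T x)) = 0
      rw [h1, h2]
      ring
  · have h6 : (c • T + s • (1 : X →L[ℂ] X)) * ten x f +
        (1 : ℂ) • (ten x f * (c • T + s • (1 : X →L[ℂ] X))) =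
        ten (c • T x + (2 * s) • x) f + ten (c • x) (f.comp T) := by
      ext y
      show (c • T (f y • x) + s • (f y • x)) + (1 : ℂ) • (f (c • T y + s • y) • x) =
        f y • (c • T x + (2 * s) • x) + f (T y) • (c • x)
      rw [map_smul, map_add, map_smul, map_smul, smul_eq_mul, smul_eq_mul]
      module
    unfold Prp at hcs
    rw [h6] at hcs
    have h7 := (QP.qn_two hcs).1
    have h8 : f (c • T x + (2 * s) • x) + f (T (c • x)) = 0 := h7
    rw [map_add, map_smul, map_smul, map_smul, map_smul, h1, hfx] at h8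
    simp only [smul_eq_mul] at h8
    linear_combination h8 / 2

private theorem JTest_two [CompleteSpace X] (h5 : Dim4 X) {T : X →L[ℂ] X} {x : X}
    (hx : LinearIndependent ℂ ![x, T x]) {α β : ℂ} (hβ : β ≠ 0)
    (hT : ∀ y, T (T y) = α • T y + β • y) :
    ∃ R : X →L[ℂ] X, Prp 1 T R ∧ (∃ z, z ≠ 0 ∧ R z = 0) ∧ (∃ y, LinearIndependent ℂ ![y, R y]) ∧
      ∀ c s : ℂ, Prp 1 (c • T + s • (1 : X →L[ℂ] X)) R → s = 0 := by
  have hx0 : x ≠ 0 := hx.ne_zero 0
  obtain ⟨f1, hf1⟩ := exists_dual hx ![1, 0]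
  have h1 : f1 x = 1 := by simpa using hf1 0
  have h2 : f1 (T x) = 0 := by simpa using hf1 1
  set f2 : X →L[ℂ] ℂ := β⁻¹ • f1.comp T with hf2
  have h3 : ∀ y, f1 (T y) = β * f2 y := fun y => by
    show f1 (T y) = β * (β⁻¹ * f1 (T y))
    rw [mul_inv_cancel_left₀ hβ]
  have h4 : ∀ y, f2 (T y) = f1 y + α * f2 y := fun y => by
    show β⁻¹ * f1 (T (T y)) = f1 y + α * (β⁻¹ * f1 (T y))
    rw [hT, map_add, map_smul, map_smul, smul_eq_mul, smul_eq_mul]
    field_simp
    ring
  have h6 : f2 x = 0 := by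
    have h7 := h3 x
    rw [h2] at h7
    exact (mul_eq_zero.mp h7.symm).resolve_left hβ
  by_cases hα : α = 0
  · -- no term with `T`
    have hRx : (ten x f1 - ten (T x) f2) x = x := by
      show f1 x • x - f2 x • T x = x
      rw [h1, h6, one_smul, zero_smul, sub_zero]
    have hR : ∀ z, (ten x f1 - ten (T x) f2) z ∈ Submodule.span ℂ {x, T x} := fun z =>
      Submodule.sub_mem _ (Submodule.smul_mem _ _ (Submodule.subset_span (Or.inl rfl)))
        (Submodule.smul_mem _ _ (Submodule.subset_span (Or.inr rfl)))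
    obtain ⟨h8, h9⟩ := JTest_fin h5 hR (x := x) (by rw [hRx]; exact hx0)
    refine ⟨ten x f1 - ten (T x) f2, ?_, h8, h9, fun c s hcs => ?_⟩
    · have h10 : T * (ten x f1 - ten (T x) f2) +
          (1 : ℂ) • ((ten x f1 - ten (T x) f2) * T) = 0 := by
        ext y
        show T (f1 y • x - f2 y • T x) + (1 : ℂ) • (f1 (T y) • x - f2 (T y) • T x) = 0
        rw [h3, h4, map_sub, map_smul, map_smul, hT, hα]
        module
      unfold Prp
      rw [h10]
      exact qn_zero
    · have h10 : ((c • T + s • (1 : X →L[ℂ] X)) * (ten x f1 - ten (T x) f2) +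
          (1 : ℂ) • ((ten x f1 - ten (T x) f2) * (c • T + s • (1 : X →L[ℂ] X)))) x =
          (2 * s) • x := by
        show (c • T (f1 x • x - f2 x • T x) + s • (f1 x • x - f2 x • T x)) +
          (1 : ℂ) • (f1 (c • T x + s • x) • x - f2 (c • T x + s • x) • T x) = (2 * s) • x
        rw [map_add, map_add, map_smul, map_smul, map_smul, map_smul, h3, h4, h1, h6, hα,
          smul_eq_mul, smul_eq_mul, smul_eq_mul, smul_eq_mul, one_smul, zero_smul, sub_zero]
        module
      have h11 := qn_eig hcs hx0 h10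
      linear_combination h11 / 2
  · -- the trace is not zero
    set R : X →L[ℂ] X := ten x (f1 + (β / α) • f2) + ten (T x) (-(1 / α) • f1) with hRdef
    have hRy : ∀ y, R y = (f1 y + β / α * f2 y) • x + (-(1 / α) * f1 y) • T x := fun y => rfl
    have hR : ∀ z, R z ∈ Submodule.span ℂ {x, T x} := fun z =>
      Submodule.add_mem _ (Submodule.smul_mem _ _ (Submodule.subset_span (Or.inl rfl)))
        (Submodule.smul_mem _ _ (Submodule.subset_span (Or.inr rfl)))
    have hRx : R x ≠ 0 := by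
      intro h7
      rw [hRy, h1, h6] at h7
      have h8 := LinearIndependent.pair_iff.mp hx _ _ h7
      have h9 := h8.1
      rw [mul_zero, add_zero] at h9
      exact one_ne_zero h9
    obtain ⟨h8, h9⟩ := JTest_fin h5 hR hRx
    refine ⟨R, ?_, h8, h9, fun c s hcs => ?_⟩
    · have h10 : T * R + (1 : ℂ) • (R * T) = (2 * β) • ten x f2 := by
        ext y
        show T (R y) + (1 : ℂ) • R (T y) = (2 * β) • (f2 y • x)
        rw [hRy, hRy, h3, h4, map_add, map_smul, map_smul, hT]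
        match_scalars <;> field_simp <;> ring
      unfold Prp
      rw [h10]
      exact qn_smul (qn_of_sq (ten_sq h6)) _
    · have h10 : (c • T + s • (1 : X →L[ℂ] X)) * R + (1 : ℂ) • (R * (c • T + s • (1 : X →L[ℂ] X))) =
          ten x ((2 * s) • f1 + (2 * c * β + 2 * s * (β / α)) • f2) +
            ten (T x) ((-(2 * s / α)) • f1) := by
        ext y
        show (c • T (R y) + s • R y) + (1 : ℂ) • R (c • T y + s • y) =
          ((2 * s) * f1 y + (2 * c * β + 2 * s * (β / α)) * f2 y) • x +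
            ((-(2 * s / α)) * f1 y) • T x
        rw [hRy, hRy, map_add f1, map_add f2, map_smul, map_smul, map_smul, map_smul, h3, h4,
          map_add, map_smul, map_smul, hT, smul_eq_mul, smul_eq_mul, smul_eq_mul, smul_eq_mul]
        match_scalars <;> field_simp <;> ring
      unfold Prp at hcs
      rw [h10] at hcs
      have h11 : ((2 * s) * f1 x + (2 * c * β + 2 * s * (β / α)) * f2 x) +
          (-(2 * s / α)) * f1 (T x) = 0 := (QP.qn_two hcs).1
      rw [h1, h2, h6] at h11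
      linear_combination h11 / 2

theorem jordan_test [CompleteSpace X] (h5 : Dim4 X) {T : X →L[ℂ] X}
    (hT : ∃ y, LinearIndependent ℂ ![y, T y]) :
    ∃ R : X →L[ℂ] X, Prp 1 T R ∧ (∃ z, z ≠ 0 ∧ R z = 0) ∧ (∃ y, LinearIndependent ℂ ![y, R y]) ∧
      ∀ c s : ℂ, Prp 1 (c • T + s • (1 : X →L[ℂ] X)) R → s = 0 := by
  by_cases h1 : ∃ x, x ∉ Submodule.span ℂ {T x, T (T x)}
  · obtain ⟨x, hx⟩ := h1
    exact JTest_one h5 hx
  push Not at h1
  obtain ⟨y0, hy0⟩ := hT
  have h2 : ∀ y, ∃ a b : ℂ, (T.comp T : X →L[ℂ] X) y = a • y + b • T y := by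
    intro y
    show ∃ a b : ℂ, T (T y) = a • y + b • T y
    by_cases hy : LinearIndependent ℂ ![y, T y]
    · obtain ⟨a, b, hab⟩ := Submodule.mem_span_pair.mp (h1 y)
      have hb : b ≠ 0 := by
        intro hb
        rw [hb, zero_smul, add_zero] at hab
        have h3 := LinearIndependent.pair_iff.mp hy (-1) a (by rw [hab]; module)
        exact one_ne_zero (neg_eq_zero.mp h3.1)
      refine ⟨b⁻¹, -(b⁻¹ * a), ?_⟩
      have h3 : T (T y) = b⁻¹ • (b • T (T y)) := by rw [smul_smul, inv_mul_cancel₀ hb, one_smul]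
      have h4 : b • T (T y) = y - a • T y := by
        rw [eq_sub_iff_add_eq, add_comm]
        exact hab
      rw [h3, h4]
      module
    · by_cases hy0 : y = 0
      · refine ⟨0, 0, ?_⟩
        rw [hy0, map_zero, map_zero, smul_zero, add_zero]
      · rw [LinearIndependent.pair_iff' hy0] at hy
        push Not at hy
        obtain ⟨c, hc⟩ := hy
        refine ⟨0, c, ?_⟩
        rw [← hc, map_smul, ← hc]
        module
  obtain ⟨α, β, hαβ⟩ := lld h5 (T : X →ₗ[ℂ] X) ((T.comp T : X →L[ℂ] X) : X →ₗ[ℂ] X) h2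
  have h3 : ∀ y, T (T y) = α • T y + β • y := hαβ
  have hβ : β ≠ 0 := by
    intro hβ
    obtain ⟨a, b, hab⟩ := Submodule.mem_span_pair.mp (h1 y0)
    rw [h3, hβ] at hab
    have h4 := LinearIndependent.pair_iff.mp hy0 (-1) (a + b * α) (by
      rw [neg_smul, one_smul]
      nth_rewrite 1 [← hab]
      module)
    exact one_ne_zero (neg_eq_zero.mp h4.1)
  exact JTest_two h5 hy0 hβ h3

/-- not a scalar -/
theorem exists_li_of_not_scalar {T : X →L[ℂ] X} (hT : ¬ ∃ s : ℂ, T = s • (1 : X →L[ℂ] X)) :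
    ∃ y, LinearIndependent ℂ ![y, T y] := by
  exact JTest_li hT

end Pool.Agent.H.MP_bb4c62_an.JM
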