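import Pool.Agent.H.MP_bb4c62_an.JM.Basic
import Pool.Agent.H.MP_bb4c62_an.JM.Lld

/-!
# Module JM/LineCol (compare QP/Lines, `hline_col`)

`f x = f y = 0`. `two`: `ten x f`, `ten y f`. `meet`: `prp_nil`; `z = f (S y) • x - f (S x) • y`, or `x` if both are `0`.
`gen`: `A = s1 + ten z1 f`, `B = s2 + ten z2 f`, `z1, z2` not proportional, same span as `x, y`.
(⟸) `C` not trivial, `Dep e A B C`. By `prp_one`: `l u = 0`, and `f u = 0` or `l z1 = l z2 = 0`, imply `l (C u) = 0`.
(i) `f u = 0`: `C u ∈ ℂ u`. So `C = c` on the kernel of `f` (`mul_of_local` for the inclusion of the kernel, or directly) and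
`C = c + ten v f`, `v = C u0 - c u0`, `f u0 = 1`. (ii) `v ∈ span {z1, z2}`: otherwise `l` with `l z1 = l z2 = 0`, `l v = 1`
and `l` not a multiple of `f` (add a functional vanishing in `z1, z2, v` if necessary; `Dim4`), `u` with `f u = 1`, `l u = 0`:
`l (C u) = l v = 0`, a contradiction. `Sc e c`: for `e = 1` take `u ∉ span {z1, z2}` with `f u = 0`, `l` with `l u = 1`,
`l z1 = l z2 = 0`, `S = ten u l`: `A S + S A = 0 = B S + S B`, `C S + S C = 2 c • ten u l`, so `c = 0`. `v ≠ 0` as `C`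
is not trivial. (⟹) `prp_nil`; not trivial: `s + ten z f` is not a scalar.
-/

namespace Pool.Agent.H.MP_bb4c62_an.JM

open Pool.Agent.H.MP_bb4c62_an.helper6.NL
open Pool.Agent.H.MP_bb4c62_an.helper6.Perturb
open Pool.Agent.H.MP_bb4c62_an.helper6.Gadgets

variable {X : Type*} [NormedAddCommGroup X] [NormedSpace ℂ X]

private theorem LineCol_span {V : Type*} [AddCommGroup V] [Module ℂ V] {f g h1 h2 h : V}
    (m1 : h1 ∈ Submodule.span ℂ {f, g}) (m2 : h2 ∈ Submodule.span ℂ {f, g})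
    (m : h ∈ Submodule.span ℂ {f, g}) (hn : h1 ≠ 0) (hp : ¬ ∃ c : ℂ, h2 = c • h1) :
    ∃ a b : ℂ, h = a • h1 + b • h2 := by
  obtain ⟨a1, b1, rfl⟩ := Submodule.mem_span_pair.1 m1
  obtain ⟨a2, b2, rfl⟩ := Submodule.mem_span_pair.1 m2
  obtain ⟨a, b, rfl⟩ := Submodule.mem_span_pair.1 m
  have hD : a1 * b2 - a2 * b1 ≠ 0 := by
    intro hD
    apply hp
    by_cases h0 : a1 = 0
    · have hb : b1 ≠ 0 := by
        rintro rfl
        apply hn
        rw [h0, zero_smul, zero_smul, add_zero]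
      have ha2 : a2 = 0 := by
        rw [h0, zero_mul, zero_sub, neg_eq_zero] at hD
        rcases mul_eq_zero.1 hD with h3 | h3
        · exact h3
        · exact absurd h3 hb
      refine ⟨b2 / b1, ?_⟩
      rw [h0, ha2, zero_smul, zero_add, zero_add, smul_smul, div_mul_cancel₀ _ hb]
    · refine ⟨a2 / a1, ?_⟩
      have h3 : b2 = a2 / a1 * b1 := by
        field_simp
        linear_combination hD
      rw [smul_add, smul_smul, smul_smul, div_mul_cancel₀ _ h0, ← h3]
  obtain ⟨c1, hc1⟩ : ∃ c, c = (a * b2 - b * a2) / (a1 * b2 - a2 * b1) := ⟨_, rfl⟩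
  obtain ⟨c2, hc2⟩ : ∃ c, c = (b * a1 - a * b1) / (a1 * b2 - a2 * b1) := ⟨_, rfl⟩
  have e1 : c1 * a1 + c2 * a2 = a := by
    rw [hc1, hc2, div_mul_eq_mul_div, div_mul_eq_mul_div, ← add_div, div_eq_iff hD]
    ring
  have e2 : c1 * b1 + c2 * b2 = b := by
    rw [hc1, hc2, div_mul_eq_mul_div, div_mul_eq_mul_div, ← add_div, div_eq_iff hD]
    ring
  refine ⟨c1, c2, ?_⟩
  rw [← e1, ← e2]
  module

private theorem LineCol_comb {V : Type*} [AddCommGroup V] [Module ℂ V] {f g : V} (hf : f ≠ 0)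
    (hfg : ¬ ∃ c : ℂ, g = c • f) (α β : ℂ) :
    ∃ a b : ℂ, a • f + b • g ≠ 0 ∧ a * α + b * β = 0 := by
  by_cases h : α = 0 ∧ β = 0
  · refine ⟨1, 0, ?_, ?_⟩
    · rw [one_smul, zero_smul, add_zero]
      exact hf
    · rw [h.1, h.2, mul_zero, mul_zero, add_zero]
  · refine ⟨β, -α, ?_, by ring⟩
    intro h0
    have h1 : β • f = α • g := by
      rw [neg_smul, ← sub_eq_add_neg, sub_eq_zero] at h0
      exact h0
    by_cases hα : α = 0
    · rw [hα, zero_smul] at h1
      rcases smul_eq_zero.1 h1 with h2 | h2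
      · exact h ⟨hα, h2⟩
      · exact hf h2
    · apply hfg
      refine ⟨α⁻¹ * β, ?_⟩
      rw [mul_smul, h1, smul_smul, inv_mul_cancel₀ hα, one_smul]

private theorem LineCol_sc {e s t c : ℂ} (hs : Sc e s) (ht : Sc e t) : Sc e (t - c * s) := by
  rcases hs with h | rfl
  · exact Or.inl h
  · rcases ht with h | rfl
    · exact Or.inl h
    · exact Or.inr (by ring)

private theorem LineCol_dep [CompleteSpace X] {e : ℂ} (he : Sg e) {A B C : X →L[ℂ] X}
    (h : Dep e A B C) (y : X) (l : X →L[ℂ] ℂ) (hl : l y = 0) (hA : l (A y) = 0)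
    (hB : l (B y) = 0) : l (C y) = 0 :=
  (prp_one he hl).1 (h _ ((prp_one he hl).2 hA) ((prp_one he hl).2 hB))

private theorem LineCol_form [CompleteSpace X] {e : ℂ} (he : Sg e) (h5 : Dim4 X)
    {z1 z2 v0 : X} {f : X →L[ℂ] ℂ} (hv0 : f v0 = 1) {s1 s2 : ℂ} (h1 : Sc e s1) (h2 : Sc e s2)
    {C : X →L[ℂ] X} (hC : ¬ Triv e C)
    (hD : Dep e (s1 • (1 : X →L[ℂ] X) + ten z1 f) (s2 • (1 : X →L[ℂ] X) + ten z2 f) C) :
    ∃ (c : ℂ) (v : X), Sc e c ∧ v ≠ 0 ∧ v ∈ Submodule.span ℂ {z1, z2} ∧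
      C = c • (1 : X →L[ℂ] X) + ten v f := by
  have key : ∀ (u : X) (l : X →L[ℂ] ℂ), l u = 0 → f u * l z1 = 0 → f u * l z2 = 0 →
      l (C u) = 0 := by
    intro u l hl e1 e2
    refine LineCol_dep he hD u l hl ?_ ?_
    · change l (s1 • u + f u • z1) = 0
      rw [map_add, map_smul, map_smul, hl, smul_zero, zero_add, smul_eq_mul]
      exact e1
    · change l (s2 • u + f u • z2) = 0
      rw [map_add, map_smul, map_smul, hl, smul_zero, zero_add, smul_eq_mul]
      exact e2
  have hloc : ∀ u : LinearMap.ker (f : X →ₗ[ℂ] ℂ), ∃ c : ℂ,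
      ((C : X →ₗ[ℂ] X).comp (LinearMap.ker (f : X →ₗ[ℂ] ℂ)).subtype) u =
        c • (LinearMap.ker (f : X →ₗ[ℂ] ℂ)).subtype u := by
    intro u
    have hu : f u = 0 := u.2
    by_cases hu0 : (u : X) = 0
    · refine ⟨0, ?_⟩
      change C (u : X) = (0 : ℂ) • (u : X)
      rw [hu0, map_zero, smul_zero]
    · by_contra hcon
      obtain ⟨⟨l, hl1, hl2⟩, -⟩ := exists_sep' (y2 := C (u : X)) hu0 hcon
      have h4 := key u l hl1 (by rw [hu, zero_mul]) (by rw [hu, zero_mul])
      rw [hl2] at h4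
      exact one_ne_zero h4
  obtain ⟨c, hc⟩ := QP.mul_of_local _ _ hloc
  have hker : ∀ u, f u = 0 → C u = c • u := fun u hu => hc ⟨u, hu⟩
  obtain ⟨v, hv⟩ : ∃ v, v = C v0 - c • v0 := ⟨_, rfl⟩
  have hCw : ∀ w, C w = c • w + f w • v := by
    intro w
    have h3 := hker (w - f w • v0) (by
      rw [map_sub, map_smul, hv0, smul_eq_mul, mul_one, sub_self])
    rw [map_sub, map_smul, sub_eq_iff_eq_add] at h3
    rw [h3, hv]
    module
  have hform : C = c • (1 : X →L[ℂ] X) + ten v f := by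
    ext w
    exact hCw w
  have hvm : v ∈ Submodule.span ℂ {z1, z2} := by
    by_contra hcon
    have hf0' : f ≠ 0 := by
      rintro rfl
      exact zero_ne_one hv0
    have hfv : f v ≠ 0 := by
      intro hfv
      obtain ⟨lb, hlb, hlb1⟩ := exists_sep_sub (Submodule.fg_span (Set.toFinite {z1, z2})) hcon
      have b1 : lb z1 = 0 := hlb _ (Submodule.subset_span (by simp))
      have b2 : lb z2 = 0 := hlb _ (Submodule.subset_span (by simp))
      obtain ⟨-, ⟨w, hw1, hw2⟩⟩ := exists_sep (g2 := lb) hf0' (by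
        rintro ⟨k, hk⟩
        have h6 : lb v = k * f v := by
          rw [hk]
          rfl
        rw [hlb1, hfv, mul_zero] at h6
        exact one_ne_zero h6)
      have h7 := key w lb hw2 (by rw [b1, mul_zero]) (by rw [b2, mul_zero])
      rw [hCw, hw1, one_smul, map_add, map_smul, hw2, smul_zero, zero_add, hlb1] at h7
      exact one_ne_zero h7
    obtain ⟨u0, hu0⟩ := exists_notMem3 h5 z1 z2 v
    obtain ⟨u1, hu1⟩ : ∃ u1, u1 = u0 - (f u0 * (f v)⁻¹) • v := ⟨_, rfl⟩
    have hfu1 : f u1 = 0 := by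
      rw [hu1, map_sub, map_smul, smul_eq_mul, mul_assoc, inv_mul_cancel₀ hfv, mul_one, sub_self]
    have hu1m : u1 ∉ Submodule.span ℂ {z1, z2, v} := by
      intro hm
      apply hu0
      have h3 : u0 = u1 + (f u0 * (f v)⁻¹) • v := by rw [hu1, sub_add_cancel]
      rw [h3]
      exact Submodule.add_mem _ hm
        (Submodule.smul_mem _ _ (Submodule.subset_span (by simp)))
    obtain ⟨la, hla, hla1⟩ := exists_sep_sub
      (Submodule.fg_span (Set.toFinite {z1, z2, v})) hu1m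
    obtain ⟨lb, hlb, hlb1⟩ := exists_sep_sub (Submodule.fg_span (Set.toFinite {z1, z2})) hcon
    obtain ⟨l, hl⟩ : ∃ l : X →L[ℂ] ℂ, l = lb + (1 - lb u1) • la := ⟨_, rfl⟩
    have hlw : ∀ w, l w = lb w + (1 - lb u1) * la w := by
      intro w
      rw [hl]
      rfl
    have a1 : la z1 = 0 := hla _ (Submodule.subset_span (by simp))
    have a2 : la z2 = 0 := hla _ (Submodule.subset_span (by simp))
    have a3 : la v = 0 := hla _ (Submodule.subset_span (by simp))
    have b1 : lb z1 = 0 := hlb _ (Submodule.subset_span (by simp))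
    have b2 : lb z2 = 0 := hlb _ (Submodule.subset_span (by simp))
    have l1 : l z1 = 0 := by rw [hlw, a1, b1, mul_zero, add_zero]
    have l2 : l z2 = 0 := by rw [hlw, a2, b2, mul_zero, add_zero]
    have l3 : l v = 1 := by rw [hlw, a3, hlb1, mul_zero, add_zero]
    have l4 : l u1 = 1 := by
      rw [hlw, hla1]
      ring
    have hf0 : f ≠ 0 := by
      rintro rfl
      exact zero_ne_one hv0
    obtain ⟨-, ⟨w, hw1, hw2⟩⟩ := exists_sep (g2 := l) hf0 (by
      rintro ⟨k, hk⟩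
      have h6 : l u1 = k * f u1 := by
        rw [hk]
        rfl
      rw [l4, hfu1, mul_zero] at h6
      exact one_ne_zero h6)
    have h7 := key w l hw2 (by rw [l1, mul_zero]) (by rw [l2, mul_zero])
    rw [hCw, hw1, one_smul, map_add, map_smul, hw2, smul_zero, zero_add, l3] at h7
    exact one_ne_zero h7
  have hcs : Sc e c := by
    rcases he with rfl | rfl
    · right
      have hs1 : s1 = 0 := h1.resolve_left (by norm_num)
      have hs2 : s2 = 0 := h2.resolve_left (by norm_num)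
      obtain ⟨u0, hu0⟩ := exists_notMem3 h5 z1 z2 v0
      obtain ⟨u, hu⟩ : ∃ u, u = u0 - f u0 • v0 := ⟨_, rfl⟩
      have hfu : f u = 0 := by
        rw [hu, map_sub, map_smul, hv0, smul_eq_mul, mul_one, sub_self]
      have hum : u ∉ Submodule.span ℂ {z1, z2} := by
        intro hm
        apply hu0
        have h3 : u0 = u + f u0 • v0 := by rw [hu, sub_add_cancel]
        rw [h3]
        refine Submodule.add_mem _ (Submodule.span_mono ?_ hm)
          (Submodule.smul_mem _ _ (Submodule.subset_span (by simp)))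
        intro w hw
        simp only [Set.mem_insert_iff, Set.mem_singleton_iff] at hw ⊢
        tauto
      obtain ⟨l, hl, hl1⟩ := exists_sep_sub (Submodule.fg_span (Set.toFinite {z1, z2})) hum
      have l1 : l z1 = 0 := hl _ (Submodule.subset_span (by simp))
      have l2 : l z2 = 0 := hl _ (Submodule.subset_span (by simp))
      have l3 : l v = 0 := hl _ hvm
      have hz : ∀ z : X, l z = 0 →
          Prp 1 ((0 : ℂ) • (1 : X →L[ℂ] X) + ten z f) (ten u l) := by
        intro z hz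
        have h3 : ((0 : ℂ) • (1 : X →L[ℂ] X) + ten z f) * ten u l +
            (1 : ℂ) • (ten u l * ((0 : ℂ) • (1 : X →L[ℂ] X) + ten z f)) = 0 := by
          ext w
          change ((0 : ℂ) • (l w • u) + f (l w • u) • z) +
            (1 : ℂ) • (l ((0 : ℂ) • w + f w • z) • u) = 0
          rw [map_smul, hfu, map_add, map_smul, map_smul, hz, smul_zero, smul_zero, zero_smul,
            zero_smul, zero_smul, add_zero, add_zero, zero_smul, smul_zero, add_zero]
        unfold Prp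
        rw [h3]
        exact qn_zero
      have h3 := hD (ten u l) (by rw [hs1]; exact hz z1 l1) (by rw [hs2]; exact hz z2 l2)
      have h4 : C * ten u l + (1 : ℂ) • (ten u l * C) = ten ((2 * c) • u) l := by
        ext w
        change C (l w • u) + (1 : ℂ) • (l (C w) • u) = l w • ((2 * c) • u)
        rw [hCw (l w • u), hCw w, map_smul f, hfu, map_add, map_smul, map_smul, l3, smul_zero,
          smul_zero, zero_smul, add_zero, add_zero, smul_eq_mul]
        module
      unfold Prp at h3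
      rw [h4, QP.qn_ten_iff, map_smul, hl1, smul_eq_mul, mul_one] at h3
      exact (mul_eq_zero.1 h3).resolve_left two_ne_zero
    · exact Or.inl rfl
  refine ⟨c, v, hcs, ?_, hvm, hform⟩
  intro h0
  apply hC
  refine ⟨c, hcs, ?_⟩
  rw [hform, h0, ten_eq_zero_iff.2 (Or.inl rfl), add_zero]

theorem hline_col [CompleteSpace X] {e : ℂ} (he : Sg e) (h5 : Dim4 X) {x y : X} (hx : x ≠ 0)
    (hxy : ¬ ∃ c : ℂ, y = c • x) {f : X →L[ℂ] ℂ} (hf : f ≠ 0) (hfx : f x = 0) (hfy : f y = 0) :
    HLine e {T : X →L[ℂ] X | ∃ (s : ℂ) (z : X), Sc e s ∧ z ≠ 0 ∧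
      z ∈ Submodule.span ℂ {x, y} ∧ T = s • (1 : X →L[ℂ] X) + ten z f} := by
  have hy : y ≠ 0 := by
    rintro rfl
    exact hxy ⟨0, by rw [zero_smul]⟩
  obtain ⟨v0, hv0⟩ := exists_ap hf
  have hker : ∀ z ∈ Submodule.span ℂ {x, y}, f z = 0 := by
    intro z hz
    obtain ⟨a, b, rfl⟩ := Submodule.mem_span_pair.1 hz
    rw [map_add, map_smul, map_smul, hfx, hfy, smul_zero, smul_zero, add_zero]
  refine ⟨?_, ?_, ?_⟩
  · refine ⟨(0 : ℂ) • (1 : X →L[ℂ] X) + ten x f,
      ⟨0, x, Or.inr rfl, hx, Submodule.subset_span (by simp), rfl⟩,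
      (0 : ℂ) • (1 : X →L[ℂ] X) + ten y f,
      ⟨0, y, Or.inr rfl, hy, Submodule.subset_span (by simp), rfl⟩, ?_⟩
    rintro ⟨c, s, -, hc⟩
    have h1 := congrArg (fun T : X →L[ℂ] X => T v0) hc
    change (0 : ℂ) • v0 + f v0 • y = c • ((0 : ℂ) • v0 + f v0 • x) + s • v0 at h1
    rw [hv0, zero_smul, zero_add, zero_add, one_smul, one_smul] at h1
    have h2 := congrArg f h1
    rw [map_add, map_smul, map_smul, hfx, hfy, hv0, smul_zero, zero_add, smul_eq_mul,
      mul_one] at h2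
    rw [← h2, zero_smul, add_zero] at h1
    exact hxy ⟨c, h1⟩
  · rintro A ⟨s1, z1, k1, n1, m1, rfl⟩ B ⟨s2, z2, k2, n2, m2, rfl⟩ hAB C
    have hp : ¬ ∃ c : ℂ, z2 = c • z1 := by
      rintro ⟨c, rfl⟩
      apply hAB
      refine ⟨c, s2 - c * s1, LineCol_sc k1 k2, ?_⟩
      rw [ten_smul_left]
      module
    constructor
    · rintro ⟨s, z, k, n, m, rfl⟩
      refine ⟨?_, ?_⟩
      · rintro ⟨t, -, ht⟩
        have h1 := congrArg (fun T : X →L[ℂ] X => T v0) ht
        change s • v0 + f v0 • z = t • v0 at h1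
        rw [hv0, one_smul] at h1
        have h2 := congrArg f h1
        rw [map_add, map_smul, map_smul, hker z m, hv0, add_zero, smul_eq_mul, smul_eq_mul,
          mul_one, mul_one] at h2
        rw [h2] at h1
        exact n (by simpa using h1)
      · obtain ⟨a, b, rfl⟩ := LineCol_span m1 m2 m n1 hp
        intro S hA hB
        rw [prp_nil he k1 (hker z1 m1)] at hA
        rw [prp_nil he k2 (hker z2 m2)] at hB
        rw [prp_nil he k (hker _ m), map_add, map_smul, map_smul, map_add, map_smul, map_smul,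
          hA, hB, smul_zero, smul_zero, add_zero]
    · rintro ⟨hC, hD⟩
      obtain ⟨c, v, h1, h2, h3, h4⟩ := LineCol_form he h5 hv0 k1 k2 hC hD
      refine ⟨c, v, h1, h2, ?_, h4⟩
      obtain ⟨a, b, hab⟩ := Submodule.mem_span_pair.1 h3
      rw [← hab]
      exact Submodule.add_mem _ (Submodule.smul_mem _ _ m1) (Submodule.smul_mem _ _ m2)
  · intro S
    obtain ⟨a, b, hne, h0⟩ := LineCol_comb hx hxy (f (S x)) (f (S y))
    have hm : a • x + b • y ∈ Submodule.span ℂ {x, y} := Submodule.mem_span_pair.2 ⟨a, b, rfl⟩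
    refine ⟨(0 : ℂ) • (1 : X →L[ℂ] X) + ten (a • x + b • y) f,
      ⟨0, a • x + b • y, Or.inr rfl, hne, hm, rfl⟩, ?_⟩
    rw [prp_nil he (Or.inr rfl) (hker _ hm), map_add, map_smul, map_smul, map_add, map_smul,
      map_smul, smul_eq_mul, smul_eq_mul]
    exact h0

end Pool.Agent.H.MP_bb4c62_an.JM
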