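import Pool.Agent.H.MP_bb4c62_an.JM.Basic
import Pool.Agent.H.MP_bb4c62_an.JM.Lld
import Pool.Agent.H.MP_bb4c62_an.QP.HLine

/-!
# Module JM/LineRow (compare QP/Lines, `hline_row`)

`f w = g w = 0`. `two`: `ten w f`, `ten w g`. `meet`: `prp_nil`; `h = g (S w) • f - f (S w) • g`, or `f` if both are `0`.
`gen`: `A = s1 + ten w h1`, `B = s2 + ten w h2`, `h1, h2` not proportional, same span as `f, g`.
(⟸) `C` not trivial, `Dep e A B C`. By `prp_one`: `l y = 0`, and `l w = 0` or `h1 y = h2 y = 0`, imply `l (C y) = 0`.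
So `C y ∈ span {y, w}` for all `y` (`HLine_mem` in QP/HLine); `scalar_mod` (`Z = span {w, w, w}` or `span {w}`, `K = ⊥`):
`C = c + ten w h` (`Basic_ten_of_local` in QP/Basic). For `y` with `h1 y = h2 y = 0`, `y ∉ ℂ w`, take `l` with `l y = 0`,
`l w = 1`: `h y = 0`; for `y = w`: `h w = h (w + y) - h y = 0` with such a `y` (`Dim4`). `mem_span_dual`
(helper6/NInst): `h ∈ span {h1, h2}`. `Sc e c`: for `e = 1` take `S = ten y l`, `l y = 1`, `h1 y = h2 y = 0`, `l w = 0`
(`y ∉ ℂ w`): `A S + S A = 0 = B S + S B` (`s1 = s2 = 0`), `C S + S C = 2 c • ten y l`, so `c = 0`. `h ≠ 0` as `C` is not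
trivial. (⟹) `prp_nil`; not trivial: `s + ten w h` is not a scalar.
-/

namespace Pool.Agent.H.MP_bb4c62_an.JM

open Pool.Agent.H.MP_bb4c62_an.helper6.NL
open Pool.Agent.H.MP_bb4c62_an.helper6.Perturb
open Pool.Agent.H.MP_bb4c62_an.helper6.Gadgets

variable {X : Type*} [NormedAddCommGroup X] [NormedSpace ℂ X]

private theorem LineRow_span {V : Type*} [AddCommGroup V] [Module ℂ V] {f g h1 h2 h : V}
    (m1 : h1 ∈ Submodule.span ℂ {f, g}) (m2 : h2 ∈ Submodule.span ℂ {f, g})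
    (m : h ∈ Submodule.span ℂ {f, g}) (hn : h1 ≠ 0) (hp : ¬ ∃ c : ℂ, h2 = c • h1) :
    ∃ a b : ℂ, h = a • h1 + b • h2 := by
  obtain ⟨a1, b1, rfl⟩ := Submodule.mem_span_pair.1 m1
  obtain ⟨a2, b2, rfl⟩ := Submodule.mem_span_pair.1 m2
  obtain ⟨a, b, rfl⟩ := Submodule.mem_span_pair.1 m
  have hD : a1 * b2 - a2 * b1 ≠ 0 := by
    intro hD
    apply hp
    by_cases h0 : a1 = 0
    · have hb : b1 ≠ 0 := by
        rintro rfl
        apply hn
        rw [h0, zero_smul, zero_smul, add_zero]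
      have ha2 : a2 = 0 := by
        rw [h0, zero_mul, zero_sub, neg_eq_zero] at hD
        rcases mul_eq_zero.1 hD with h3 | h3
        · exact h3
        · exact absurd h3 hb
      refine ⟨b2 / b1, ?_⟩
      rw [h0, ha2, zero_smul, zero_add, zero_add, smul_smul, div_mul_cancel₀ _ hb]
    · refine ⟨a2 / a1, ?_⟩
      have h3 : b2 = a2 / a1 * b1 := by
        field_simp
        linear_combination hD
      rw [smul_add, smul_smul, smul_smul, div_mul_cancel₀ _ h0, ← h3]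
  obtain ⟨c1, hc1⟩ : ∃ c, c = (a * b2 - b * a2) / (a1 * b2 - a2 * b1) := ⟨_, rfl⟩
  obtain ⟨c2, hc2⟩ : ∃ c, c = (b * a1 - a * b1) / (a1 * b2 - a2 * b1) := ⟨_, rfl⟩
  have e1 : c1 * a1 + c2 * a2 = a := by
    rw [hc1, hc2, div_mul_eq_mul_div, div_mul_eq_mul_div, ← add_div, div_eq_iff hD]
    ring
  have e2 : c1 * b1 + c2 * b2 = b := by
    rw [hc1, hc2, div_mul_eq_mul_div, div_mul_eq_mul_div, ← add_div, div_eq_iff hD]
    ring
  refine ⟨c1, c2, ?_⟩
  rw [← e1, ← e2]
  module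

private theorem LineRow_comb {V : Type*} [AddCommGroup V] [Module ℂ V] {f g : V} (hf : f ≠ 0)
    (hfg : ¬ ∃ c : ℂ, g = c • f) (α β : ℂ) :
    ∃ a b : ℂ, a • f + b • g ≠ 0 ∧ a * α + b * β = 0 := by
  by_cases h : α = 0 ∧ β = 0
  · refine ⟨1, 0, ?_, ?_⟩
    · rw [one_smul, zero_smul, add_zero]
      exact hf
    · rw [h.1, h.2, mul_zero, mul_zero, add_zero]
  · refine ⟨β, -α, ?_, by ring⟩
    intro h0
    have h1 : β • f = α • g := by
      rw [neg_smul, ← sub_eq_add_neg, sub_eq_zero] at h0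
      exact h0
    by_cases hα : α = 0
    · rw [hα, zero_smul] at h1
      rcases smul_eq_zero.1 h1 with h2 | h2
      · exact h ⟨hα, h2⟩
      · exact hf h2
    · apply hfg
      refine ⟨α⁻¹ * β, ?_⟩
      rw [mul_smul, h1, smul_smul, inv_mul_cancel₀ hα, one_smul]

private theorem LineRow_sc {e s t c : ℂ} (hs : Sc e s) (ht : Sc e t) : Sc e (t - c * s) := by
  rcases hs with h | rfl
  · exact Or.inl h
  · rcases ht with h | rfl
    · exact Or.inl h
    · exact Or.inr (by ring)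

private theorem LineRow_dep [CompleteSpace X] {e : ℂ} (he : Sg e) {A B C : X →L[ℂ] X}
    (h : Dep e A B C) (y : X) (l : X →L[ℂ] ℂ) (hl : l y = 0) (hA : l (A y) = 0)
    (hB : l (B y) = 0) : l (C y) = 0 :=
  (prp_one he hl).1 (h _ ((prp_one he hl).2 hA) ((prp_one he hl).2 hB))

/-- a vector in the kernels of two functionals which is not a multiple of `w` -/
private theorem LineRow_ker (h5 : Dim4 X) {w : X} (hw : w ≠ 0) (h1 h2 : X →L[ℂ] ℂ) :
    ∃ y : X, (¬ ∃ c : ℂ, y = c • w) ∧ h1 y = 0 ∧ h2 y = 0 := by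
  obtain ⟨q, hq⟩ := exists_notMem3 h5 w w w
  have hqw : ¬ ∃ c : ℂ, q = c • w := by
    rintro ⟨c, rfl⟩
    exact hq (Submodule.smul_mem _ _ (Submodule.subset_span (by simp)))
  obtain ⟨y, hy, hR⟩ := exists_ker_line h5 w q
    ((h1 : X →ₗ[ℂ] ℂ).smulRight w + (h2 : X →ₗ[ℂ] ℂ).smulRight q) (by
      intro z
      exact Submodule.mem_span_pair.2 ⟨h1 z, h2 z, rfl⟩) w
  have hR' : h1 y • w + h2 y • q = 0 := hR
  have e2 : h2 y = 0 := by
    by_contra hne
    apply hqw
    refine ⟨-((h2 y)⁻¹ * h1 y), ?_⟩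
    have e3 : h2 y • q = -(h1 y • w) := by
      rw [eq_neg_iff_add_eq_zero, add_comm]
      exact hR'
    calc q = (h2 y)⁻¹ • (h2 y • q) := by rw [smul_smul, inv_mul_cancel₀ hne, one_smul]
      _ = -((h2 y)⁻¹ * h1 y) • w := by rw [e3, smul_neg, smul_smul, neg_smul]
  have e1 : h1 y = 0 := by
    rw [e2, zero_smul, add_zero] at hR'
    exact (smul_eq_zero.1 hR').resolve_right hw
  refine ⟨y, ?_, e1, e2⟩
  rintro ⟨c, rfl⟩
  exact hy (Submodule.smul_mem _ _ (Submodule.subset_span (by simp)))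

private theorem LineRow_form [CompleteSpace X] {e : ℂ} (he : Sg e) (h5 : Dim4 X) {w : X}
    (hw : w ≠ 0) {h1 h2 : X →L[ℂ] ℂ} (hw1 : h1 w = 0) (hw2 : h2 w = 0) {s1 s2 : ℂ}
    (k1 : Sc e s1) (k2 : Sc e s2) {C : X →L[ℂ] X} (hC : ¬ Triv e C)
    (hD : Dep e (s1 • (1 : X →L[ℂ] X) + ten w h1) (s2 • (1 : X →L[ℂ] X) + ten w h2) C) :
    ∃ (c : ℂ) (h : X →L[ℂ] ℂ), Sc e c ∧ h ≠ 0 ∧ (∃ a b : ℂ, h = a • h1 + b • h2) ∧
      C = c • (1 : X →L[ℂ] X) + ten w h := by
  have key : ∀ (y : X) (l : X →L[ℂ] ℂ), l y = 0 → h1 y * l w = 0 → h2 y * l w = 0 →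
      l (C y) = 0 := by
    intro y l hl e1 e2
    refine LineRow_dep he hD y l hl ?_ ?_
    · change l (s1 • y + h1 y • w) = 0
      rw [map_add, map_smul, map_smul, hl, smul_zero, zero_add, smul_eq_mul]
      exact e1
    · change l (s2 • y + h2 y • w) = 0
      rw [map_add, map_smul, map_smul, hl, smul_zero, zero_add, smul_eq_mul]
      exact e2
  have hspan : ∀ y, C y ∈ Submodule.span ℂ {y, w} := fun y =>
    QP.HLine_mem fun l hl1 hl2 => key y l hl1 (by rw [hl2, mul_zero]) (by rw [hl2, mul_zero])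
  obtain ⟨c, hc⟩ := scalar_mod (Submodule.span ℂ {w}) (⊥ : Submodule ℂ X)
    (by
      intro h0
      have h3 : w ∈ (⊥ : Submodule ℂ X) := by
        rw [h0]
        exact Submodule.mem_top
      exact hw ((Submodule.mem_bot ℂ).1 h3))
    (by
      obtain ⟨u, v, huv⟩ := exists_two_mod h5 w w
      refine ⟨u, v, fun a b hab => huv a b ?_⟩
      refine Submodule.span_mono ?_ hab
      intro x hx
      rw [Set.mem_singleton_iff] at hx
      rw [hx]
      exact Set.mem_insert _ _)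
    (C : X →ₗ[ℂ] X) (by
      intro z _ _
      obtain ⟨a, b, hab⟩ := Submodule.mem_span_pair.1 (hspan z)
      refine ⟨a, ?_⟩
      change C z - a • z ∈ _
      rw [← hab, add_sub_cancel_left]
      exact Submodule.smul_mem _ _ (Submodule.mem_span_singleton_self w))
  obtain ⟨h, hh⟩ := QP.Basic_ten_of_local (A := C - c • (1 : X →L[ℂ] X)) hw (by
    intro x
    obtain ⟨a, ha⟩ := Submodule.mem_span_singleton.1 (hc x)
    exact ⟨a, ha.symm⟩)
  have hform : C = c • (1 : X →L[ℂ] X) + ten w h := by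
    rw [← hh, add_sub_cancel]
  have hCy : ∀ y, C y = c • y + h y • w := by
    intro y
    have h3 := congrArg (fun T : X →L[ℂ] X => T y) hform
    exact h3
  have hgood : ∀ y, (¬ ∃ k : ℂ, w = k • y) → h1 y = 0 → h2 y = 0 → h y = 0 := by
    intro y hy e1 e2
    by_cases hy0 : y = 0
    · rw [hy0, map_zero]
    · obtain ⟨⟨l, hl1, hl2⟩, -⟩ := exists_sep' hy0 hy
      have h3 := key y l hl1 (by rw [e1, zero_mul]) (by rw [e2, zero_mul])
      rw [hCy, map_add, map_smul, map_smul, hl1, hl2, smul_zero, zero_add, smul_eq_mul,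
        mul_one] at h3
      exact h3
  have hmul : ∀ y, (¬ ∃ k : ℂ, y = k • w) → ¬ ∃ k : ℂ, w = k • y := by
    rintro y hy ⟨k, hk⟩
    have hk0 : k ≠ 0 := by
      rintro rfl
      rw [zero_smul] at hk
      exact hw hk
    apply hy
    refine ⟨k⁻¹, ?_⟩
    rw [hk, smul_smul, inv_mul_cancel₀ hk0, one_smul]
  obtain ⟨y, hyw, hy1, hy2⟩ := LineRow_ker h5 hw h1 h2
  have hhy : h y = 0 := hgood y (hmul y hyw) hy1 hy2
  have hhw : h w = 0 := by
    have h3 : h (w + y) = 0 := by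
      refine hgood _ (hmul _ ?_) ?_ ?_
      · rintro ⟨k, hk⟩
        apply hyw
        refine ⟨k - 1, ?_⟩
        rw [sub_smul, one_smul, ← hk, add_sub_cancel_left]
      · rw [map_add, hw1, hy1, add_zero]
      · rw [map_add, hw2, hy2, add_zero]
    rw [map_add, hhy, add_zero] at h3
    exact h3
  have hall : ∀ x, h1 x = 0 → h2 x = 0 → h x = 0 := by
    intro x e1 e2
    by_cases hx : ∃ k : ℂ, x = k • w
    · obtain ⟨k, rfl⟩ := hx
      rw [map_smul, hhw, smul_zero]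
    · exact hgood x (hmul x hx) e1 e2
  have hcs : Sc e c := by
    rcases he with rfl | rfl
    · right
      have hs1 : s1 = 0 := k1.resolve_left (by norm_num)
      have hs2 : s2 = 0 := k2.resolve_left (by norm_num)
      obtain ⟨⟨l, hl1, hl2⟩, -⟩ := exists_sep' hw hyw
      have hz : ∀ h' : X →L[ℂ] ℂ, h' y = 0 →
          Prp 1 ((0 : ℂ) • (1 : X →L[ℂ] X) + ten w h') (ten y l) := by
        intro h' hz
        have h3 : ((0 : ℂ) • (1 : X →L[ℂ] X) + ten w h') * ten y l +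
            (1 : ℂ) • (ten y l * ((0 : ℂ) • (1 : X →L[ℂ] X) + ten w h')) = 0 := by
          ext x
          change ((0 : ℂ) • (l x • y) + h' (l x • y) • w) +
            (1 : ℂ) • (l ((0 : ℂ) • x + h' x • w) • y) = 0
          rw [map_smul, hz, map_add, map_smul, map_smul, hl1, smul_zero, smul_zero, zero_smul,
            zero_smul, zero_smul, add_zero, add_zero, zero_smul, smul_zero, add_zero]
        unfold Prp
        rw [h3]
        exact qn_zero
      have h3 := hD (ten y l) (by rw [hs1]; exact hz h1 hy1) (by rw [hs2]; exact hz h2 hy2)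
      have h4 : C * ten y l + (1 : ℂ) • (ten y l * C) = ten ((2 * c) • y) l := by
        ext x
        change C (l x • y) + (1 : ℂ) • (l (C x) • y) = l x • ((2 * c) • y)
        rw [hCy (l x • y), hCy x, map_smul h, hhy, map_add, map_smul, map_smul, hl1, smul_zero,
          smul_zero, zero_smul, add_zero, add_zero, smul_eq_mul]
        module
      unfold Prp at h3
      rw [h4, QP.qn_ten_iff, map_smul, hl2, smul_eq_mul, mul_one] at h3
      exact (mul_eq_zero.1 h3).resolve_left two_ne_zero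
    · exact Or.inl rfl
  refine ⟨c, h, hcs, ?_, mem_span_dual hall, hform⟩
  intro h0
  apply hC
  refine ⟨c, hcs, ?_⟩
  rw [hform, h0, ten_eq_zero_iff.2 (Or.inr rfl), add_zero]

theorem hline_row [CompleteSpace X] {e : ℂ} (he : Sg e) (h5 : Dim4 X) {w : X} (hw : w ≠ 0)
    {f g : X →L[ℂ] ℂ} (hf : f ≠ 0) (hfg : ¬ ∃ c : ℂ, g = c • f) (hfw : f w = 0)
    (hgw : g w = 0) :
    HLine e {T : X →L[ℂ] X | ∃ (s : ℂ) (h : X →L[ℂ] ℂ), Sc e s ∧ h ≠ 0 ∧
      h ∈ Submodule.span ℂ {f, g} ∧ T = s • (1 : X →L[ℂ] X) + ten w h} := by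
  have hg : g ≠ 0 := by
    rintro rfl
    exact hfg ⟨0, (dual_zero_smul f).symm⟩
  have hker : ∀ h ∈ Submodule.span ℂ {f, g}, h w = 0 := by
    intro h hh
    obtain ⟨a, b, rfl⟩ := Submodule.mem_span_pair.1 hh
    change a * f w + b * g w = 0
    rw [hfw, hgw, mul_zero, mul_zero, add_zero]
  refine ⟨?_, ?_, ?_⟩
  · refine ⟨(0 : ℂ) • (1 : X →L[ℂ] X) + ten w f,
      ⟨0, f, Or.inr rfl, hf, Submodule.subset_span (by simp), rfl⟩,
      (0 : ℂ) • (1 : X →L[ℂ] X) + ten w g,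
      ⟨0, g, Or.inr rfl, hg, Submodule.subset_span (by simp), rfl⟩, ?_⟩
    rintro ⟨c, s, -, hc⟩
    have h0 : ∀ x, (0 : ℂ) • x + g x • w = c • ((0 : ℂ) • x + f x • w) + s • x := fun x =>
      congrArg (fun T : X →L[ℂ] X => T x) hc
    have hs : s = 0 := by
      have h1 := h0 w
      rw [hfw, hgw, zero_smul, add_zero, smul_zero, zero_add] at h1
      exact (smul_eq_zero.1 h1.symm).resolve_right hw
    apply hfg
    refine ⟨c, ?_⟩
    ext x
    have h1 := h0 x
    rw [hs, zero_smul, zero_add, zero_add, add_zero, smul_smul] at h1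
    change g x = c * f x
    exact smul_left_injective ℂ hw h1
  · rintro A ⟨s1, h1, k1, n1, m1, rfl⟩ B ⟨s2, h2, k2, n2, m2, rfl⟩ hAB C
    have hp : ¬ ∃ c : ℂ, h2 = c • h1 := by
      rintro ⟨c, rfl⟩
      apply hAB
      refine ⟨c, s2 - c * s1, LineRow_sc k1 k2, ?_⟩
      rw [ten_smul_right]
      module
    constructor
    · rintro ⟨s, h, k, n, m, rfl⟩
      refine ⟨?_, ?_⟩
      · rintro ⟨t, -, ht⟩
        have h0 : ∀ x, s • x + h x • w = t • x := fun x =>
          congrArg (fun T : X →L[ℂ] X => T x) ht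
        have hst : s = t := by
          have h3 := h0 w
          rw [hker h m, zero_smul, add_zero] at h3
          exact smul_left_injective ℂ hw h3
        apply n
        ext x
        have h3 := h0 x
        rw [hst, add_eq_left] at h3
        exact (smul_eq_zero.1 h3).resolve_right hw
      · obtain ⟨a, b, rfl⟩ := LineRow_span m1 m2 m n1 hp
        intro S hA hB
        rw [prp_nil he k1 (hker h1 m1)] at hA
        rw [prp_nil he k2 (hker h2 m2)] at hB
        rw [prp_nil he k (hker _ m)]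
        change a * h1 (S w) + b * h2 (S w) = 0
        rw [hA, hB, mul_zero, mul_zero, add_zero]
    · rintro ⟨hC, hD⟩
      obtain ⟨c, h, a1, a2, ⟨a, b, a3⟩, a4⟩ :=
        LineRow_form he h5 hw (hker h1 m1) (hker h2 m2) k1 k2 hC hD
      refine ⟨c, h, a1, a2, ?_, a4⟩
      rw [a3]
      exact Submodule.add_mem _ (Submodule.smul_mem _ _ m1) (Submodule.smul_mem _ _ m2)
  · intro S
    obtain ⟨a, b, hne, h0⟩ := LineRow_comb hf hfg (f (S w)) (g (S w))
    have hm : a • f + b • g ∈ Submodule.span ℂ {f, g} := Submodule.mem_span_pair.2 ⟨a, b, rfl⟩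
    refine ⟨(0 : ℂ) • (1 : X →L[ℂ] X) + ten w (a • f + b • g),
      ⟨0, a • f + b • g, Or.inr rfl, hne, hm, rfl⟩, ?_⟩
    rw [prp_nil he (Or.inr rfl) (hker _ hm)]
    exact h0

end Pool.Agent.H.MP_bb4c62_an.JM
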