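import Pool.Agent.H.MP_bb4c62_an.JM.Defs

/-!
# Module JM/LldA: locally scalar modulo a subspace

`h`: `U z ∈ ℂ z + Z` for `z ∉ Z ∪ K`, `K` proper. There is a linear functional `κ ≠ 0` which is `0` on `K`; it is enough to use the
hypothesis for `κ z ≠ 0`, `z ∉ Z`. (1) `U z ∈ Z` for `z ∈ Z`: take `y` with `y, y + z ∉ Z ∪ K`: `U z = U (y + z) - U y ∈ Z + ℂ y`; the
same for `y'` independent of `y` modulo `Z` (there are such: `u, v` of `h2` can be replaced by combinations with `κ ≠ 0`, `κ z ≠ -κ y`).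
(2) for `y, y'` outside of `Z ∪ K`, independent modulo `Z`, with `y + y' ∉ K` the constants of `y`, `y'`, `y + y'` agree modulo
`Z`. (3) fix `y0 ∉ Z ∪ K` with constant `c`; for arbitrary `z`: `z + t y0 ∉ Z ∪ K` for all but at most two `t`; compare two values
of `t`. Any other way is fine.
-/

namespace Pool.Agent.H.MP_bb4c62_an.JM

open Pool.Agent.H.MP_bb4c62_an.QP

variable {E : Type*} [AddCommGroup E] [Module ℂ E]

theorem LldA_ind {Z : Submodule ℂ E} {y z : E} (hy : y ∉ Z) (hz : ∀ a : ℂ, z - a • y ∉ Z)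
    {a b : ℂ} (hab : a • y + b • z ∈ Z) : a = 0 ∧ b = 0 := by
  have hb : b = 0 := by
    by_contra hb
    refine hz (-(b⁻¹ * a)) ?_
    have e : z - -(b⁻¹ * a) • y = b⁻¹ • (a • y + b • z) := by
      rw [smul_add, smul_smul, smul_smul, inv_mul_cancel₀ hb, one_smul, neg_smul, sub_neg_eq_add,
        add_comm]
    rw [e]
    exact Z.smul_mem _ hab
  subst hb
  rw [zero_smul, add_zero] at hab
  refine ⟨?_, rfl⟩
  by_contra ha
  refine hy ?_
  have e : y = a⁻¹ • (a • y) := by rw [smul_smul, inv_mul_cancel₀ ha, one_smul]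
  rw [e]
  exact Z.smul_mem _ hab

theorem LldA_two {Z K : Submodule ℂ E} {U : E →ₗ[ℂ] E} {y z : E} (hy : y ∉ Z)
    (hz : ∀ a : ℂ, z - a • y ∉ Z) {c t1 t2 c1 c2 : ℂ} (hc : U y - c • y ∈ Z) (h0 : t1 ≠ 0)
    (h0' : t2 ≠ 0) (h12 : t1 ≠ t2) (h1 : U (y + t1 • z) - c1 • (y + t1 • z) ∈ Z)
    (h2 : U (y + t2 • z) - c2 • (y + t2 • z) ∈ Z) : U z - c • z ∈ Z := by
  have e1 : t1 • U z - (c1 - c) • y - (c1 * t1) • z ∈ Z := by
    have := Z.sub_mem h1 hc
    have e : U (y + t1 • z) - c1 • (y + t1 • z) - (U y - c • y) =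
        t1 • U z - (c1 - c) • y - (c1 * t1) • z := by
      rw [map_add, map_smul]
      module
    rwa [e] at this
  have e2 : t2 • U z - (c2 - c) • y - (c2 * t2) • z ∈ Z := by
    have := Z.sub_mem h2 hc
    have e : U (y + t2 • z) - c2 • (y + t2 • z) - (U y - c • y) =
        t2 • U z - (c2 - c) • y - (c2 * t2) • z := by
      rw [map_add, map_smul]
      module
    rwa [e] at this
  have e3 : (t1 * (c2 - c) - t2 * (c1 - c)) • y + (t1 * t2 * (c2 - c1)) • z ∈ Z := by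
    have := Z.sub_mem (Z.smul_mem t2 e1) (Z.smul_mem t1 e2)
    have e : t2 • (t1 • U z - (c1 - c) • y - (c1 * t1) • z) -
        t1 • (t2 • U z - (c2 - c) • y - (c2 * t2) • z) =
        (t1 * (c2 - c) - t2 * (c1 - c)) • y + (t1 * t2 * (c2 - c1)) • z := by
      module
    rwa [e] at this
  obtain ⟨e4, e5⟩ := LldA_ind hy hz e3
  have e6 : c2 = c1 := by
    rcases mul_eq_zero.1 e5 with h | h
    · rcases mul_eq_zero.1 h with h | h
      · exact absurd h h0
      · exact absurd h h0'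
    · exact sub_eq_zero.1 h
  subst e6
  have e7 : c2 = c := by
    have h : (t1 - t2) * (c2 - c) = 0 := by linear_combination e4
    rcases mul_eq_zero.1 h with h | h
    · exact absurd (sub_eq_zero.1 h) h12
    · exact sub_eq_zero.1 h
  subst e7
  have e8 : U z - c2 • z = t1⁻¹ • (t1 • U z - (c2 - c2) • y - (c2 * t1) • z) := by
    rw [sub_self, zero_smul, sub_zero, smul_sub, smul_smul, smul_smul, inv_mul_cancel₀ h0, one_smul,
      mul_comm c2 t1, ← mul_assoc, inv_mul_cancel₀ h0, one_mul]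
  rw [e8]
  exact Z.smul_mem _ e1

theorem LldA_K {K : Submodule ℂ E} {y z : E} (hy : y ∉ K) {s t : ℂ} (hst : s ≠ t)
    (hs : y + s • z ∈ K) (ht : y + t • z ∈ K) : False := by
  refine hy ?_
  have hd : s - t ≠ 0 := sub_ne_zero.2 hst
  have e : y = (s - t)⁻¹ • (s • (y + t • z) - t • (y + s • z)) := by
    have e' : s • (y + t • z) - t • (y + s • z) = (s - t) • y := by module
    rw [e', smul_smul, inv_mul_cancel₀ hd, one_smul]
  rw [e]
  exact K.smul_mem _ (K.sub_mem (K.smul_mem _ ht) (K.smul_mem _ hs))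

theorem LldA_one {Z K : Submodule ℂ E} {U : E →ₗ[ℂ] E}
    (h : ∀ z, z ∉ Z → z ∉ K → ∃ c : ℂ, U z - c • z ∈ Z) {y z : E} (hy : y ∉ Z) (hy' : y ∉ K)
    (hz : ∀ a : ℂ, z - a • y ∉ Z) {c : ℂ} (hc : U y - c • y ∈ Z) : U z - c • z ∈ Z := by
  have hZ : ∀ t : ℂ, y + t • z ∉ Z := by
    intro t ht
    have h1 : (1 : ℂ) • y + t • z ∈ Z := by rwa [one_smul]
    exact one_ne_zero (LldA_ind hy hz h1).1
  have key : ∀ s t : ℂ, s ≠ 0 → t ≠ 0 → s ≠ t → y + s • z ∉ K → y + t • z ∉ K →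
      U z - c • z ∈ Z := by
    intro s t hs ht hst h1 h2
    obtain ⟨c1, hc1⟩ := h _ (hZ s) h1
    obtain ⟨c2, hc2⟩ := h _ (hZ t) h2
    exact LldA_two (K := K) hy hz hc hs ht hst hc1 hc2
  by_cases h1 : y + (1 : ℂ) • z ∈ K
  · exact key 2 3 (by norm_num) (by norm_num) (by norm_num)
      (fun h3 => LldA_K hy' (by norm_num) h1 h3) (fun h3 => LldA_K hy' (by norm_num) h1 h3)
  · by_cases h2 : y + (2 : ℂ) • z ∈ K
    · exact key 1 3 (by norm_num) (by norm_num) (by norm_num) h1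
        (fun h3 => LldA_K hy' (by norm_num) h2 h3)
    · exact key 1 2 (by norm_num) (by norm_num) (by norm_num) h1 h2

theorem scalar_mod (Z K : Submodule ℂ E) (hK : K ≠ ⊤)
    (h2 : ∃ u v : E, ∀ a b : ℂ, a • u + b • v ∈ Z → a = 0 ∧ b = 0) (U : E →ₗ[ℂ] E)
    (h : ∀ z, z ∉ Z → z ∉ K → ∃ c : ℂ, U z - c • z ∈ Z) :
    ∃ c : ℂ, ∀ z, U z - c • z ∈ Z := by
  obtain ⟨u, v, huv⟩ := h2
  have hu : u ∉ Z := by
    intro hu
    have h1 : (1 : ℂ) • u + (0 : ℂ) • v ∈ Z := by rwa [one_smul, zero_smul, add_zero]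
    exact one_ne_zero (huv 1 0 h1).1
  obtain ⟨y, hy, hy'⟩ : ∃ y, y ∉ Z ∧ y ∉ K := by
    obtain ⟨y1, h1⟩ : ∃ y1, y1 ∉ K := by
      by_contra hc
      push Not at hc
      exact hK (Submodule.eq_top_iff'.2 hc)
    by_cases h3 : y1 ∈ Z
    · by_cases h4 : u ∈ K
      · refine ⟨y1 + u, fun h5 => hu ?_, fun h5 => h1 ?_⟩
        · have := Z.sub_mem h5 h3
          rwa [add_sub_cancel_left] at this
        · have := K.sub_mem h5 h4
          rwa [add_sub_cancel_right] at this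
      · exact ⟨u, hu, h4⟩
    · exact ⟨y1, h3, h1⟩
  obtain ⟨c, hc⟩ := h y hy hy'
  obtain ⟨w, hw⟩ : ∃ w, ∀ a : ℂ, w - a • y ∉ Z := by
    by_contra hn
    push Not at hn
    obtain ⟨a, ha⟩ := hn u
    obtain ⟨b, hb⟩ := hn v
    have h1 : b • u + (-a) • v ∈ Z := by
      have := Z.sub_mem (Z.smul_mem b ha) (Z.smul_mem a hb)
      have e : b • (u - a • y) - a • (v - b • y) = b • u + (-a) • v := by module
      rwa [e] at this
    obtain ⟨_, h4⟩ := huv _ _ h1
    have h5 : a = 0 := neg_eq_zero.1 h4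
    rw [h5, zero_smul, sub_zero] at ha
    exact hu ha
  have hw' := LldA_one h hy hy' hw hc
  refine ⟨c, fun z => ?_⟩
  by_cases hz : ∀ a : ℂ, z - a • y ∉ Z
  · exact LldA_one h hy hy' hz hc
  · push Not at hz
    obtain ⟨a, ha⟩ := hz
    have h3 : ∀ b : ℂ, z + w - b • y ∉ Z := by
      intro b hb
      refine hw (b - a) ?_
      have := Z.sub_mem hb ha
      have e : z + w - b • y - (z - a • y) = w - (b - a) • y := by module
      rwa [e] at this
    have h4 := Z.sub_mem (LldA_one h hy hy' h3 hc) hw'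
    have e : U (z + w) - c • (z + w) - (U w - c • w) = U z - c • z := by
      rw [map_add]
      module
    rwa [e] at h4

end Pool.Agent.H.MP_bb4c62_an.JM
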