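import Pool.Agent.H.MP_bb4c62_an.JM.Defs

/-!
# Module JM/LldB: dimension counts (dimension at least four)
-/

namespace Pool.Agent.H.MP_bb4c62_an.JM

open Pool.Agent.H.MP_bb4c62_an.QP

variable {E : Type*} [AddCommGroup E] [Module ℂ E]

theorem LldB_inj {v : Fin 4 → E} (hv : LinearIndependent ℂ v) :
    Function.Injective (Fintype.linearCombination ℂ v) :=
  linearIndependent_iff_injective_fintypeLinearCombination.1 hv

theorem LldB_fd {n : ℕ} (w : Fin n → E) :
    FiniteDimensional ℂ (Submodule.span ℂ (Set.range w)) ∧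
      Module.finrank ℂ (Submodule.span ℂ (Set.range w)) ≤ n := by
  refine ⟨FiniteDimensional.span_of_finite ℂ (Set.finite_range w), ?_⟩
  have h := finrank_range_le_card (R := ℂ) w
  rw [Fintype.card_fin] at h
  exact h

omit [AddCommGroup E] [Module ℂ E] in
theorem LldB_two (p q : E) : (Set.range ![p, q] : Set E) = {p, q} := by
  rw [Matrix.range_cons, Matrix.range_cons, Matrix.range_empty, Set.union_empty,
    Set.singleton_union]

omit [AddCommGroup E] [Module ℂ E] in
theorem LldB_one (p : E) : (Set.range ![p] : Set E) = {p} := by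
  rw [Matrix.range_cons, Matrix.range_empty, Set.union_empty]

omit [AddCommGroup E] [Module ℂ E] in
theorem LldB_three (p q r : E) : (Set.range ![p, q, r] : Set E) = {p, q, r} := by
  rw [Matrix.range_cons, Matrix.range_cons, Matrix.range_cons,
    Matrix.range_empty, Set.union_empty, Set.singleton_union, Set.singleton_union]

/-- the kernel of a map of rank at most two is not contained in a subspace `K` of dimension at most
one; and if it is contained in a subspace of dimension at most two it is equal to it -/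
theorem LldB_ker (h4 : Dim4 E) (p q : E) (R : E →ₗ[ℂ] E)
    (hR : ∀ z, R z ∈ Submodule.span ℂ {p, q}) (W : Submodule ℂ E) [FiniteDimensional ℂ W]
    (hle : Module.finrank ℂ W ≤ 2) (hcon : ∀ w, w ∉ W → R w ≠ 0) :
    Module.finrank ℂ W = 2 ∧ ∀ w ∈ W, R w = 0 := by
  obtain ⟨v, hv⟩ := h4
  obtain ⟨hfd, hle'⟩ := LldB_fd ![p, q]
  rw [LldB_two] at hfd hle'
  set V := Submodule.span ℂ ({p, q} : Set E) with hV
  set f := Fintype.linearCombination ℂ v with hf
  have hinj : Function.Injective f := LldB_inj hv
  let g : (Fin 4 → ℂ) →ₗ[ℂ] V := LinearMap.codRestrict V (R ∘ₗ f) (fun x => hR (f x))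
  have hrn := LinearMap.finrank_range_add_finrank_ker g
  have h5' : Module.finrank ℂ (Fin 4 → ℂ) = 4 := by
    rw [Module.finrank_fintype_fun_eq_card, Fintype.card_fin]
  have hr : Module.finrank ℂ (LinearMap.range g) ≤ 2 :=
    (Submodule.finrank_le (LinearMap.range g)).trans hle'
  have hz : ∀ x ∈ LinearMap.ker g, R (f x) = 0 := by
    intro x hx
    have h1 : ((g x : V) : E) = 0 := by
      rw [LinearMap.mem_ker.1 hx]
      rfl
    exact h1
  have hk : ∀ x ∈ LinearMap.ker g, f x ∈ W := by
    intro x hx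
    by_contra h
    exact hcon (f x) h (hz x hx)
  let j : LinearMap.ker g →ₗ[ℂ] W :=
    LinearMap.codRestrict W (f ∘ₗ (LinearMap.ker g).subtype) (fun x => hk x.1 x.2)
  have hj : Function.Injective j := by
    intro x y hxy
    have h1 : f x.1 = f y.1 := congrArg Subtype.val hxy
    exact Subtype.ext (hinj h1)
  have hk2 : Module.finrank ℂ (LinearMap.ker g) ≤ Module.finrank ℂ W :=
    LinearMap.finrank_le_finrank_of_injective hj
  have hW : Module.finrank ℂ W = 2 := by omega
  refine ⟨hW, ?_⟩
  have hsurj : Function.Surjective j := by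
    have h1 : Module.finrank ℂ (LinearMap.ker g) = Module.finrank ℂ W := by omega
    exact (LinearMap.injective_iff_surjective_of_finrank_eq_finrank h1).1 hj
  intro w hw
  obtain ⟨x, hx⟩ := hsurj ⟨w, hw⟩
  have h1 : f x.1 = w := congrArg Subtype.val hx
  rw [← h1]
  exact hz x.1 x.2

/-- a map with values in `span {p, q}` has a kernel vector outside of this subspace, or vanishes
on it -/
theorem exists_ker_or (h4 : Dim4 E) (p q : E) (R : E →ₗ[ℂ] E)
    (hR : ∀ z, R z ∈ Submodule.span ℂ {p, q}) :
    (∃ w, w ∉ Submodule.span ℂ {p, q} ∧ R w = 0) ∨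
      ∀ w ∈ Submodule.span ℂ {p, q}, R w = 0 := by
  by_cases h : ∃ w, w ∉ Submodule.span ℂ {p, q} ∧ R w = 0
  · exact Or.inl h
  · push Not at h
    obtain ⟨hfd, hle⟩ := LldB_fd ![p, q]
    rw [LldB_two] at hfd hle
    exact Or.inr (LldB_ker h4 p q R hR _ hle h).2

/-- a map with values in `span {p, q}` has a kernel vector outside of any line -/
theorem exists_ker_line (h4 : Dim4 E) (p q : E) (R : E →ₗ[ℂ] E)
    (hR : ∀ z, R z ∈ Submodule.span ℂ {p, q}) (u : E) :
    ∃ w, w ∉ Submodule.span ℂ {u} ∧ R w = 0 := by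
  by_contra h
  push Not at h
  obtain ⟨hfd, hle⟩ := LldB_fd ![u]
  rw [LldB_one] at hfd hle
  have h1 := (LldB_ker h4 p q R hR _ (hle.trans (by norm_num)) h).1
  omega

/-- a vector outside of a subspace of dimension at most three -/
theorem exists_notMem3 (h4 : Dim4 E) (p q r : E) :
    ∃ u : E, u ∉ Submodule.span ℂ {p, q, r} := by
  by_contra hcon
  push Not at hcon
  obtain ⟨v, hv⟩ := h4
  obtain ⟨hfd, hle⟩ := LldB_fd ![p, q, r]
  rw [LldB_three] at hfd hle
  let g : (Fin 4 → ℂ) →ₗ[ℂ] Submodule.span ℂ ({p, q, r} : Set E) :=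
    LinearMap.codRestrict _ (Fintype.linearCombination ℂ v) (fun x => hcon _)
  have hg : Function.Injective g := by
    intro x y hxy
    exact LldB_inj hv (congrArg Subtype.val hxy)
  have h1 := (LinearMap.finrank_le_finrank_of_injective hg).trans hle
  rw [Module.finrank_fintype_fun_eq_card, Fintype.card_fin] at h1
  omega

/-- outside of a subspace of dimension at most two there are two vectors which are independent
modulo this subspace -/
theorem exists_two_mod (h4 : Dim4 E) (p q : E) :
    ∃ u v : E, ∀ a b : ℂ, a • u + b • v ∈ Submodule.span ℂ {p, q} → a = 0 ∧ b = 0 := by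
  obtain ⟨u, hu⟩ := exists_notMem3 h4 p q q
  obtain ⟨v, hv⟩ := exists_notMem3 h4 p q u
  have hu' : u ∉ Submodule.span ℂ ({p, q} : Set E) := by
    intro h
    refine hu (Submodule.span_mono ?_ h)
    intro x hx
    rcases hx with h | h
    · exact Or.inl h
    · exact Or.inr (Or.inl h)
  have hsub : Submodule.span ℂ ({p, q} : Set E) ≤ Submodule.span ℂ ({p, q, u} : Set E) := by
    refine Submodule.span_mono ?_
    intro x hx
    rcases hx with h | h
    · exact Or.inl h
    · exact Or.inr (Or.inl h)
  have huu : u ∈ Submodule.span ℂ ({p, q, u} : Set E) :=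
    Submodule.subset_span (Or.inr (Or.inr rfl))
  refine ⟨u, v, fun a b hab => ?_⟩
  have hb : b = 0 := by
    by_contra hb
    apply hv
    have h1 := Submodule.sub_mem _ (hsub hab) (Submodule.smul_mem _ a huu)
    rw [add_sub_cancel_left] at h1
    have h2 := Submodule.smul_mem _ b⁻¹ h1
    rwa [smul_smul, inv_mul_cancel₀ hb, one_smul] at h2
  refine ⟨?_, hb⟩
  by_contra ha
  apply hu'
  rw [hb, zero_smul, add_zero] at hab
  have h2 := Submodule.smul_mem _ a⁻¹ hab
  rwa [smul_smul, inv_mul_cancel₀ ha, one_smul] at h2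

end Pool.Agent.H.MP_bb4c62_an.JM
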