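import Pool.Agent.H.MP_bb4c62_an.JM.Char
import Pool.Agent.H.MP_bb4c62_an.JM.HMain
import Pool.Agent.H.MP_bb4c62_an.JM.LineRow
import Pool.Agent.H.MP_bb4c62_an.JM.LineCol

/-!
# Module JM/Trans: the maps transfer H-lines and adjacency (compare QP/Trans)
-/

namespace Pool.Agent.H.MP_bb4c62_an.JM

open Pool.Agent.H.MP_bb4c62_an.helper6.NL
open Pool.Agent.H.MP_bb4c62_an.helper6.Perturb
open Pool.Agent.H.MP_bb4c62_an.helper6.Gadgets

variable {X : Type*} [NormedAddCommGroup X] [NormedSpace ℂ X]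
variable {Y : Type*} [NormedAddCommGroup Y] [NormedSpace ℂ Y]

theorem Trans_ten1 (f : X →L[ℂ] ℂ) : ten (0 : X) f = 0 := by
  rw [ten_eq_zero_iff]
  exact Or.inl rfl

theorem Trans_ten2 (w : X) : ten w (0 : X →L[ℂ] ℂ) = 0 := by
  rw [ten_eq_zero_iff]
  exact Or.inr rfl

theorem Trans_sc {e a b : ℂ} (ha : Sc e a) (hb : Sc e b) (c : ℂ) : Sc e (b - c * a) := by
  rcases ha with ha | ha
  · exact Or.inl ha
  · rcases hb with hb | hb
    · exact Or.inl hb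
    · right
      rw [ha, hb, mul_zero, sub_zero]

theorem Trans_alg (a b c : ℂ) (N : X →L[ℂ] X) :
    b • (1 : X →L[ℂ] X) + c • N = c • (a • (1 : X →L[ℂ] X) + N) +
      (b - c * a) • (1 : X →L[ℂ] X) := by
  rw [smul_add, smul_smul, sub_smul]
  abel

theorem Pres.triv_iff [CompleteSpace X] [CompleteSpace Y] {e : ℂ} (he : Sg e) (hX : Dim4 X)
    (hY : Dim4 Y) {φ : (X →L[ℂ] X) → (Y →L[ℂ] Y)} (h : Pres e φ) (T : X →L[ℂ] X) :
    Triv e (φ T) ↔ Triv e T := by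
  rw [← triv_char he hY, ← triv_char he hX]
  constructor
  · intro h1 R
    exact (h.iff T R).mp (h1 (φ R))
  · intro h1 R
    obtain ⟨R, rfl⟩ := h.surj R
    exact (h.iff T R).mpr (h1 R)

theorem Pres.par_iff [CompleteSpace X] [CompleteSpace Y] {e : ℂ} (he : Sg e) (hX : Dim4 X)
    (hY : Dim4 Y) {φ : (X →L[ℂ] X) → (Y →L[ℂ] Y)} (h : Pres e φ) (T S : X →L[ℂ] X) :
    Par e (φ T) (φ S) ↔ Par e T S := by
  rw [← par_char he hY, ← par_char he hX]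
  constructor
  · intro h1 R hR
    exact (h.iff S R).mp (h1 (φ R) ((h.iff T R).mpr hR))
  · intro h1 R
    obtain ⟨R, rfl⟩ := h.surj R
    intro hR
    exact (h.iff S R).mpr (h1 R ((h.iff T R).mp hR))

theorem Pres.dep_iff {e : ℂ} {φ : (X →L[ℂ] X) → (Y →L[ℂ] Y)} (h : Pres e φ)
    (A B C : X →L[ℂ] X) : Dep e (φ A) (φ B) (φ C) ↔ Dep e A B C := by
  constructor
  · intro h1 R h2 h3
    exact (h.iff C R).mp (h1 (φ R) ((h.iff A R).mpr h2) ((h.iff B R).mpr h3))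
  · intro h1 R
    obtain ⟨R, rfl⟩ := h.surj R
    intro h2 h3
    exact (h.iff C R).mpr (h1 R ((h.iff A R).mp h2) ((h.iff B R).mp h3))

theorem Pres.hline_pre [CompleteSpace X] [CompleteSpace Y] {e : ℂ} (he : Sg e) (hX : Dim4 X)
    (hY : Dim4 Y) {φ : (X →L[ℂ] X) → (Y →L[ℂ] Y)} (h : Pres e φ) {ℓ : Set (Y →L[ℂ] Y)}
    (hℓ : HLine e ℓ) : HLine e (φ ⁻¹' ℓ) := by
  refine ⟨?_, ?_, ?_⟩
  · obtain ⟨A, hA, B, hB, hAB⟩ := hℓ.two
    obtain ⟨A, rfl⟩ := h.surj A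
    obtain ⟨B, rfl⟩ := h.surj B
    exact ⟨A, hA, B, hB, fun h1 => hAB ((h.par_iff he hX hY A B).mpr h1)⟩
  · intro A hA B hB hAB C
    have h1 := hℓ.gen (φ A) hA (φ B) hB (fun h1 => hAB ((h.par_iff he hX hY A B).mp h1)) (φ C)
    rw [h.dep_iff, h.triv_iff he hX hY] at h1
    exact h1
  · intro S
    obtain ⟨U, hU, hUS⟩ := hℓ.meet (φ S)
    obtain ⟨U, rfl⟩ := h.surj U
    exact ⟨U, hU, (h.iff U S).mp hUS⟩

theorem Pres.hline_im [CompleteSpace X] [CompleteSpace Y] {e : ℂ} (he : Sg e) (hX : Dim4 X)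
    (hY : Dim4 Y) {φ : (X →L[ℂ] X) → (Y →L[ℂ] Y)} (h : Pres e φ) {ℓ : Set (X →L[ℂ] X)}
    (hℓ : HLine e ℓ) : HLine e (φ '' ℓ) := by
  refine ⟨?_, ?_, ?_⟩
  · obtain ⟨A, hA, B, hB, hAB⟩ := hℓ.two
    exact ⟨φ A, ⟨A, hA, rfl⟩, φ B, ⟨B, hB, rfl⟩,
      fun h1 => hAB ((h.par_iff he hX hY A B).mp h1)⟩
  · rintro A' ⟨A, hA, rfl⟩ B' ⟨B, hB, rfl⟩ hAB C'
    have hAB' : ¬ Par e A B := fun h1 => hAB ((h.par_iff he hX hY A B).mpr h1)
    constructor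
    · rintro ⟨C, hC, rfl⟩
      rw [h.dep_iff, h.triv_iff he hX hY]
      exact (hℓ.gen A hA B hB hAB' C).mp hC
    · intro h1
      obtain ⟨C, rfl⟩ := h.surj C'
      rw [h.dep_iff, h.triv_iff he hX hY] at h1
      exact ⟨C, (hℓ.gen A hA B hB hAB' C).mpr h1, rfl⟩
  · intro S
    obtain ⟨S, rfl⟩ := h.surj S
    obtain ⟨U, hU, hUS⟩ := hℓ.meet S
    exact ⟨φ U, ⟨U, hU, rfl⟩, (h.iff U S).mpr hUS⟩

/-- nontrivial, not proportional, adjacent operators are on an H-line (`hline_row`, `hline_col`) -/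
theorem Trans_line [CompleteSpace X] {e : ℂ} (he : Sg e) (hX : Dim4 X) {A B : X →L[ℂ] X}
    (hA : ¬ Triv e A) (hB : ¬ Triv e B) (hAB : ¬ Par e A B) (h : NAdj e A B) :
    ∃ ℓ, HLine e ℓ ∧ A ∈ ℓ ∧ B ∈ ℓ := by
  rcases h with ⟨a, b, w, f, g, ha, hb, hfw, hgw, rfl, rfl⟩ |
    ⟨a, b, w, z, f, ha, hb, hfw, hfz, rfl, rfl⟩
  · have hw : w ≠ 0 := by
      rintro rfl
      exact hA ⟨a, ha, by rw [Trans_ten1, add_zero]⟩
    have hf : f ≠ 0 := by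
      rintro rfl
      exact hA ⟨a, ha, by rw [Trans_ten2, add_zero]⟩
    have hg : g ≠ 0 := by
      rintro rfl
      exact hB ⟨b, hb, by rw [Trans_ten2, add_zero]⟩
    refine ⟨_, hline_row he hX hw hf (g := g) ?_ hfw hgw,
      ⟨a, f, ha, hf, Submodule.subset_span (by simp), rfl⟩,
      ⟨b, g, hb, hg, Submodule.subset_span (by simp), rfl⟩⟩
    rintro ⟨c, rfl⟩
    refine hAB ⟨c, b - c * a, Trans_sc ha hb c, ?_⟩
    rw [ten_smul_right]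
    exact Trans_alg a b c _
  · have hf : f ≠ 0 := by
      rintro rfl
      exact hA ⟨a, ha, by rw [Trans_ten2, add_zero]⟩
    have hw : w ≠ 0 := by
      rintro rfl
      exact hA ⟨a, ha, by rw [Trans_ten1, add_zero]⟩
    have hz : z ≠ 0 := by
      rintro rfl
      exact hB ⟨b, hb, by rw [Trans_ten1, add_zero]⟩
    refine ⟨_, hline_col he hX hw (y := z) ?_ hf hfw hfz,
      ⟨a, w, ha, hw, Submodule.subset_span (by simp), rfl⟩,
      ⟨b, z, hb, hz, Submodule.subset_span (by simp), rfl⟩⟩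
    rintro ⟨c, rfl⟩
    refine hAB ⟨c, b - c * a, Trans_sc ha hb c, ?_⟩
    rw [ten_smul_left]
    exact Trans_alg a b c _

theorem Pres.nadj [CompleteSpace X] [CompleteSpace Y] {e : ℂ} (he : Sg e) (hX : Dim4 X)
    (hY : Dim4 Y) {φ : (X →L[ℂ] X) → (Y →L[ℂ] Y)} (h : Pres e φ) {A B : X →L[ℂ] X}
    (hA : ¬ Triv e A) (hB : ¬ Triv e B) (hAB : ¬ Par e A B) :
    NAdj e (φ A) (φ B) ↔ NAdj e A B := by
  have hAB' : ¬ Par e (φ A) (φ B) := fun h1 => hAB ((h.par_iff he hX hY A B).mp h1)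
  have hA' : ¬ Triv e (φ A) := fun h1 => hA ((h.triv_iff he hX hY A).mp h1)
  have hB' : ¬ Triv e (φ B) := fun h1 => hB ((h.triv_iff he hX hY B).mp h1)
  constructor
  · intro h1
    obtain ⟨ℓ, hℓ, h2, h3⟩ := Trans_line he hY hA' hB' hAB' h1
    exact hline_nadj he hX (h.hline_pre he hX hY hℓ) h2 h3 hAB
  · intro h1
    obtain ⟨ℓ, hℓ, h2, h3⟩ := Trans_line he hX hA hB hAB h1
    exact hline_nadj he hY (h.hline_im he hX hY hℓ) ⟨A, h2, rfl⟩ ⟨B, h3, rfl⟩ hAB'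

end Pool.Agent.H.MP_bb4c62_an.JM
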